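import Mathlib

/-! A squarefree model of a polynomial over a domain of characteristic zero. -/

set_option autoImplicit false

open Polynomial

namespace Pool.Agent.L5helper22

section

variable {A : Type*} [CommRing A] [IsDomain A]

theorem clear_den {K : Type*} [Field K] [Algebra A K] [IsFractionRing A K] (p : K[X]) :
    ∃ c : A, c ≠ 0 ∧ ∃ q : A[X], q.map (algebraMap A K) = C (algebraMap A K c) * p := by
  obtain ⟨b, hb, hb'⟩ := IsLocalization.integerNormalization_spec (nonZeroDivisors A) p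
  refine ⟨b, nonZeroDivisors.ne_zero hb, _, hb'.trans ?_⟩
  rw [← smul_eq_C_mul, algebraMap_smul]

theorem sqfree_model [CharZero A] {f : A[X]} (hf : f ≠ 0) :
    ∃ P : A[X], P ≠ 0 ∧
      (∃ d : A, d ≠ 0 ∧ ∃ g, C d * f = P * g) ∧
      (∃ d : A, d ≠ 0 ∧ ∃ (N : ℕ) (h : A[X]), C d * P ^ N = f * h) ∧
      (∃ d : A, d ≠ 0 ∧ ∃ a b, a * P + b * derivative P = C d) := by
  classical
  let K := FractionRing A
  let φ : A →+* K := algebraMap A K
  have hinj : Function.Injective φ := IsFractionRing.injective A K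
  have hm : Function.Injective (Polynomial.map φ) := Polynomial.map_injective φ hinj
  have hφ : ∀ {c : A}, c ≠ 0 → φ c ≠ 0 := fun hc h => hc (hinj (by rw [h, map_zero]))
  obtain ⟨F, hF⟩ : ∃ F : K[X], F = f.map φ := ⟨_, rfl⟩
  have hF0 : F ≠ 0 := by
    rw [hF]
    intro h
    exact hf (hm (by rw [h, Polynomial.map_zero]))
  obtain ⟨r, hr⟩ : ∃ r : K[X], r = UniqueFactorizationMonoid.radical F := ⟨_, rfl⟩
  have hr0 : r ≠ 0 := by rw [hr]; exact UniqueFactorizationMonoid.radical_ne_zero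
  have hsq : r.Separable := by
    rw [hr]
    exact PerfectField.separable_iff_squarefree.mpr UniqueFactorizationMonoid.squarefree_radical
  obtain ⟨g, hg⟩ : r ∣ F := by rw [hr]; exact UniqueFactorizationMonoid.radical_dvd_self
  obtain ⟨N, h, hh⟩ : ∃ N, F ∣ r ^ N := by
    rw [hr]; exact UniqueFactorizationMonoid.exists_dvd_radical_self_pow hF0
  obtain ⟨a, b, hab⟩ := hsq
  obtain ⟨c, hc, P, hP⟩ := clear_den (A := A) (K := K) r
  have hc' := hφ hc
  refine ⟨P, ?_, ?_, ?_, ?_⟩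
  · rintro rfl
    rw [Polynomial.map_zero] at hP
    rcases mul_eq_zero.mp hP.symm with h | h
    · exact hc' (C_eq_zero.mp h)
    · exact hr0 h
  · obtain ⟨c₂, hc₂, g₂, hg₂⟩ := clear_den (A := A) (K := K) g
    refine ⟨c * c₂, mul_ne_zero hc hc₂, g₂, hm ?_⟩
    rw [Polynomial.map_mul, Polynomial.map_mul, Polynomial.map_C, ← hF, hg]
    show C (φ (c * c₂)) * (r * g) = P.map (algebraMap A K) * g₂.map (algebraMap A K)
    rw [hP, hg₂, map_mul, C_mul]
    show C (φ c) * C (φ c₂) * (r * g) = C (φ c) * r * (C (φ c₂) * g)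
    ring
  · obtain ⟨c₂, hc₂, h₂, hh₂⟩ := clear_den (A := A) (K := K) h
    refine ⟨c₂, hc₂, N, C c ^ N * h₂, hm ?_⟩
    rw [Polynomial.map_mul, Polynomial.map_mul, Polynomial.map_mul, Polynomial.map_pow,
      Polynomial.map_pow, Polynomial.map_C, Polynomial.map_C, ← hF]
    show C (φ c₂) * P.map (algebraMap A K) ^ N = F * (C (φ c) ^ N * h₂.map (algebraMap A K))
    rw [hP, hh₂, mul_pow, hh]
    show C (φ c₂) * (C (φ c) ^ N * (F * h)) = F * (C (φ c) ^ N * (C (φ c₂) * h))
    ring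
  · obtain ⟨c₃, hc₃, a₂, ha₂⟩ := clear_den (A := A) (K := K) a
    obtain ⟨c₄, hc₄, b₂, hb₂⟩ := clear_den (A := A) (K := K) b
    refine ⟨c * c₃ * c₄, mul_ne_zero (mul_ne_zero hc hc₃) hc₄, C c₄ * a₂, C c₃ * b₂, hm ?_⟩
    rw [Polynomial.map_add, Polynomial.map_mul, Polynomial.map_mul, Polynomial.map_mul,
      Polynomial.map_mul, Polynomial.map_C, Polynomial.map_C, Polynomial.map_C,
      ← Polynomial.derivative_map]
    show C (φ c₄) * a₂.map (algebraMap A K) * P.map (algebraMap A K) +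
      C (φ c₃) * b₂.map (algebraMap A K) * derivative (P.map (algebraMap A K)) = C (φ (c * c₃ * c₄))
    rw [hP, ha₂, hb₂, derivative_C_mul, φ.map_mul, φ.map_mul, C_mul, C_mul]
    show C (φ c₄) * (C (φ c₃) * a) * (C (φ c) * r) +
      C (φ c₃) * (C (φ c₄) * b) * (C (φ c) * derivative r) = C (φ c) * C (φ c₃) * C (φ c₄)
    linear_combination (C (φ c) * C (φ c₃) * C (φ c₄)) * hab

end

end Pool.Agent.L5helper22
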