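import Mathlib
import Pool.Agent.Lev.J_schottky

/-! Functions omitting two values near infinity of a half plane, periodic: the big Picard theorem
in the form used below, from the Schottky theorem of the starting library. -/

set_option autoImplicit false

open Topology Set Metric Function Filter

namespace Pool.Agent.L5helper22

open Function.Periodic

theorem mero_of_bdd {g : ℂ → ℂ} (hd : ∀ᶠ q in 𝓝[≠] (0 : ℂ), DifferentiableAt ℂ g q)
    {C : ℝ} (hb : ∀ᶠ q in 𝓝[≠] (0 : ℂ), ‖g q‖ ≤ C) : MeromorphicAt g 0 := by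
  obtain ⟨s, hs, hs'⟩ := Filter.eventually_iff_exists_mem.mp (hd.and hb)
  obtain ⟨t, ht, hts⟩ := mem_nhdsWithin_iff_exists_mem_nhds_inter.mp hs
  have h1 : DifferentiableOn ℂ g (t \ {0}) := fun q hq =>
    (hs' q (hts ⟨hq.1, hq.2⟩)).1.differentiableWithinAt
  have h2 : BddAbove (norm ∘ g '' (t \ {0})) := by
    refine ⟨C, ?_⟩
    rintro _ ⟨q, hq, rfl⟩
    exact (hs' q (hts ⟨hq.1, hq.2⟩)).2
  have h3 := Complex.differentiableOn_update_limUnder_of_bddAbove ht h1 h2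
  have h4 : AnalyticAt ℂ (update g 0 (limUnder (𝓝[≠] 0) g)) 0 := h3.analyticAt ht
  refine h4.meromorphicAt.congr ?_
  filter_upwards [self_mem_nhdsWithin] with q hq
  exact update_of_ne hq _ _

section

variable {F : ℂ → ℂ} {L h : ℝ}

theorem cusp_bound (hL : 0 < L) (hper : Function.Periodic F L)
    (hd : ∀ ζ : ℂ, h < ζ.im → DifferentiableAt ℂ F ζ)
    (h01 : ∀ ζ : ℂ, h < ζ.im → F ζ ≠ 0 ∧ F ζ ≠ 1) (M : ℝ) :
    ∃ C : ℝ, ∀ q₁ : ℂ, q₁ ≠ 0 → ‖q₁‖ < Real.exp (-2 * Real.pi * (h + 2 * L) / L) →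
      ‖cuspFunction L F q₁‖ ≤ M → ∀ q : ℂ, ‖q‖ = ‖q₁‖ → ‖cuspFunction L F q‖ ≤ C := by
  obtain ⟨C, hC⟩ := Lev.J_schottky.main M
  refine ⟨C, fun q₁ hq₁ hlt hM q hq => ?_⟩
  have hLne : L ≠ 0 := hL.ne'
  have hqne : q ≠ 0 := by
    intro h0
    rw [h0, norm_zero] at hq
    exact hq₁ (norm_eq_zero.mp hq.symm)
  obtain ⟨ζ₁, hζ₁⟩ : ∃ ζ, ζ = invQParam L q₁ := ⟨_, rfl⟩
  obtain ⟨ζ₂, hζ₂⟩ : ∃ ζ, ζ = invQParam L q := ⟨_, rfl⟩
  have hQ₁ : qParam L ζ₁ = q₁ := by rw [hζ₁]; exact qParam_right_inv hLne hq₁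
  have him : ζ₂.im = ζ₁.im := by rw [hζ₁, hζ₂, im_invQParam, im_invQParam, hq]
  have h1 : h + 2 * L < ζ₁.im := by
    rw [← norm_qParam_lt_iff hL, hQ₁]; exact hlt
  obtain ⟨n, hn⟩ : ∃ n : ℤ, n = ⌊(ζ₂.re - ζ₁.re) / L⌋ := ⟨_, rfl⟩
  have hn1 : (n : ℝ) * L ≤ ζ₂.re - ζ₁.re := by
    rw [← le_div_iff₀ hL, hn]; exact Int.floor_le _
  have hn2 : ζ₂.re - ζ₁.re < ((n : ℝ) + 1) * L := by
    rw [← div_lt_iff₀ hL, hn]; exact Int.lt_floor_add_one _
  have hball : ∀ z ∈ ball ζ₁ (2 * L), h < z.im := by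
    intro z hz
    rw [mem_ball, dist_eq_norm] at hz
    have h2 := Complex.abs_im_le_norm (z - ζ₁)
    rw [Complex.sub_im] at h2
    have h3 := (abs_le.mp (h2.trans hz.le)).1
    linarith
  have hF : ‖F (ζ₂ - n * L)‖ ≤ C := by
    refine hC F ζ₁ (2 * L) (by positivity) (fun z hz =>
      (hd z (hball z hz)).differentiableWithinAt) (fun z hz => h01 z (hball z hz)) ?_ _ ?_
    · rw [hζ₁, ← cuspFunction_eq_of_nonzero L F hq₁]; exact hM
    · rw [mul_div_cancel_left₀ _ (two_ne_zero), mem_ball, dist_eq_norm]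
      have h4 : (ζ₂ - n * L - ζ₁).im = 0 := by
        simp [him]
      have h5 : (ζ₂ - n * L - ζ₁).re = ζ₂.re - n * L - ζ₁.re := by simp
      have h6 : ζ₂ - n * L - ζ₁ = ((ζ₂.re - n * L - ζ₁.re : ℝ) : ℂ) := by
        apply Complex.ext
        · rw [h5, Complex.ofReal_re]
        · rw [h4, Complex.ofReal_im]
      rw [h6, Complex.norm_real, Real.norm_eq_abs, abs_lt]
      constructor <;> linarith
  rw [cuspFunction_eq_of_nonzero L F hqne, ← hζ₂, ← hper.sub_int_mul_eq n]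
  exact hF

theorem cusp_diff (hL : 0 < L) (hper : Function.Periodic F L)
    (hd : ∀ ζ : ℂ, h < ζ.im → DifferentiableAt ℂ F ζ) {q : ℂ} (hq : q ≠ 0)
    (hlt : ‖q‖ < Real.exp (-2 * Real.pi * h / L)) : DifferentiableAt ℂ (cuspFunction L F) q := by
  have h1 : qParam L (invQParam L q) = q := qParam_right_inv hL.ne' hq
  have h2 : h < (invQParam L q).im := by
    rw [← norm_qParam_lt_iff hL, h1]; exact hlt
  rw [← h1]
  exact differentiableAt_cuspFunction hL.ne' hper (hd _ h2)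

theorem punct (r : ℝ) (hr : 0 < r) : ∀ᶠ q in 𝓝[≠] (0 : ℂ), q ≠ 0 ∧ ‖q‖ < r := by
  filter_upwards [self_mem_nhdsWithin, mem_nhdsWithin_of_mem_nhds (ball_mem_nhds (0 : ℂ) hr)]
    with q h1 h2
  exact ⟨h1, by simpa using h2⟩

theorem big_picard (hL : 0 < L) (hper : Function.Periodic F L)
    (hd : ∀ ζ : ℂ, h < ζ.im → DifferentiableAt ℂ F ζ)
    (h01 : ∀ ζ : ℂ, h < ζ.im → F ζ ≠ 0 ∧ F ζ ≠ 1) : MeromorphicAt (cuspFunction L F) 0 := by
  have hdiff : ∀ᶠ q in 𝓝[≠] (0 : ℂ), DifferentiableAt ℂ (cuspFunction L F) q := by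
    filter_upwards [punct _ (Real.exp_pos (-2 * Real.pi * h / L))] with q hq
    exact cusp_diff hL hper hd hq.1 hq.2
  by_cases hcase : Tendsto (fun q => ‖cuspFunction L F q‖) (𝓝[≠] 0) atTop
  · -- the inverse is bounded
    have hne : ∀ᶠ q in 𝓝[≠] (0 : ℂ), cuspFunction L F q ≠ 0 := by
      filter_upwards [hcase.eventually_gt_atTop 0] with q hq
      exact norm_pos_iff.mp hq
    have h1 : MeromorphicAt (fun q => (cuspFunction L F q)⁻¹) 0 := by
      refine mero_of_bdd (C := 1) ?_ ?_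
      · filter_upwards [hdiff, hne] with q h1 h2
        exact h1.inv h2
      · filter_upwards [hcase.eventually_ge_atTop 1] with q hq
        rw [norm_inv]
        exact inv_le_one_of_one_le₀ hq
    have h2 := h1.inv
    refine h2.congr ?_
    filter_upwards [] with q
    simp
  · -- bounded on a sequence of circles
    obtain ⟨M, hM⟩ : ∃ M : ℝ, ∃ᶠ q in 𝓝[≠] (0 : ℂ), ‖cuspFunction L F q‖ ≤ M := by
      rw [Filter.tendsto_atTop] at hcase
      push Not at hcase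
      obtain ⟨M, hM⟩ := hcase
      exact ⟨M, hM.mono (fun q hq => hq.le)⟩
    obtain ⟨C, hC⟩ := cusp_bound hL hper hd h01 M
    have hex : ∀ r : ℝ, 0 < r → ∃ q₁ : ℂ, q₁ ≠ 0 ∧ ‖q₁‖ < r ∧ ‖cuspFunction L F q₁‖ ≤ M := by
      intro r hr
      obtain ⟨q, h1, h2⟩ := (hM.and_eventually (punct r hr)).exists
      exact ⟨q, h2.1, h2.2, h1⟩
    obtain ⟨r₁, hr₁⟩ : ∃ r, r = Real.exp (-2 * Real.pi * (h + 2 * L) / L) := ⟨_, rfl⟩
    have hr₁pos : 0 < r₁ := by rw [hr₁]; exact Real.exp_pos _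
    have hr₁lt : r₁ < Real.exp (-2 * Real.pi * h / L) := by
      rw [hr₁, Real.exp_lt_exp, div_lt_div_iff_of_pos_right hL]
      have := Real.pi_pos
      nlinarith
    obtain ⟨q₁, hq₁, hq₁r, hq₁M⟩ := hex r₁ hr₁pos
    refine mero_of_bdd (C := C) hdiff ?_
    filter_upwards [punct ‖q₁‖ (norm_pos_iff.mpr hq₁)] with q hq
    obtain ⟨q₂, hq₂, hq₂r, hq₂M⟩ := hex ‖q‖ (norm_pos_iff.mpr hq.1)
    have hq₂r₁ : ‖q₂‖ < r₁ := hq₂r.trans (hq.2.trans hq₁r)
    have hc1 := hC q₁ hq₁ (by rw [← hr₁]; exact hq₁r) hq₁M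
    have hc2 := hC q₂ hq₂ (by rw [← hr₁]; exact hq₂r₁) hq₂M
    let U : Set ℂ := {z | ‖q₂‖ < ‖z‖ ∧ ‖z‖ < ‖q₁‖}
    have hU : U = {z | ‖q₂‖ < ‖z‖} ∩ {z | ‖z‖ < ‖q₁‖} := rfl
    have hclos : closure U ⊆ {z | ‖q₂‖ ≤ ‖z‖ ∧ ‖z‖ ≤ ‖q₁‖} := by
      refine closure_minimal (fun z hz => ⟨hz.1.le, hz.2.le⟩) ?_
      exact (isClosed_le continuous_const continuous_norm).inter
        (isClosed_le continuous_norm continuous_const)
    have hUo : IsOpen U := (isOpen_lt continuous_const continuous_norm).inter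
      (isOpen_lt continuous_norm continuous_const)
    have hbd : Bornology.IsBounded U := by
      refine (Metric.isBounded_ball (x := (0 : ℂ)) (r := ‖q₁‖)).subset ?_
      intro z hz
      rw [mem_ball_zero_iff]; exact hz.2
    have hcd : DiffContOnCl ℂ (cuspFunction L F) U := by
      refine DifferentiableOn.diffContOnCl (fun z hz => ?_)
      have h1 := hclos hz
      have hz0 : z ≠ 0 := by
        intro h0
        rw [h0, mem_ofPred_eq, norm_zero] at h1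
        exact absurd h1.1 (not_le.mpr (norm_pos_iff.mpr hq₂))
      exact (cusp_diff hL hper hd hz0
        (lt_of_le_of_lt h1.2 (hq₁r.trans hr₁lt))).differentiableWithinAt
    refine Complex.norm_le_of_forall_mem_frontier_norm_le hbd hcd (fun z hz => ?_)
      (subset_closure ⟨hq₂r, hq.2⟩)
    have h1 := hclos (frontier_subset_closure hz)
    have h2 : z ∉ U := by
      rw [hUo.frontier_eq] at hz
      exact hz.2
    rcases h1.1.eq_or_lt with h3 | h3
    · exact hc2 z h3.symm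
    · rcases h1.2.eq_or_lt with h4 | h4
      · exact hc1 z h4
      · exact absurd ⟨h3, h4⟩ h2

end

end Pool.Agent.L5helper22
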