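import Mathlib
import Pool.Agent.Y193.FG.Sub

/-! Submanifolds given by submersions. -/

set_option autoImplicit false

open Topology Set Filter Metric

namespace Pool.Agent.L5helper22

section

variable {E F : Type*} [NormedAddCommGroup E] [NormedSpace ℂ E] [NormedAddCommGroup F]
    [NormedSpace ℂ F] {f : E → F} {c : E} {U : Set E}

/-- the derivative of a holomorphic function is continuous; the argument is the one of a lemma
of the starting library (Pool.Agent.H.MP_eccde5_an) -/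
theorem fderiv_continuousAt (hU : IsOpen U) (hc : c ∈ U) (hd : DifferentiableOn ℂ f U) :
    ContinuousAt (fderiv ℂ f) c := by
  have d : ∀ z ∈ U, HasFDerivAt f (fderiv ℂ f z) z := fun z hz =>
    (hd.differentiableAt (hU.mem_nhds hz)).hasFDerivAt
  refine Metric.tendsto_nhds.2 fun e he => ?_
  obtain ⟨r, r0, hr⟩ := Metric.mem_nhds_iff.1 (inter_mem (hU.mem_nhds hc)
    ((d c hc).isLittleO.bound (c := e / 5) (by linarith)))
  filter_upwards [ball_mem_nhds c (half_pos r0)] with z hz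
  have sub : ball z (r / 2) ⊆ ball c r := ball_subset_ball' (by linarith [mem_ball.1 hz])
  have b : ∀ w ∈ ball c r, ‖f w - f c - fderiv ℂ f c (w - c)‖ ≤ e / 5 * r := fun w hw =>
    (hr hw).2.trans (by gcongr; exact (mem_ball_iff_norm.1 hw).le)
  have z0 := sub (mem_ball_self (half_pos r0))
  have := Complex.norm_fderiv_le_div_of_mapsTo_ball (f := fun w => f w - fderiv ℂ f c w) (c := z)
    (R₂ := e / 5 * r + e / 5 * r) ((hd.mono fun w hw => (hr (sub hw)).1).sub
      (fderiv ℂ f c).differentiableOn) (fun w hw => by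
      rw [mem_closedBall_iff_norm]
      refine le_of_eq_of_le ?_ (norm_sub_le_of_le (b w (sub hw)) (b z z0))
      simp only [map_sub]
      congr 1
      abel) (half_pos r0)
  rw [((d z (hr z0).1).fun_sub (fderiv ℂ f c).hasFDerivAt).fderiv] at this
  rw [dist_eq_norm]
  refine this.trans_lt ?_
  rw [div_lt_iff₀ (half_pos r0)]
  nlinarith [mul_pos he r0]

theorem contDiffAt_one (hU : IsOpen U) (hc : c ∈ U) (hd : DifferentiableOn ℂ f U) :
    ContDiffAt ℂ 1 f c := by
  rw [contDiffAt_one_iff]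
  exact ⟨fderiv ℂ f, U, hU.mem_nhds hc,
    fun z hz => (fderiv_continuousAt hU hz hd).continuousWithinAt,
    fun z hz => (hd.differentiableAt (hU.mem_nhds hz)).hasFDerivAt⟩

end

/-- the smoothness condition of the problem -/
def IsSmooth {m : ℕ} (Y : Set (Fin m → ℂ)) : Prop :=
  ∀ p ∈ Y, ∃ U : Set (Fin m → ℂ), IsOpen U ∧ p ∈ U ∧
    ∃ (k : ℕ) (F : (Fin m → ℂ) → (Fin k → ℂ)), DifferentiableOn ℂ F U ∧
      (∀ x ∈ U, Function.Surjective ⇑(fderiv ℂ F x)) ∧ Y ∩ U = U ∩ F ⁻¹' {0}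

theorem isSubm_of_isSmooth {m : ℕ} {Y : Set (Fin m → ℂ)} (h : IsSmooth Y) :
    Y193.FG.IsSubm Y := by
  intro p hp
  obtain ⟨U, hU, hpU, k, F, hF, hsurj, hYU⟩ := h p hp
  let L : (Fin m → ℂ) →L[ℂ] (Fin k → ℂ) := fderiv ℂ F p
  have hL : L.range = ⊤ := LinearMap.range_eq_top.mpr (hsurj p hpU)
  obtain ⟨pr, hpr⟩ := L.ker_closedComplemented_of_finiteDimensional_range
  have hprs : pr.range = ⊤ := LinearMap.range_eq_top.mpr (fun x => ⟨x, hpr x⟩)
  have hcompl : IsCompl L.ker pr.ker := LinearMap.isCompl_of_proj hpr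
  let e' : (Fin m → ℂ) ≃L[ℂ] (Fin k → ℂ) × L.ker :=
    ContinuousLinearMap.equivProdOfSurjectiveOfIsCompl L pr hL hprs hcompl
  let Φ : (Fin m → ℂ) → (Fin k → ℂ) × L.ker := fun x => (F x, pr x)
  have hΦd : DifferentiableOn ℂ Φ U := hF.prodMk pr.differentiable.differentiableOn
  have hΦ : ContDiffAt ℂ 1 Φ p := contDiffAt_one hU hpU hΦd
  have hΦ' : HasFDerivAt Φ (e' : (Fin m → ℂ) →L[ℂ] (Fin k → ℂ) × L.ker) p := by
    have h1 : HasFDerivAt Φ (L.prod pr) p :=
      ((hF.differentiableAt (hU.mem_nhds hpU)).hasFDerivAt).prodMk pr.hasFDerivAt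
    have h2 : (e' : (Fin m → ℂ) →L[ℂ] (Fin k → ℂ) × L.ker) = L.prod pr := by
      ext x <;> rfl
    rw [h2]; exact h1
  let e := hΦ.toOpenPartialHomeomorph Φ hΦ' one_ne_zero
  have hcoe : (e : (Fin m → ℂ) → (Fin k → ℂ) × L.ker) = Φ :=
    hΦ.toOpenPartialHomeomorph_coe hΦ' one_ne_zero
  have hpe : p ∈ e.source := hΦ.mem_toOpenPartialHomeomorph_source hΦ' one_ne_zero
  have hinv : ContDiffAt ℂ 1 e.symm (Φ p) := by
    have h1 : e.symm (Φ p) = p := by rw [← hcoe]; exact e.left_inv hpe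
    refine e.contDiffAt_symm (f₀' := e') ?_ ?_ ?_
    · rw [← hcoe]; exact e.map_source hpe
    · rw [h1, hcoe]; exact hΦ'
    · rw [h1, hcoe]; exact hΦ
  have hinv' : ∀ᶠ z in 𝓝 (Φ p), DifferentiableAt ℂ e.symm z := by
    have h1 := hinv.eventually (by decide)
    exact h1.mono (fun z hz => hz.differentiableAt one_ne_zero)
  obtain ⟨W, hW, hWo, hΦW⟩ := _root_.eventually_nhds_iff.mp hinv'
  let O : Set (Fin m → ℂ) := (e.source ∩ e ⁻¹' W) ∩ U
  have hO : IsOpen O := (e.isOpen_inter_preimage hWo).inter hU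
  have hOs : O ⊆ e.source := fun x hx => hx.1.1
  have hV' : IsOpen (e '' O) := e.isOpen_image_of_subset_source hO hOs
  refine ⟨L.ker, inferInstance, inferInstance, {v | ((0 : Fin k → ℂ), v) ∈ e '' O}, O,
    fun v => e.symm (0, v), fun x => pr x, ?_, hO, ⟨⟨hpe, by
      show e p ∈ W
      rw [hcoe]; exact hΦW⟩, hpU⟩, ?_, pr.differentiable.differentiableOn, ?_, ?_⟩
  · exact hV'.preimage (Continuous.prodMk_right 0)
  · intro v hv
    obtain ⟨x, hx, hxv⟩ := hv
    have h1 : ((0 : Fin k → ℂ), v) ∈ W := by rw [← hxv]; exact hx.1.2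
    have h2 : DifferentiableAt ℂ (fun v : L.ker => ((0 : Fin k → ℂ), v)) v :=
      (differentiableAt_const _).prodMk differentiableAt_id
    exact (DifferentiableAt.comp v (hW _ h1) h2).differentiableWithinAt
  · ext x
    constructor
    · rintro ⟨v, ⟨x', hx', hxv⟩, rfl⟩
      have h1 : e.symm (0, v) = x' := by rw [← hxv]; exact e.left_inv (hOs hx')
      simp only [h1]
      refine ⟨?_, hx'⟩
      have h2 : x' ∈ U ∩ F ⁻¹' {0} := by
        refine ⟨hx'.2, ?_⟩
        rw [hcoe] at hxv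
        exact congrArg Prod.fst hxv
      rw [← hYU] at h2
      exact h2.1
    · rintro ⟨hxY, hxO⟩
      have h2 : x ∈ U ∩ F ⁻¹' {0} := by rw [← hYU]; exact ⟨hxY, hxO.2⟩
      have h3 : e x = (0, pr x) := by
        rw [hcoe]
        exact Prod.ext h2.2 rfl
      refine ⟨pr x, ⟨x, hxO, h3⟩, ?_⟩
      show e.symm (0, pr x) = x
      rw [← h3]
      exact e.left_inv (hOs hxO)
  · rintro v ⟨x, hx, hxv⟩
    have h1 : e.symm (0, v) = x := by rw [← hxv]; exact e.left_inv (hOs hx)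
    simp only [h1]
    rw [hcoe] at hxv
    exact congrArg Prod.snd hxv

end Pool.Agent.L5helper22
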