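import Mathlib

/-! Continuous logarithms. -/

set_option autoImplicit false

open Topology Set unitInterval

namespace Pool.Agent.L5helper22

section

variable {T A : Type*} [TopologicalSpace T] [TopologicalSpace A]

/-- `φ` has a continuous logarithm on `S` -/
def LogOn (φ : T → ℂ) (S : Set T) : Prop :=
  ∃ F : T → ℂ, ContinuousOn F S ∧ ∀ x ∈ S, Complex.exp (F x) = φ x

theorem LogOn.mono {φ : T → ℂ} {S S' : Set T} (h : LogOn φ S) (hS : S' ⊆ S) : LogOn φ S' := by
  obtain ⟨F, hF, hF'⟩ := h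
  exact ⟨F, hF.mono hS, fun x hx => hF' x (hS hx)⟩

theorem LogOn.comp {φ : T → ℂ} {S : Set T} (h : LogOn φ S) {f : A → T} {S' : Set A}
    (hf : ContinuousOn f S') (hm : MapsTo f S' S) : LogOn (fun x => φ (f x)) S' := by
  obtain ⟨F, hF, hF'⟩ := h
  exact ⟨fun x => F (f x), hF.comp hf hm, fun x hx => hF' _ (hm hx)⟩

theorem LogOn.congr {φ ψ : T → ℂ} {S : Set T} (h : LogOn φ S) (h' : ∀ x ∈ S, ψ x = φ x) :
    LogOn ψ S := by
  obtain ⟨F, hF, hF'⟩ := h
  exact ⟨F, hF, fun x hx => by rw [hF' x hx, h' x hx]⟩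

/-- a monomial in the functions `φ i` -/
noncomputable def mon {ι : Type*} [Fintype ι] (φ : ι → T → ℂ) (a : ι → ℤ) : T → ℂ :=
  fun x => ∏ i, φ i x ^ a i

/-- logarithms of a monomial -/
theorem exp_sum_mul {ι : Type*} [Fintype ι] (F : ι → ℂ) (a : ι → ℤ) :
    Complex.exp (∑ i, (a i : ℂ) * F i) = ∏ i, Complex.exp (F i) ^ a i := by
  rw [Complex.exp_sum]
  refine Finset.prod_congr rfl (fun i _ => ?_)
  rw [Complex.exp_int_mul]

theorem LogOn.mon {ι : Type*} [Fintype ι] {φ : ι → T → ℂ} {S : Set T} (h : ∀ i, LogOn (φ i) S)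
    (a : ι → ℤ) : LogOn (mon φ a) S := by
  choose F hF hF' using h
  refine ⟨fun x => ∑ i, (a i : ℂ) * F i x, ?_, fun x hx => ?_⟩
  · exact continuousOn_finsetSum _ (fun i _ => continuousOn_const.mul (hF i))
  · rw [exp_sum_mul, Pool.Agent.L5helper22.mon]
    refine Finset.prod_congr rfl (fun i _ => ?_)
    rw [hF' i x hx]

omit [TopologicalSpace T] in
theorem mon_ne_zero {ι : Type*} [Fintype ι] {φ : ι → T → ℂ} (h : ∀ i x, φ i x ≠ 0)
    (a : ι → ℤ) (x : T) : mon φ a x ≠ 0 :=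
  Finset.prod_ne_zero_iff.mpr (fun i _ => zpow_ne_zero _ (h i x))

theorem mon_continuous {ι : Type*} [Fintype ι] {φ : ι → T → ℂ} (hc : ∀ i, Continuous (φ i))
    (h : ∀ i x, φ i x ≠ 0) (a : ι → ℤ) : Continuous (mon φ a) :=
  continuous_finsetProd _ (fun i _ => (hc i).zpow₀ _ (fun x => Or.inl (h i x)))

/-- two logarithms of the same function on a preconnected set differ by a constant -/
theorem log_const {F G : T → ℂ} {S : Set T} (hS : IsPreconnected S) (hF : ContinuousOn F S)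
    (hG : ContinuousOn G S) (h : ∀ x ∈ S, Complex.exp (F x) = Complex.exp (G x)) {x y : T}
    (hx : x ∈ S) (hy : y ∈ S) : F x - G x = F y - G y := by
  have hd : ∀ z ∈ S, ∃ n : ℤ, F z = G z + n * (2 * Real.pi * Complex.I) := fun z hz =>
    Complex.exp_eq_exp_iff_exists_int.mp (h z hz)
  -- the discrete set of the periods
  have hcont : ContinuousOn (fun z => (F z - G z) / (2 * Real.pi * Complex.I)) S :=
    (hF.sub hG).div_const _
  have h2 : (2 * Real.pi * Complex.I : ℂ) ≠ 0 := Complex.two_pi_I_ne_zero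
  have hre : ContinuousOn (fun z => ((F z - G z) / (2 * Real.pi * Complex.I)).re) S :=
    Complex.continuous_re.comp_continuousOn hcont
  have hint : MapsTo (fun z => ((F z - G z) / (2 * Real.pi * Complex.I)).re) S
      (Set.range ((↑) : ℤ → ℝ)) := by
    intro z hz
    obtain ⟨n, hn⟩ := hd z hz
    refine ⟨n, ?_⟩
    simp only
    rw [hn, add_sub_cancel_left, mul_div_assoc, div_self h2, mul_one, Complex.intCast_re]
  have hdisc : IsDiscrete (Set.range ((↑) : ℤ → ℝ)) :=
    Int.isClosedEmbedding_coe_real.isInducing.isDiscrete_range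
  have hc := hS.constant_of_mapsTo hdisc hre hint hx hy
  obtain ⟨n, hn⟩ := hd x hx
  obtain ⟨m, hm⟩ := hd y hy
  have e : ∀ (n : ℤ) (g : ℂ),
      ((g + n * (2 * Real.pi * Complex.I) - g) / (2 * Real.pi * Complex.I)).re = n := by
    intro n g
    rw [add_sub_cancel_left, mul_div_assoc, div_self h2, mul_one, Complex.intCast_re]
  rw [hn, hm, e, e] at hc
  have hnm : n = m := by exact_mod_cast hc
  rw [hn, hm, hnm]
  ring

/-- a local logarithm -/
theorem local_log {φ : T → ℂ} (hφ : Continuous φ) {x : T} (hx : φ x ≠ 0) :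
    ∃ (O : Set T) (G : T → ℂ), IsOpen O ∧ x ∈ O ∧ ContinuousOn G O ∧
      ∀ y ∈ O, Complex.exp (G y) = φ y := by
  refine ⟨{y | φ y / φ x ∈ Complex.slitPlane}, fun y => Complex.log (φ y / φ x) +
    Complex.log (φ x), ?_, ?_, ?_, ?_⟩
  · exact Complex.isOpen_slitPlane.preimage (hφ.div_const _)
  · simp [div_self hx]
  · refine ContinuousOn.add (fun y hy => ?_) continuousOn_const
    exact ((hφ.div_const (φ x)).continuousAt.clog hy).continuousWithinAt
  · intro y hy
    have h1 : φ y / φ x ≠ 0 := Complex.slitPlane_ne_zero hy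
    rw [Complex.exp_add, Complex.exp_log h1, Complex.exp_log hx, div_mul_cancel₀ _ hx]

/-- `U` is open and dense and locally connected from inside -/
def Thin (U : Set T) : Prop :=
  ∀ x, ∀ O ∈ 𝓝 x, ∃ B ∈ 𝓝 x, B ⊆ O ∧ IsPreconnected (B ∩ U) ∧ (B ∩ U).Nonempty

theorem Thin.dense {U : Set T} (h : Thin U) : Dense U := by
  intro x
  rw [mem_closure_iff_nhds]
  intro O hO
  obtain ⟨B, hB, hBO, -, ⟨y, hy⟩⟩ := h x O hO
  exact ⟨y, hBO hy.1, hy.2⟩

theorem LogOn.extend {φ : T → ℂ} (hφ : Continuous φ) (hne : ∀ x, φ x ≠ 0) {U : Set T}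
    (hU : Thin U) (h : LogOn φ U) : LogOn φ univ := by
  obtain ⟨F, hF, hF'⟩ := h
  have key : ∀ x, ∃ y, Filter.Tendsto F (𝓝[U] x) (𝓝 y) := by
    intro x
    obtain ⟨O, G, hO, hxO, hG, hG'⟩ := local_log hφ (hne x)
    obtain ⟨B, hB, hBO, hBc, ⟨z, hz⟩⟩ := hU x O (hO.mem_nhds hxO)
    refine ⟨G x + (F z - G z), ?_⟩
    have h1 : ∀ y ∈ B ∩ U, F y = G y + (F z - G z) := by
      intro y hy
      have := log_const hBc (hF.mono inter_subset_right)
        (hG.mono (inter_subset_left.trans hBO))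
        (fun w hw => by rw [hF' w hw.2, hG' w (hBO hw.1)]) hy hz
      rw [← this]; ring
    have h2 : ∀ᶠ y in 𝓝[U] x, G y + (F z - G z) = F y := by
      filter_upwards [mem_nhdsWithin_of_mem_nhds hB, self_mem_nhdsWithin] with y hy1 hy2
      exact (h1 y ⟨hy1, hy2⟩).symm
    refine Filter.Tendsto.congr' h2 ?_
    have h3 : ContinuousAt G x := hG.continuousAt (hO.mem_nhds hxO)
    exact (h3.tendsto.mono_left nhdsWithin_le_nhds).add_const _
  refine ⟨extendFrom U F, (continuous_extendFrom hU.dense key).continuousOn, fun x _ => ?_⟩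
  obtain ⟨y, hy⟩ := key x
  rw [extendFrom_eq (hU.dense x) hy]
  have : (𝓝[U] x).NeBot := mem_closure_iff_nhdsWithin_neBot.mp (hU.dense x)
  have h1 : Filter.Tendsto (fun z => Complex.exp (F z)) (𝓝[U] x) (𝓝 (Complex.exp y)) :=
    (Complex.continuous_exp.tendsto y).comp hy
  have h2 : Filter.Tendsto (fun z => Complex.exp (F z)) (𝓝[U] x) (𝓝 (φ x)) := by
    refine Filter.Tendsto.congr' ?_ (hφ.continuousAt.tendsto.mono_left nhdsWithin_le_nhds)
    filter_upwards [self_mem_nhdsWithin] with z hz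
    exact (hF' z hz).symm
  exact tendsto_nhds_unique h1 h2

theorem continuousOn_of_local {S : Set T} {L : T → ℂ}
    (h : ∀ x ∈ S, ∃ (V : Set T) (L' : T → ℂ), IsOpen V ∧ x ∈ V ∧ ContinuousOn L' (V ∩ S) ∧
      ∀ y ∈ V ∩ S, L y = L' y) : ContinuousOn L S := by
  intro x hx
  obtain ⟨V, L', hV, hxV, hL', he⟩ := h x hx
  have h1 : ContinuousWithinAt L (V ∩ S) x := (hL' x ⟨hxV, hx⟩).congr he (he x ⟨hxV, hx⟩)
  have h2 : ContinuousWithinAt L (S ∩ V) x := by rwa [inter_comm] at h1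
  exact (continuousWithinAt_inter (hV.mem_nhds hxV)).mp h2

theorem LogOn.glue {φ : T → ℂ} {A B : Set T} (hA : IsOpen A) (hB : IsOpen B) {F G : T → ℂ}
    (hF : ContinuousOn F A) (hG : ContinuousOn G B) (hF' : ∀ x ∈ A, Complex.exp (F x) = φ x)
    (hG' : ∀ x ∈ B, Complex.exp (G x) = φ x) (h : ∀ x ∈ A ∩ B, F x = G x) :
    LogOn φ (A ∪ B) := by
  classical
  refine ⟨fun x => if x ∈ A then F x else G x, continuousOn_of_local ?_, ?_⟩
  · rintro x (hx | hx)
    · refine ⟨A, F, hA, hx, hF.mono inter_subset_left, fun y hy => ?_⟩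
      simp [hy.1]
    · refine ⟨B, G, hB, hx, hG.mono inter_subset_left, fun y hy => ?_⟩
      by_cases hyA : y ∈ A
      · simp only [hyA, if_true]
        exact h y ⟨hyA, hy.1⟩
      · simp [hyA]
  · rintro x (hx | hx)
    · simp [hx, hF' x hx]
    · by_cases hxA : x ∈ A
      · simp [hxA, hF' x hxA]
      · simp [hxA, hG' x hx]

/-- among `N` functions with the property `P` there is a nontrivial monomial with the
property `Q` -/
def Bdd (P Q : (T → ℂ) → Prop) (N : ℕ) : Prop :=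
  ∀ φ : Fin N → T → ℂ, (∀ i, P (φ i)) → ∃ a : Fin N → ℤ, a ≠ 0 ∧ Q (mon φ a)

omit [TopologicalSpace T] in
theorem Bdd.trans {P Q R : (T → ℂ) → Prop} {M N : ℕ} (h1 : Bdd P Q N) (h2 : Bdd Q R M) :
    Bdd P R (M * N) := by
  intro φ hφ
  have h3 : ∀ j : Fin M, ∃ a : Fin N → ℤ, a ≠ 0 ∧
      Q (mon (fun i => φ (finProdFinEquiv (j, i))) a) := fun j => h1 _ (fun i => hφ _)
  choose a ha hQ using h3
  obtain ⟨c, hc, hR⟩ := h2 _ hQ
  refine ⟨fun k => c (finProdFinEquiv.symm k).1 *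
    a (finProdFinEquiv.symm k).1 (finProdFinEquiv.symm k).2, ?_, ?_⟩
  · obtain ⟨j, hj⟩ := Function.ne_iff.mp hc
    obtain ⟨i, hi⟩ := Function.ne_iff.mp (ha j)
    intro h0
    have := congrFun h0 (finProdFinEquiv (j, i))
    simp only [Equiv.symm_apply_apply, Pi.zero_apply, mul_eq_zero] at this
    rcases this with h | h
    · exact hj h
    · exact hi h
  · convert hR using 1
    funext x
    simp only [mon]
    rw [← Equiv.prod_comp finProdFinEquiv, Fintype.prod_prod_type]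
    refine Finset.prod_congr rfl (fun j _ => ?_)
    rw [← Finset.prod_zpow]
    refine Finset.prod_congr rfl (fun i _ => ?_)
    simp only [Equiv.symm_apply_apply]
    rw [mul_comm (c j), zpow_mul]

omit [TopologicalSpace T] in
theorem Bdd.mono {P Q : (T → ℂ) → Prop} {M N : ℕ} (h : Bdd P Q N) (hMN : N ≤ M) :
    Bdd P Q M := by
  intro φ hφ
  obtain ⟨a, ha, hQ⟩ := h (fun i => φ (Fin.castLE hMN i)) (fun i => hφ _)
  refine ⟨fun k => if hk : k.1 < N then a ⟨k.1, hk⟩ else 0, ?_, ?_⟩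
  · obtain ⟨i, hi⟩ := Function.ne_iff.mp ha
    intro h0
    have := congrFun h0 (Fin.castLE hMN i)
    simp at this
    exact hi this
  · convert hQ using 1
    funext x
    simp only [mon]
    symm
    refine Finset.prod_of_injOn (Fin.castLE hMN) ?_ ?_ ?_ ?_
    · intro i _ j _ hij
      exact Fin.castLE_injective hMN hij
    · intro i _
      exact Finset.mem_coe.mpr (Finset.mem_univ _)
    · intro k _ hk
      have : ¬ k.1 < N := by
        intro hkN
        exact hk ⟨⟨k.1, hkN⟩, Finset.mem_coe.mpr (Finset.mem_univ _), Fin.ext rfl⟩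
      simp [this]
    · intro i _
      simp

/-- continuous functions without zeros -/
def Nz (φ : T → ℂ) : Prop := Continuous φ ∧ ∀ x, φ x ≠ 0

/-- the rank of the group of continuous functions without zeros modulo exponentials is less
than `N` -/
def LogDep (T : Type*) [TopologicalSpace T] (N : ℕ) : Prop :=
  Bdd (fun φ : T → ℂ => Nz φ) (fun φ => LogOn φ univ) N

theorem Nz.mon {ι : Type*} [Fintype ι] {φ : ι → T → ℂ} (h : ∀ i, Nz (φ i)) (a : ι → ℤ) :
    Nz (mon φ a) :=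
  ⟨mon_continuous (fun i => (h i).1) (fun i => (h i).2) a, mon_ne_zero (fun i => (h i).2) a⟩

/-- pull back -/
theorem LogDep.of_pullback {N : ℕ} (h : LogDep A N) {f : A → T} (hf : Continuous f)
    (h' : ∀ φ : T → ℂ, Nz φ → LogOn (fun x => φ (f x)) univ → LogOn φ univ) :
    LogDep T N := by
  intro φ hφ
  obtain ⟨a, ha, hlog⟩ := h (fun i x => φ i (f x)) (fun i => ⟨(hφ i).1.comp hf,
    fun x => (hφ i).2 _⟩)
  exact ⟨a, ha, h' _ (Nz.mon hφ a) hlog⟩

end

end Pool.Agent.L5helper22
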