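import Mathlib
import Pool.Agent.L5helper22.Log

/-! Logarithms on covering spaces. -/

set_option autoImplicit false

open Topology Set unitInterval

namespace Pool.Agent.L5helper22

section

variable {E B : Type*} [TopologicalSpace E] [TopologicalSpace B] {p : E → B}

/-- the covering homotopy, relative to `S` -/
theorem cov_homotopy (hp : IsCoveringMap p) (K : C(I × B, B)) (hK0 : ∀ b, K (0, b) = b)
    {S : Set B} (hKS : ∀ b ∈ S, ∀ t, K (t, b) = b) :
    ∃ H : C(I × E, E), (∀ e, H (0, e) = e) ∧ (∀ t e, p (H (t, e)) = K (t, p e)) ∧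
      ∀ e, p e ∈ S → ∀ t, H (t, e) = e := by
  let K' : C(I × E, B) := K.comp ((ContinuousMap.id I).prodMap ⟨p, hp.continuous⟩)
  have h0 : ∀ e, K' (0, e) = p ((ContinuousMap.id E) e) := fun e => hK0 (p e)
  refine ⟨hp.liftHomotopy K' (ContinuousMap.id E) h0, fun e => hp.liftHomotopy_zero _ _ h0 e,
    fun t e => congrFun (hp.liftHomotopy_lifts K' (ContinuousMap.id E) h0) (t, e), ?_⟩
  intro e he t
  have hc : Continuous (fun t : I => hp.liftHomotopy K' (ContinuousMap.id E) h0 (t, e)) :=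
    (ContinuousMap.continuous _).comp (by fun_prop)
  have h1 := hp.const_of_comp hc (fun t t' => by
    have h2 := congrFun (hp.liftHomotopy_lifts K' (ContinuousMap.id E) h0) (t, e)
    have h3 := congrFun (hp.liftHomotopy_lifts K' (ContinuousMap.id E) h0) (t', e)
    simp only [Function.comp_apply] at h2 h3
    rw [h2, h3]
    show K (t, p e) = K (t', p e)
    rw [hKS _ he, hKS _ he]) t 0
  rw [h1]
  exact hp.liftHomotopy_zero _ _ h0 e

/-- a logarithm on the end of a homotopy gives a logarithm -/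
theorem log_of_homotopy {φ : E → ℂ} (hφ : Nz φ) (H : C(I × E, E)) (hH0 : ∀ e, H (0, e) = e)
    {S : Set E} (hH1 : ∀ e, H (1, e) ∈ S) (hHS : ∀ e ∈ S, ∀ t, H (t, e) = e) {L : E → ℂ}
    (hL : ContinuousOn L S) (hL' : ∀ e ∈ S, Complex.exp (L e) = φ e) :
    ∃ G : E → ℂ, Continuous G ∧ (∀ e, Complex.exp (G e) = φ e) ∧ ∀ e ∈ S, G e = L e := by
  let Ψ : C(I × E, {z : ℂ // z ≠ 0}) := ⟨fun x => ⟨φ (H (σ x.1, x.2)), hφ.2 _⟩, by
    refine Continuous.subtype_mk (hφ.1.comp (H.continuous.comp ?_)) _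
    fun_prop⟩
  let F₀ : C(E, ℂ) := ⟨fun e => L (H (1, e)), by
    refine hL.comp_continuous (H.continuous.comp (by fun_prop)) hH1⟩
  have h0 : ∀ e, Ψ (0, e) = (fun z : ℂ => (⟨_, z.exp_ne_zero⟩ : {z : ℂ // z ≠ 0})) (F₀ e) := by
    intro e
    apply Subtype.ext
    show φ (H (σ 0, e)) = Complex.exp (L (H (1, e)))
    rw [hL' _ (hH1 e), symm_zero]
  let G := Complex.isCoveringMap_exp.liftHomotopy Ψ F₀ h0
  have hG : ∀ t e, Complex.exp (G (t, e)) = φ (H (σ t, e)) := by
    intro t e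
    have := congrFun (Complex.isCoveringMap_exp.liftHomotopy_lifts Ψ F₀ h0) (t, e)
    exact congrArg Subtype.val this
  have hG0 : ∀ e, G (0, e) = L (H (1, e)) := fun e =>
    Complex.isCoveringMap_exp.liftHomotopy_zero Ψ F₀ h0 e
  refine ⟨fun e => G (1, e), G.continuous.comp (by fun_prop), ?_, ?_⟩
  · intro e
    rw [hG, symm_one, hH0]
  · intro e he
    have hc : Continuous (fun t : I => G (t, e)) := G.continuous.comp (by fun_prop)
    have h1 := Complex.isCoveringMap_exp.const_of_comp hc (fun t t' => by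
      apply Subtype.ext
      show Complex.exp (G (t, e)) = Complex.exp (G (t', e))
      rw [hG, hG, hHS e he, hHS e he]) 1 0
    show G (1, e) = L e
    rw [h1, hG0, hHS e he]

/-- the two together -/
theorem log_of_cov (hp : IsCoveringMap p) (K : C(I × B, B)) (hK0 : ∀ b, K (0, b) = b)
    {S : Set B} (hK1 : ∀ b, K (1, b) ∈ S) (hKS : ∀ b ∈ S, ∀ t, K (t, b) = b)
    {φ : E → ℂ} (hφ : Nz φ) {L : E → ℂ}
    (hL : ContinuousOn L (p ⁻¹' S)) (hL' : ∀ e, p e ∈ S → Complex.exp (L e) = φ e) :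
    ∃ G : E → ℂ, Continuous G ∧ (∀ e, Complex.exp (G e) = φ e) ∧ ∀ e, p e ∈ S → G e = L e := by
  obtain ⟨H, hH0, hHp, hHS⟩ := cov_homotopy hp K hK0 hKS
  exact log_of_homotopy hφ H hH0 (fun e => by
    show p (H (1, e)) ∈ S
    rw [hHp]; exact hK1 _) (fun e he t => hHS e he t) hL hL'

/-- a covering of a contractible space -/
theorem log_of_contractible (hp : IsCoveringMap p) [ContractibleSpace B] {φ : E → ℂ}
    (hφ : Nz φ) : LogOn φ univ := by
  obtain ⟨b₀, ⟨K⟩⟩ := (id_nullhomotopic B)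
  -- a homotopy from the identity to a constant; lift it
  let K' : C(I × E, B) := K.toContinuousMap.comp
    ((ContinuousMap.id I).prodMap ⟨p, hp.continuous⟩)
  have h0 : ∀ e, K' (0, e) = p ((ContinuousMap.id E) e) := fun e => K.apply_zero (p e)
  let H := hp.liftHomotopy K' (ContinuousMap.id E) h0
  have hH0 : ∀ e, H (0, e) = e := fun e => hp.liftHomotopy_zero _ _ h0 e
  have hHp : ∀ t e, p (H (t, e)) = K (t, p e) := fun t e =>
    congrFun (hp.liftHomotopy_lifts K' (ContinuousMap.id E) h0) (t, e)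
  let Ψ : C(I × E, {z : ℂ // z ≠ 0}) := ⟨fun x => ⟨φ (H (σ x.1, x.2)), hφ.2 _⟩, by
    refine Continuous.subtype_mk (hφ.1.comp (H.continuous.comp ?_)) _
    fun_prop⟩
  -- the fibre is discrete
  have hdisc : DiscreteTopology (p ⁻¹' {b₀}) := (hp b₀).discreteTopology_fiber
  have hH1 : ∀ e, H (1, e) ∈ p ⁻¹' {b₀} := fun e => by
    show p (H (1, e)) = b₀
    rw [hHp]
    exact K.apply_one (p e)
  let r : E → p ⁻¹' {b₀} := fun e => ⟨H (1, e), hH1 e⟩
  have hr : Continuous r := Continuous.subtype_mk (H.continuous.comp (by fun_prop)) _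
  let F₀ : C(E, ℂ) := ⟨fun e => Complex.log (φ (r e).1), by
    have : Continuous (fun x : p ⁻¹' {b₀} => Complex.log (φ x.1)) :=
      continuous_of_discreteTopology
    exact this.comp hr⟩
  have h0 : ∀ e, Ψ (0, e) = (fun z : ℂ => (⟨_, z.exp_ne_zero⟩ : {z : ℂ // z ≠ 0})) (F₀ e) := by
    intro e
    apply Subtype.ext
    show φ (H (σ 0, e)) = Complex.exp (Complex.log (φ (H (1, e))))
    rw [Complex.exp_log (hφ.2 _), symm_zero]
  let G := Complex.isCoveringMap_exp.liftHomotopy Ψ F₀ h0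
  have hG : ∀ t e, Complex.exp (G (t, e)) = φ (H (σ t, e)) := by
    intro t e
    have := congrFun (Complex.isCoveringMap_exp.liftHomotopy_lifts Ψ F₀ h0) (t, e)
    exact congrArg Subtype.val this
  refine ⟨fun e => G (1, e), (G.continuous.comp (by fun_prop)).continuousOn, ?_⟩
  intro e _
  rw [hG, symm_one, hH0]

end

end Pool.Agent.L5helper22
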