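import Mathlib
import Pool.Agent.L5helper22.Alg

/-! Primitive elements for finite extensions of domains. -/

set_option autoImplicit false

open Polynomial nonZeroDivisors

namespace Pool.Agent.L5helper22

theorem sep_clear {A : Type*} [CommRing A] [IsDomain A] {K : Type*} [Field K] [Algebra A K]
    [IsFractionRing A K] {P : A[X]} (h : (P.map (algebraMap A K)).Separable) :
    ∃ d : A, d ≠ 0 ∧ ∃ a b, a * P + b * derivative P = C d := by
  obtain ⟨a, b, hab⟩ := h
  have hinj : Function.Injective (algebraMap A K) := IsFractionRing.injective A K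
  have hm : Function.Injective (Polynomial.map (algebraMap A K)) :=
    Polynomial.map_injective _ hinj
  obtain ⟨c₃, hc₃, a₂, ha₂⟩ := clear_den (A := A) (K := K) a
  obtain ⟨c₄, hc₄, b₂, hb₂⟩ := clear_den (A := A) (K := K) b
  refine ⟨c₃ * c₄, mul_ne_zero hc₃ hc₄, C c₄ * a₂, C c₃ * b₂, hm ?_⟩
  rw [Polynomial.map_add, Polynomial.map_mul, Polynomial.map_mul, Polynomial.map_mul,
    Polynomial.map_mul, Polynomial.map_C, Polynomial.map_C, Polynomial.map_C,
    ← Polynomial.derivative_map, ha₂, hb₂, (algebraMap A K).map_mul, C_mul]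
  linear_combination (C (algebraMap A K c₃) * C (algebraMap A K c₄)) * hab

theorem prim_model {R A : Type} [CommRing R] [IsDomain R] [IsIntegrallyClosed R] [CharZero R]
    [CommRing A] [IsDomain A] [Algebra R A] [FaithfulSMul R A] [Module.Finite R A] {m : ℕ}
    (y : Fin m → A) :
    ∃ (θ : A) (Q : R[X]) (q : Fin m → R[X]) (δ : R), δ ≠ 0 ∧ Q.Monic ∧
      (∃ a b, a * Q + b * derivative Q = C δ) ∧ (∀ G : R[X], aeval θ G = 0 → Q ∣ G) ∧
      aeval θ Q = 0 ∧ ∀ i, algebraMap R A δ * y i = aeval θ (q i) := by
  classical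
  let K := FractionRing R
  let L := FractionRing A
  let _ : Algebra K L := FractionRing.liftAlgebra R L
  have : IsScalarTower R K L := FractionRing.isScalarTower_liftAlgebra R L
  have : Module.Finite K L := Module.Finite.of_isLocalization R A R⁰
  obtain ⟨α, hα⟩ := Field.exists_primitive_element K L
  obtain ⟨a, b, hb, hab⟩ := IsFractionRing.div_surjective (A := A) α
  obtain ⟨c, d, hd, h⟩ := Algebra.IsAlgebraic.exists_smul_eq_mul R a (nonZeroDivisors.ne_zero hb)
  have hinj : Function.Injective (algebraMap A L) := IsFractionRing.injective A L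
  have hint : IsIntegral R c := Algebra.IsIntegral.isIntegral c
  have hintL : IsIntegral K (algebraMap A L c) := Algebra.IsIntegral.isIntegral _
  have htop : IntermediateField.adjoin K {algebraMap A L c} = ⊤ := by
    rw [eq_top_iff, ← hα, IntermediateField.adjoin_simple_le_iff]
    have hb0 : algebraMap A L b ≠ 0 := fun h0 => nonZeroDivisors.ne_zero hb
      (hinj (by rw [h0, map_zero]))
    have hd0 : algebraMap R K d ≠ 0 := fun h0 => hd
      (IsFractionRing.injective R K (by rw [h0, map_zero]))
    have h1 : algebraMap A L (d • a) = algebraMap A L b * algebraMap A L c := by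
      rw [h, map_mul]
    have h2 : algebraMap A L (d • a) = algebraMap K L (algebraMap R K d) * algebraMap A L a := by
      rw [Algebra.smul_def, map_mul, ← IsScalarTower.algebraMap_apply R K L,
        ← IsScalarTower.algebraMap_apply R A L]
    have h3 : α = algebraMap K L (algebraMap R K d)⁻¹ * algebraMap A L c := by
      rw [← hab, map_inv₀]
      have hd1 : algebraMap K L (algebraMap R K d) ≠ 0 := by
        rwa [Ne, map_eq_zero_iff _ (algebraMap K L).injective]
      rw [eq_comm, inv_mul_eq_div, div_eq_div_iff hd1 hb0]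
      have h4 := h1.symm.trans h2
      rw [mul_comm, h4, mul_comm]
    rw [h3]
    exact mul_mem (IntermediateField.algebraMap_mem _ _) (IntermediateField.mem_adjoin_simple_self _ _)
  have hrep : ∀ z : L, ∃ f : K[X], aeval (algebraMap A L c) f = z := by
    intro z
    have h1 : z ∈ (IntermediateField.adjoin K {algebraMap A L c}).toSubalgebra := by
      rw [htop]; trivial
    rw [IntermediateField.adjoin_simple_toSubalgebra_of_isAlgebraic hintL.isAlgebraic,
      Algebra.adjoin_singleton_eq_range_aeval] at h1
    exact h1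
  have hrep' : ∀ i, ∃ e : R, e ≠ 0 ∧ ∃ q : R[X], algebraMap R A e * y i = aeval c q := by
    intro i
    obtain ⟨f, hf⟩ := hrep (algebraMap A L (y i))
    obtain ⟨e, he, q, hq⟩ := clear_den (A := R) (K := K) f
    refine ⟨e, he, q, hinj ?_⟩
    have h1 := congrArg (aeval (algebraMap A L c)) hq
    rw [map_mul, aeval_C, hf, aeval_map_algebraMap, aeval_algebraMap_apply,
      ← IsScalarTower.algebraMap_apply R K L] at h1
    rw [h1, map_mul, ← IsScalarTower.algebraMap_apply R A L]
  choose e he q hq using hrep'
  have hsep : ((minpoly R c).map (algebraMap R K)).Separable := by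
    rw [← minpoly.isIntegrallyClosed_eq_field_fractions K L hint]
    exact Algebra.IsSeparable.isSeparable K _
  obtain ⟨d₀, hd₀, u, v, huv⟩ := sep_clear hsep
  refine ⟨c, minpoly R c, fun i => C (d₀ * ∏ j ∈ Finset.univ.erase i, e j) * q i,
    d₀ * ∏ j, e j, mul_ne_zero hd₀ (Finset.prod_ne_zero_iff.mpr (fun j _ => he j)),
    minpoly.monic hint, ⟨C (∏ j, e j) * u, C (∏ j, e j) * v, ?_⟩,
    fun G hG => minpoly.isIntegrallyClosed_dvd hint hG, minpoly.aeval R c, ?_⟩
  · rw [C_mul]
    linear_combination C (∏ j, e j) * huv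
  · intro i
    show _ = aeval c (C (d₀ * ∏ j ∈ Finset.univ.erase i, e j) * q i)
    rw [map_mul (aeval c), aeval_C, ← hq i, ← mul_assoc, ← map_mul (algebraMap R A)]
    congr 2
    rw [mul_assoc, Finset.prod_erase_mul _ _ (Finset.mem_univ i)]

end Pool.Agent.L5helper22
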