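import Mathlib
import Pool.Agent.L5helper22.Prim
import Pool.Agent.L5helper22.Conv
import Pool.Agent.Y193.FG.Fin

/-! A finite projection of a smooth connected affine variety. -/

set_option autoImplicit false

open Topology Set Polynomial

namespace Pool.Agent.L5helper22

/-- the condition of the problem -/
def IsAlg {m : ℕ} (Y : Set (Fin m → ℂ)) : Prop :=
  ∃ S : Set (MvPolynomial (Fin m) ℂ), Y = {y | ∀ P ∈ S, MvPolynomial.eval y P = 0}

/-- specialization of the coefficients -/
noncomputable abbrev sp {s : ℕ} (w : Fin s → ℂ) (P : (MvPolynomial (Fin s) ℂ)[X]) : ℂ[X] :=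
  P.map (MvPolynomial.eval w)

/-- the values of a family of polynomials -/
noncomputable def val {m s : ℕ} (pr : Fin s → MvPolynomial (Fin m) ℂ) (y : Fin m → ℂ) : Fin s → ℂ :=
  fun j => MvPolynomial.eval y (pr j)

/-- a finite projection with a primitive element -/
structure Model {m : ℕ} (Y : Set (Fin m → ℂ)) (s : ℕ) where
  pr : Fin s → MvPolynomial (Fin m) ℂ
  δ : MvPolynomial (Fin s) ℂ
  R : Fin m → (MvPolynomial (Fin s) ℂ)[X]
  th : MvPolynomial (Fin m) ℂ
  Q : (MvPolynomial (Fin s) ℂ)[X]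
  q : Fin m → (MvPolynomial (Fin s) ℂ)[X]
  δ_ne : δ ≠ 0
  nz : ∃ y ∈ Y, MvPolynomial.eval (val pr y) δ ≠ 0
  R_monic : ∀ i, (R i).Monic
  R_root : ∀ i, ∀ y ∈ Y, (sp (val pr y) (R i)).eval (y i) = 0
  Q_monic : Q.Monic
  Q_root : ∀ y ∈ Y, (sp (val pr y) Q).eval (MvPolynomial.eval y th) = 0
  Q_sep : ∀ w, MvPolynomial.eval w δ ≠ 0 → ∀ z, (sp w Q).eval z = 0 →
    (sp w Q).derivative.eval z ≠ 0
  q_spec : ∀ y ∈ Y, ∀ i, MvPolynomial.eval (val pr y) δ * y i =
    (sp (val pr y) (q i)).eval (MvPolynomial.eval y th)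
  q_mem : ∀ w z, MvPolynomial.eval w δ ≠ 0 → (sp w Q).eval z = 0 →
    (fun i => (sp w (q i)).eval z / MvPolynomial.eval w δ) ∈ Y
  q_pr : ∀ w z, MvPolynomial.eval w δ ≠ 0 → (sp w Q).eval z = 0 →
    val pr (fun i => (sp w (q i)).eval z / MvPolynomial.eval w δ) = w
  q_th : ∀ w z, MvPolynomial.eval w δ ≠ 0 → (sp w Q).eval z = 0 →
    MvPolynomial.eval (fun i => (sp w (q i)).eval z / MvPolynomial.eval w δ) th = z

open Y193.FG in
theorem exists_Model {m : ℕ} {Y : Set (Fin m → ℂ)} (hY : IsAlg Y) (hs : IsSmooth Y)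
    (hc : IsConnected Y) : ∃ s, Nonempty (Model Y s) := by
  classical
  obtain ⟨S, hS⟩ := hY
  have hdom : IsDomain (polyFun Y) := isDomain_of_submanifold (isSubm_of_isSmooth hs) hc
  obtain ⟨s, g, hginj, hgfin⟩ := exists_finite_inj_algHom_of_fg ℂ (polyFun Y)
  let _ : Algebra (MvPolynomial (Fin s) ℂ) (polyFun Y) := g.toRingHom.toAlgebra
  have hfaith : FaithfulSMul (MvPolynomial (Fin s) ℂ) (polyFun Y) :=
    (faithfulSMul_iff_algebraMap_injective _ _).mpr hginj
  have hfin : Module.Finite (MvPolynomial (Fin s) ℂ) (polyFun Y) := hgfin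
  have hpr : ∀ j : Fin s, ∃ f : MvPolynomial (Fin m) ℂ, ∀ x : Y,
      (g (MvPolynomial.X j)).1 x = MvPolynomial.eval x.1 f := fun j => mem_polyFun _
  choose pr hpr using hpr
  have evA : ∀ (y : Y) (r : MvPolynomial (Fin s) ℂ),
      (algebraMap (MvPolynomial (Fin s) ℂ) (polyFun Y) r).1 y =
        MvPolynomial.eval (val pr y.1) r := by
    intro y r
    have h1 : (evX y).comp g = MvPolynomial.aeval (val pr y.1) := by
      apply MvPolynomial.algHom_ext
      intro j
      rw [MvPolynomial.aeval_X]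
      exact hpr j y
    have h2 := congrArg (fun φ => φ r) h1
    simp only [AlgHom.comp_apply, MvPolynomial.aeval_eq_eval] at h2
    exact h2
  have evP : ∀ (y : Y) (a : polyFun Y) (P : (MvPolynomial (Fin s) ℂ)[X]),
      (aeval a P).1 y = (sp (val pr y.1) P).eval (a.1 y) := by
    intro y a P
    have h1 : (evX y).toRingHom (eval₂ (algebraMap (MvPolynomial (Fin s) ℂ) (polyFun Y)) a P) =
        eval₂ ((evX y).toRingHom.comp (algebraMap (MvPolynomial (Fin s) ℂ) (polyFun Y)))
          ((evX y).toRingHom a) P := Polynomial.hom_eval₂ _ _ _ _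
    have h2 : (evX y).toRingHom.comp (algebraMap (MvPolynomial (Fin s) ℂ) (polyFun Y)) =
        MvPolynomial.eval (val pr y.1) := by
      refine RingHom.ext (fun r => ?_)
      exact evA y r
    rw [h2] at h1
    rw [sp, eval_map]
    exact h1
  obtain ⟨θ, Q, q, δ, hδ, hQ, ⟨a, b, hab⟩, hdvd, hQθ, hq⟩ :=
    prim_model (R := MvPolynomial (Fin s) ℂ) (A := polyFun Y)
      (fun i : Fin m => toFun Y (MvPolynomial.X i))
  obtain ⟨th, hth⟩ := mem_polyFun θ
  have hfun : ∀ (y : Y) (i : Fin m), (toFun Y (MvPolynomial.X i)).1 y = y.1 i := by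
    intro y i
    rw [toFun_apply, MvPolynomial.eval_X]
  have hR : ∀ i, ∃ P : (MvPolynomial (Fin s) ℂ)[X], P.Monic ∧
      aeval (toFun Y (MvPolynomial.X i)) P = 0 := by
    intro i
    have h1 : IsIntegral (MvPolynomial (Fin s) ℂ) (toFun Y (MvPolynomial.X i)) :=
      Algebra.IsIntegral.isIntegral _
    obtain ⟨P, hP, h2⟩ := h1
    exact ⟨P, hP, h2⟩
  choose R hRm hR0 using hR
  -- the points over a root
  let pt : (Fin s → ℂ) → ℂ → (Fin m → ℂ) := fun w z i =>
    (sp w (q i)).eval z / MvPolynomial.eval w δ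
  have key : ∀ F : MvPolynomial (Fin m) ℂ, ∃ (N : ℕ) (G : (MvPolynomial (Fin s) ℂ)[X]),
      algebraMap (MvPolynomial (Fin s) ℂ) (polyFun Y) δ ^ N * toFun Y F = aeval θ G ∧
      ∀ w z, MvPolynomial.eval w δ ≠ 0 →
        MvPolynomial.eval w δ ^ N * MvPolynomial.eval (pt w z) F = (sp w G).eval z := by
    intro F
    induction F using MvPolynomial.induction_on with
    | C c =>
      refine ⟨0, C (MvPolynomial.C c), ?_, fun w z _ => ?_⟩
      · apply polyFun_ext
        intro y
        rw [evP]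
        simp only [pow_zero, one_mul, sp, map_C, eval_C]
        rw [toFun_apply, MvPolynomial.eval_C, MvPolynomial.eval_C]
      · simp [sp]
    | add F₁ F₂ h₁ h₂ =>
      obtain ⟨N₁, G₁, h1, h1'⟩ := h₁
      obtain ⟨N₂, G₂, h2, h2'⟩ := h₂
      refine ⟨N₁ + N₂, C (δ ^ N₂) * G₁ + C (δ ^ N₁) * G₂, ?_, fun w z hw => ?_⟩
      · have h3 : toFun Y (F₁ + F₂) = toFun Y F₁ + toFun Y F₂ := by
          apply polyFun_ext
          intro y
          show _ = (toFun Y F₁).1 y + (toFun Y F₂).1 y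
          rw [toFun_apply, toFun_apply, toFun_apply, map_add]
        rw [h3, map_add, map_mul (aeval θ), map_mul (aeval θ), aeval_C, aeval_C, ← h1, ← h2,
          map_pow, map_pow]
        ring
      · simp only [sp, Polynomial.map_add, Polynomial.map_mul, eval_add, eval_mul,
          map_add, map_pow, Polynomial.map_pow, eval_pow, map_C, eval_C] at h1' h2' ⊢
        rw [← h1' w z hw, ← h2' w z hw]
        ring
    | mul_X F i h =>
      obtain ⟨N, G, h1, h1'⟩ := h
      refine ⟨N + 1, G * q i, ?_, fun w z hw => ?_⟩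
      · have h3 : toFun Y (F * MvPolynomial.X i) = toFun Y F * toFun Y (MvPolynomial.X i) := by
          apply polyFun_ext
          intro y
          show _ = (toFun Y F).1 y * (toFun Y (MvPolynomial.X i)).1 y
          rw [toFun_apply, toFun_apply, toFun_apply, map_mul]
        rw [h3, map_mul (aeval θ), ← h1, ← hq i]
        ring
      · simp only [sp, Polynomial.map_mul, eval_mul, map_mul, MvPolynomial.eval_X] at h1' ⊢
        rw [← h1' w z hw]
        have h4 : MvPolynomial.eval w δ * pt w z i = (sp w (q i)).eval z :=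
          mul_div_cancel₀ _ hw
        rw [← h4]
        ring
  have key2 : ∀ (F : MvPolynomial (Fin m) ℂ) (H : (MvPolynomial (Fin s) ℂ)[X]),
      toFun Y F = aeval θ H → ∀ w z, MvPolynomial.eval w δ ≠ 0 → (sp w Q).eval z = 0 →
        MvPolynomial.eval (pt w z) F = (sp w H).eval z := by
    intro F H hFH w z hw hz
    obtain ⟨N, G, h1, h2⟩ := key F
    have h3 : aeval θ (G - C (δ ^ N) * H) = 0 := by
      rw [map_sub, map_mul (aeval θ), aeval_C, ← h1, map_pow, hFH, sub_self]
    obtain ⟨T, hT⟩ := hdvd _ h3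
    have h4 : (sp w (G - C (δ ^ N) * H)).eval z = 0 := by
      rw [hT, sp, Polynomial.map_mul, eval_mul, hz, zero_mul]
    simp only [sp, Polynomial.map_sub, Polynomial.map_mul, eval_sub, eval_mul,
      map_pow, Polynomial.map_pow, eval_pow, map_C, eval_C] at h4
    have h5 := h2 w z hw
    rw [sp, sub_eq_zero.mp h4] at h5
    exact mul_left_cancel₀ (pow_ne_zero _ hw) h5
  refine ⟨s, ⟨⟨pr, δ, R, th, Q, q, hδ, ?_, hRm, ?_, hQ, ?_, ?_, ?_, ?_, ?_, ?_⟩⟩⟩
  · by_contra hcon
    push Not at hcon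
    apply hδ
    apply hginj
    rw [map_zero]
    apply polyFun_ext
    intro y
    exact (evA y δ).trans (hcon y.1 y.2)
  · intro i y hy
    have h1 := evP ⟨y, hy⟩ (toFun Y (MvPolynomial.X i)) (R i)
    rw [hR0, hfun] at h1
    exact h1.symm
  · intro y hy
    have h1 := evP ⟨y, hy⟩ θ Q
    rw [hQθ, hth] at h1
    exact h1.symm
  · intro w hw z hz hz'
    have h1 := congrArg (fun P => (sp w P).eval z) hab
    simp only [sp, Polynomial.map_add, Polynomial.map_mul, eval_add, eval_mul, map_C, eval_C,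
      ← derivative_map] at h1 hz hz'
    rw [hz, hz', mul_zero, mul_zero, add_zero] at h1
    exact hw h1.symm
  · intro y hy i
    have h1 := evP ⟨y, hy⟩ θ (q i)
    rw [← hq i, hth] at h1
    have h2 : (algebraMap (MvPolynomial (Fin s) ℂ) (polyFun Y) δ *
        toFun Y (MvPolynomial.X i)).1 ⟨y, hy⟩ =
        (algebraMap (MvPolynomial (Fin s) ℂ) (polyFun Y) δ).1 ⟨y, hy⟩ *
          (toFun Y (MvPolynomial.X i)).1 ⟨y, hy⟩ := rfl
    rw [h2, evA, hfun] at h1
    exact h1
  · intro w z hw hz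
    rw [hS]
    intro P hP
    have h1 : toFun Y P = aeval θ (0 : (MvPolynomial (Fin s) ℂ)[X]) := by
      rw [map_zero]
      apply polyFun_ext
      intro y
      rw [toFun_apply]
      have h2 : y.1 ∈ {y | ∀ P ∈ S, MvPolynomial.eval y P = 0} := hS ▸ y.2
      exact h2 P hP
    have h3 := key2 P 0 h1 w z hw hz
    rw [sp, Polynomial.map_zero, eval_zero] at h3
    exact h3
  · intro w z hw hz
    funext j
    have h1 : toFun Y (pr j) = aeval θ (C (MvPolynomial.X j) : (MvPolynomial (Fin s) ℂ)[X]) := by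
      apply polyFun_ext
      intro y
      rw [toFun_apply, evP, sp, map_C, eval_C, MvPolynomial.eval_X]
      rfl
    have h3 := key2 _ _ h1 w z hw hz
    rw [sp, map_C, eval_C, MvPolynomial.eval_X] at h3
    exact h3
  · intro w z hw hz
    have h1 : toFun Y th = aeval θ (X : (MvPolynomial (Fin s) ℂ)[X]) := by
      rw [aeval_X]
      apply polyFun_ext
      intro y
      rw [toFun_apply, hth]
    have h3 := key2 _ _ h1 w z hw hz
    rw [sp, map_X, eval_X] at h3
    exact h3

end Pool.Agent.L5helper22
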