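import Mathlib
import Pool.Agent.L5helper22.Model

/-! Holomorphic functions on a submanifold. -/

set_option autoImplicit false

open Topology Set Polynomial

namespace Pool.Agent.L5helper22

/-- holomorphic on `Y` -/
def Hol {m : ℕ} (Y : Set (Fin m → ℂ)) (G : (Fin m → ℂ) → ℂ) : Prop :=
  ∀ p ∈ Y, ∃ U : Set (Fin m → ℂ), IsOpen U ∧ p ∈ U ∧
    ∃ h : (Fin m → ℂ) → ℂ, DifferentiableOn ℂ h U ∧ ∀ y ∈ Y, y ∈ U → h y = G y

section

variable {m : ℕ} {Y : Set (Fin m → ℂ)} {G G' : (Fin m → ℂ) → ℂ}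

theorem Hol.of_diff {g : (Fin m → ℂ) → ℂ} (hg : Differentiable ℂ g) : Hol Y g := fun _ _ =>
  ⟨univ, isOpen_univ, mem_univ _, g, hg.differentiableOn, fun _ _ _ => rfl⟩

theorem Hol.const (c : ℂ) : Hol Y (fun _ => c) := Hol.of_diff (differentiable_const c)

theorem Hol.binary (hG : Hol Y G) (hG' : Hol Y G') (F : ℂ × ℂ → ℂ) (hF : Differentiable ℂ F) :
    Hol Y (fun y => F (G y, G' y)) := by
  intro p hp
  obtain ⟨U, hU, hpU, h, hh, he⟩ := hG p hp
  obtain ⟨U', hU', hpU', h', hh', he'⟩ := hG' p hp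
  refine ⟨U ∩ U', hU.inter hU', ⟨hpU, hpU'⟩, fun y => F (h y, h' y), ?_, fun y hy hyU => ?_⟩
  · exact hF.comp_differentiableOn ((hh.mono inter_subset_left).prodMk (hh'.mono inter_subset_right))
  · show F (h y, h' y) = F (G y, G' y)
    rw [he y hy hyU.1, he' y hy hyU.2]

theorem Hol.unary (hG : Hol Y G) {F : ℂ → ℂ} (hF : Differentiable ℂ F) :
    Hol Y (fun y => F (G y)) :=
  hG.binary hG (fun p => F p.1) (hF.comp differentiable_fst)

theorem Hol.add (hG : Hol Y G) (hG' : Hol Y G') : Hol Y (fun y => G y + G' y) :=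
  hG.binary hG' (fun p => p.1 + p.2) (by fun_prop)

theorem Hol.sub (hG : Hol Y G) (hG' : Hol Y G') : Hol Y (fun y => G y - G' y) :=
  hG.binary hG' (fun p => p.1 - p.2) (by fun_prop)

theorem Hol.mul (hG : Hol Y G) (hG' : Hol Y G') : Hol Y (fun y => G y * G' y) :=
  hG.binary hG' (fun p => p.1 * p.2) (by fun_prop)

theorem Hol.pow (hG : Hol Y G) (n : ℕ) : Hol Y (fun y => G y ^ n) :=
  hG.unary (F := fun z => z ^ n) (by fun_prop)

theorem Hol.poly (hG : Hol Y G) (P : ℂ[X]) : Hol Y (fun y => P.eval (G y)) :=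
  hG.unary (F := fun z => P.eval z) P.differentiable

theorem Hol.inv (hG : Hol Y G) (h0 : ∀ y ∈ Y, G y ≠ 0) : Hol Y (fun y => (G y)⁻¹) := by
  intro p hp
  obtain ⟨U, hU, hpU, h, hh, he⟩ := hG p hp
  refine ⟨U ∩ h ⁻¹' {0}ᶜ, hh.continuousOn.isOpen_inter_preimage hU isOpen_compl_singleton,
    ⟨hpU, ?_⟩, fun y => (h y)⁻¹, ?_, fun y hy hyU => ?_⟩
  · show h p ≠ 0
    rw [he p hp hpU]; exact h0 p hp
  · exact (hh.mono inter_subset_left).inv (fun y hy => hy.2)
  · simp only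
    rw [he y hy hyU.1]

theorem Hol.comp (hG : Hol Y G) {E : Type*} [NormedAddCommGroup E] [NormedSpace ℂ E] {O : Set E}
    {σ : E → (Fin m → ℂ)} (hO : IsOpen O) (hσ : DifferentiableOn ℂ σ O) (hm : ∀ x ∈ O, σ x ∈ Y) :
    DifferentiableOn ℂ (fun x => G (σ x)) O := by
  intro x hx
  obtain ⟨U, hU, hpU, h, hh, he⟩ := hG _ (hm x hx)
  have h1 : DifferentiableAt ℂ (fun x => h (σ x)) x :=
    (hh.differentiableAt (hU.mem_nhds hpU)).comp x (hσ.differentiableAt (hO.mem_nhds hx))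
  refine DifferentiableAt.differentiableWithinAt (h1.congr_of_eventuallyEq ?_)
  have h2 : ∀ᶠ x' in 𝓝 x, σ x' ∈ U :=
    (hσ.differentiableAt (hO.mem_nhds hx)).continuousAt.eventually_mem (hU.mem_nhds hpU)
  filter_upwards [h2, hO.mem_nhds hx] with x' h3 h4
  exact (he _ (hm x' h4) h3).symm

theorem Hol.continuousOn (hG : Hol Y G) : ContinuousOn G Y := by
  intro p hp
  obtain ⟨U, hU, hpU, h, hh, he⟩ := hG p hp
  have h1 : ContinuousAt h p := (hh.differentiableAt (hU.mem_nhds hpU)).continuousAt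
  refine h1.continuousWithinAt.congr_of_eventuallyEq ?_ (he p hp hpU).symm
  filter_upwards [mem_nhdsWithin_of_mem_nhds (hU.mem_nhds hpU), self_mem_nhdsWithin] with y h2 h3
  exact (he y h3 h2).symm

open Y193.FG in
/-- the identity theorem -/
theorem Hol.identity (hG : Hol Y G) (hs : IsSmooth Y) (hc : IsPreconnected Y)
    {x₀ : Y} (h0 : ∀ᶠ y : Y in 𝓝 x₀, G y = 0) (x : Y) : G x = 0 := by
  have hX := isSubm_of_isSmooth hs
  have : PreconnectedSpace Y := isPreconnected_iff_preconnectedSpace.mp hc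
  set S : Set Y := {x | ∀ᶠ y : Y in 𝓝 x, G y = 0} with hS
  have hopen : IsOpen S := isOpen_setOfPred_eventually_nhds
  have hclosed : IsClosed S := by
    refine isClosed_of_closure_subset (fun x hx => ?_)
    obtain ⟨E, _, _, V, O, φ, ψ, hV, hO, hxO, hφd, hψd, hφ, hl⟩ := hX x.1 x.2
    have h1 := phi_psi hφ hl x.2 hxO
    obtain ⟨r, hr, hball⟩ := Metric.isOpen_iff.mp hV _ h1.1
    have hBo : IsOpen (piece Y O ψ (Metric.ball (ψ x.1) r)) :=
      piece_isOpen hO hψd Metric.isOpen_ball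
    have hxB : x ∈ piece Y O ψ (Metric.ball (ψ x.1) r) := ⟨hxO, Metric.mem_ball_self hr⟩
    obtain ⟨y, hyB, hyS⟩ := mem_closure_iff.mp hx _ hBo hxB
    have hd : DifferentiableOn ℂ (fun v => G (φ v)) (Metric.ball (ψ x.1) r) :=
      hG.comp Metric.isOpen_ball (hφd.mono hball) (fun v hv => (phi_mem hφ (hball hv)).1)
    have hy1 := phi_psi hφ hl y.2 hyB.1
    have hcont : ContinuousAt (fun v : V => (⟨φ v, (phi_mem hφ v.2).1⟩ : Y)) ⟨ψ y.1, hy1.1⟩ := by
      apply Continuous.continuousAt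
      refine Continuous.subtype_mk ?_ _
      exact hφd.continuousOn.comp_continuous continuous_subtype_val (fun x => x.2)
    have hy2 : (⟨φ (ψ y.1), (phi_mem hφ hy1.1).1⟩ : Y) = y := Subtype.ext hy1.2
    have hev : ∀ᶠ v in 𝓝 (ψ y.1), G (φ v) = 0 := by
      have h3 : ∀ᶠ v : V in 𝓝 ⟨ψ y.1, hy1.1⟩, G (φ v) = 0 := by
        have h4 : ∀ᶠ z : Y in 𝓝 (⟨φ (ψ y.1), (phi_mem hφ hy1.1).1⟩ : Y), G z = 0 := by
          rw [hy2]; exact hyS
        exact hcont.eventually h4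
      rw [nhds_subtype, Filter.eventually_comap] at h3
      filter_upwards [h3, hV.mem_nhds hy1.1] with v hv hvV
      exact hv ⟨v, hvV⟩ rfl
    have hz : ∀ v ∈ Metric.ball (ψ x.1) r, G (φ v) = 0 := fun v hv =>
      eq_zero_of_eventually Metric.isOpen_ball (convex_ball _ _) hd hyB.2 hev hv
    filter_upwards [hBo.mem_nhds hxB] with z hzB
    have := hz (ψ z.1) hzB.2
    rwa [(phi_psi hφ hl z.2 hzB.1).2] at this
  have huniv : S = univ := IsClopen.eq_univ ⟨hclosed, hopen⟩ ⟨x₀, h0⟩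
  have hx : x ∈ S := by rw [huniv]; trivial
  exact hx.self_of_nhds

end

end Pool.Agent.L5helper22
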