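import Mathlib
import Pool.Agent.L5helper22.Log
import Pool.Agent.Y193.FG.One

/-! Thin complements. -/

set_option autoImplicit false

open Topology Set

namespace Pool.Agent.L5helper22

section

variable {E B : Type*} [TopologicalSpace E] [TopologicalSpace B]

theorem Thin.preimage {p : E → B} (hp : IsLocalHomeomorph p) {D : Set B} (hD : Thin D) :
    Thin (p ⁻¹' D) := by
  intro x O hO
  obtain ⟨e, hxe, rfl⟩ := hp x
  obtain ⟨O', hO'O, hO', hxO'⟩ := mem_nhds_iff.mp (Filter.inter_mem hO (e.open_source.mem_nhds hxe))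
  have hop : e '' O' ∈ 𝓝 (e x) := by
    have h1 := e.image_mem_nhds hxe (hO'.mem_nhds hxO')
    exact h1
  obtain ⟨B', hB', hB'O, hc, ⟨y, hy⟩⟩ := hD (e x) _ hop
  have hsub : ∀ z ∈ B', ∃ w ∈ O', e w = z := fun z hz => hB'O hz
  have htar : B' ⊆ e.target := by
    intro z hz
    obtain ⟨w, hw, rfl⟩ := hsub z hz
    exact e.map_source (hO'O hw).2
  have heq : (e.source ∩ e ⁻¹' B') ∩ e ⁻¹' D = e.symm '' (B' ∩ D) := by
    ext z
    constructor
    · rintro ⟨⟨h1, h2⟩, h3⟩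
      exact ⟨e z, ⟨h2, h3⟩, e.left_inv h1⟩
    · rintro ⟨w, ⟨h1, h2⟩, rfl⟩
      refine ⟨⟨e.map_target (htar h1), ?_⟩, ?_⟩
      · show e (e.symm w) ∈ B'
        rw [e.right_inv (htar h1)]; exact h1
      · show e (e.symm w) ∈ D
        rw [e.right_inv (htar h1)]; exact h2
  refine ⟨e.source ∩ e ⁻¹' B', ?_, ?_, ?_, ?_⟩
  · exact Filter.inter_mem (e.open_source.mem_nhds hxe) (e.continuousAt hxe hB')
  · rintro z ⟨h1, h2⟩
    obtain ⟨w, hw, hwz⟩ := hsub _ h2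
    have : w = z := e.injOn (hO'O hw).2 h1 hwz
    rw [← this]
    exact (hO'O hw).1
  · rw [heq]
    exact hc.image _ (e.continuousOn_symm.mono (fun z hz => htar hz.1))
  · rw [heq]
    exact ⟨_, y, hy, rfl⟩

end

section

variable {F : Type*} [NormedAddCommGroup F] [NormedSpace ℂ F]

theorem isPreconnected_ne_zero {C : Set F} (hC : IsOpen C) (hc : Convex ℝ C) {g : F → ℂ}
    (hg : DifferentiableOn ℂ g C) : IsPreconnected {w | w ∈ C ∧ g w ≠ 0} := by
  refine isPreconnected_of_forall_pair (fun x hx y hy => ?_)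
  obtain ⟨p, hp⟩ := Y193.FG.joined_ne_zero hC hc hg hx.1 hy.1 hx.2 hy.2
  exact ⟨range p, by rintro _ ⟨t, rfl⟩; exact hp t, ⟨0, p.source⟩, ⟨1, p.target⟩,
    isPreconnected_range p.continuous⟩

theorem exists_near_ne_zero {g : F → ℂ} (hg : Differentiable ℂ g) (h0 : ∃ w, g w ≠ 0) {x : F}
    {O : Set F} (hO : O ∈ 𝓝 x) : ∃ w ∈ O, g w ≠ 0 := by
  by_contra hcon
  push Not at hcon
  obtain ⟨w, hw⟩ := h0
  exact hw (Y193.FG.eq_zero_of_eventually isOpen_univ convex_univ hg.differentiableOn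
    (mem_univ x) (Filter.mem_of_superset hO hcon) (mem_univ w))

theorem Thin.of_open {W : Set F} (hW : IsOpen W) {g : F → ℂ} (hg : Differentiable ℂ g)
    (h0 : ∃ w, g w ≠ 0) : Thin {w : W | g w ≠ 0} := by
  intro x O hO
  obtain ⟨O', hO', hOO⟩ := mem_nhds_subtype _ _ _ |>.mp hO
  obtain ⟨ε, hε, hb⟩ := Metric.mem_nhds_iff.mp (Filter.inter_mem hO' (hW.mem_nhds x.2))
  have hgb : DifferentiableOn ℂ g (Metric.ball x.1 ε) := hg.differentiableOn
  have heq : Subtype.val '' ({w : W | w.1 ∈ Metric.ball x.1 ε} ∩ {w : W | g w ≠ 0}) =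
      {w | w ∈ Metric.ball x.1 ε ∧ g w ≠ 0} := by
    ext z
    constructor
    · rintro ⟨w, ⟨h1, h2⟩, rfl⟩
      exact ⟨h1, h2⟩
    · rintro ⟨h1, h2⟩
      exact ⟨⟨z, (hb h1).2⟩, ⟨h1, h2⟩, rfl⟩
  refine ⟨{w : W | w.1 ∈ Metric.ball x.1 ε}, ?_, ?_, ?_, ?_⟩
  · exact continuous_subtype_val.continuousAt (Metric.ball_mem_nhds _ hε)
  · intro z hz
    exact hOO (hb hz).1
  · rw [← Topology.IsInducing.subtypeVal.isPreconnected_image, heq]
    exact isPreconnected_ne_zero Metric.isOpen_ball (convex_ball _ _) hgb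
  · obtain ⟨w, h1, h2⟩ := exists_near_ne_zero hg h0 (Metric.ball_mem_nhds x.1 hε)
    exact ⟨⟨w, (hb h1).2⟩, h1, h2⟩

end

end Pool.Agent.L5helper22
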