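import Mathlib
import Pool.Agent.L5helper22.Cov

/-! Logarithms on the finite coverings of a plane without finitely many points. -/

set_option autoImplicit false

open Topology Set unitInterval

namespace Pool.Agent.L5helper22

/-- integral dependence -/
theorem int_dep {Q : Type*} [Finite Q] {N : ℕ} (hN : Nat.card Q < N) (m : Fin N → Q → ℤ) :
    ∃ a : Fin N → ℤ, a ≠ 0 ∧ ∀ q, ∑ i, a i * m i q = 0 := by
  have : Fintype Q := Fintype.ofFinite Q
  by_contra hcon
  push Not at hcon
  have hinj : Function.Injective (Fintype.linearCombination ℤ m) := by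
    rw [injective_iff_map_eq_zero]
    intro a ha
    by_contra ha0
    obtain ⟨q, hq⟩ := hcon a ha0
    apply hq
    have := congrFun ha q
    simpa [Fintype.linearCombination_apply, Finset.sum_apply] using this
  have := card_le_of_injective ℤ (Fintype.linearCombination ℤ m) hinj
  rw [Fintype.card_fin, ← Nat.card_eq_fintype_card] at this
  omega

section

variable {E B : Type*} [TopologicalSpace E] [TopologicalSpace B] {p : E → B}

theorem LogOn.of_subtype {φ : E → ℂ} {S : Set E} (h : LogOn (fun x : S => φ x) univ) :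
    LogOn φ S := by
  classical
  obtain ⟨F, hF, hF'⟩ := h
  refine ⟨fun x => if hx : x ∈ S then F ⟨x, hx⟩ else 0, ?_, ?_⟩
  · rw [continuousOn_iff_continuous_domRestrict]
    convert continuousOn_univ.mp hF using 1
    funext x
    simp
  · intro x hx
    simp only [hx, dif_pos]
    exact hF' ⟨x, hx⟩ (mem_univ _)

theorem LogOn.to_subtype {φ : E → ℂ} {S : Set E} (h : LogOn φ S) :
    LogOn (fun x : S => φ x) univ :=
  h.comp continuous_subtype_val.continuousOn (fun x _ => x.2)

/-- a good finite cover -/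
theorem LogDep.of_cover {J : Type} [Finite J] (A : J → Set E) (hA : ∀ i, IsOpen (A i))
    (hcov : ∀ x, ∃ i, x ∈ A i) (hlog : ∀ i (φ : E → ℂ), Nz φ → LogOn φ (A i))
    (Q : J → J → Set E) (hQ : ∀ i j, (Q i j).Finite)
    (hQs : ∀ i j, ∀ x ∈ A i ∩ A j, ∃ C, IsPreconnected C ∧ C ⊆ A i ∩ A j ∧ x ∈ C ∧
      ∃ q ∈ Q i j, q ∈ C) : ∃ N, LogDep E N := by
  classical
  have : ∀ i j, Finite (Q i j) := fun i j => hQ i j
  refine ⟨Nat.card (Σ i : J × J, Q i.1 i.2) + 1, fun φ hφ => ?_⟩
  have h1 : ∀ i k, ∃ F : E → ℂ, ContinuousOn F (A i) ∧ ∀ x ∈ A i, Complex.exp (F x) = φ k x :=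
    fun i k => hlog i _ (hφ k)
  choose F hF hF' using h1
  have h2 : ∀ (k : Fin (Nat.card (Σ i : J × J, Q i.1 i.2) + 1)) (i : J × J) (x : E),
      ∃ n : ℤ, x ∈ A i.1 ∩ A i.2 →
      F i.1 k x = F i.2 k x + n * (2 * Real.pi * Complex.I) := by
    intro k i x
    by_cases hx : x ∈ A i.1 ∩ A i.2
    · obtain ⟨n, hn⟩ := Complex.exp_eq_exp_iff_exists_int.mp
        ((hF' i.1 k x hx.1).trans (hF' i.2 k x hx.2).symm)
      exact ⟨n, fun _ => hn⟩
    · exact ⟨0, fun h => absurd h hx⟩
  choose n hn using h2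
  obtain ⟨a, ha, hrel⟩ := int_dep (Q := Σ i : J × J, Q i.1 i.2) (Nat.lt_succ_self _)
    (fun k q => n k q.1 q.2.1)
  refine ⟨a, ha, ?_⟩
  -- the logarithms on the pieces
  let G : J → E → ℂ := fun i x => ∑ k, (a k : ℂ) * F i k x
  have hG : ∀ i, ContinuousOn (G i) (A i) := fun i =>
    continuousOn_finsetSum _ (fun k _ => continuousOn_const.mul (hF i k))
  have hG' : ∀ i, ∀ x ∈ A i, Complex.exp (G i x) = mon φ a x := by
    intro i x hx
    show Complex.exp (∑ k, (a k : ℂ) * F i k x) = _
    rw [exp_sum_mul, mon]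
    refine Finset.prod_congr rfl (fun k _ => ?_)
    rw [hF' i k x hx]
  have hGG : ∀ i j, ∀ x ∈ A i ∩ A j, G i x = G j x := by
    intro i j x hx
    obtain ⟨C, hC, hCA, hxC, q, hq, hqC⟩ := hQs i j x hx
    have e1 := log_const hC ((hG i).mono (fun y hy => (hCA hy).1))
      ((hG j).mono (fun y hy => (hCA hy).2))
      (fun y hy => by rw [hG' i y (hCA hy).1, hG' j y (hCA hy).2]) hxC hqC
    have e2 : G i q - G j q = 0 := by
      show (∑ k, (a k : ℂ) * F i k q) - ∑ k, (a k : ℂ) * F j k q = 0
      rw [← Finset.sum_sub_distrib]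
      have e3 : ∀ k, (a k : ℂ) * F i k q - (a k : ℂ) * F j k q =
          ((a k * n k (i, j) q : ℤ) : ℂ) * (2 * Real.pi * Complex.I) := by
        intro k
        rw [hn k (i, j) q (hCA hqC)]
        push_cast
        ring
      rw [Finset.sum_congr rfl (fun k _ => e3 k), ← Finset.sum_mul, ← Int.cast_sum,
        hrel ⟨(i, j), ⟨q, hq⟩⟩, Int.cast_zero, zero_mul]
    rw [e2] at e1
    exact sub_eq_zero.mp e1
  choose c hc using hcov
  refine ⟨fun x => G (c x) x, continuousOn_of_local (fun x _ => ⟨A (c x), G (c x), hA _, hc x,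
    (hG _).mono inter_subset_left, fun y hy => hGG _ _ y ⟨hc y, hy.1⟩⟩), fun x _ => hG' _ x (hc x)⟩

/-- lifting a path from `p e` to `b` -/
theorem exists_lift_joined (hp : IsCoveringMap p) {S : Set B} {e : E} {b : B}
    (γ : Path (p e) b) (hγ : ∀ t, γ t ∈ S) :
    ∃ C, IsPreconnected C ∧ C ⊆ p ⁻¹' S ∧ e ∈ C ∧ ∃ q ∈ p ⁻¹' {b}, q ∈ C := by
  obtain ⟨Γ, h1, h2⟩ := hp.exists_path_lifts (γ : C(I, B)) e (by simp)
  have h3 : ∀ t, p (Γ t) = γ t := fun t => congrFun h1 t
  refine ⟨range Γ, isPreconnected_range Γ.continuous, ?_, ⟨0, h2⟩, Γ 1, ?_, ⟨1, rfl⟩⟩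
  · rintro _ ⟨t, rfl⟩
    show p (Γ t) ∈ S
    rw [h3]; exact hγ t
  · show p (Γ 1) = b
    rw [h3, γ.target]

/-- a covering of a space with a good finite cover -/
theorem LogDep.of_base_cover (hp : IsCoveringMap p) (hfin : ∀ b, (p ⁻¹' {b}).Finite)
    {J : Type} [Finite J] (A : J → Set B) (hA : ∀ i, IsOpen (A i)) (hcov : ∀ x, ∃ i, x ∈ A i)
    (hcontr : ∀ i, (A i).Nonempty → ContractibleSpace (A i))
    (hconn : ∀ i j, ∀ x ∈ A i ∩ A j, ∀ y ∈ A i ∩ A j, JoinedIn (A i ∩ A j) x y) :
    ∃ N, LogDep E N := by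
  classical
  refine LogDep.of_cover (fun i => p ⁻¹' (A i)) (fun i => (hA i).preimage hp.continuous)
    (fun x => hcov (p x)) (fun i φ hφ => ?_)
    (fun i j => if h : (A i ∩ A j).Nonempty then p ⁻¹' {h.some} else ∅) ?_ ?_
  · rcases (A i).eq_empty_or_nonempty with h | h
    · rw [h]
      exact ⟨fun _ => 0, continuousOn_const, fun x hx => absurd hx (by simp)⟩
    · have := hcontr i h
      apply LogOn.of_subtype
      exact log_of_contractible (hp.restrictPreimage (A i))
        (φ := fun x : p ⁻¹' (A i) => φ x) ⟨hφ.1.comp continuous_subtype_val, fun x => hφ.2 x⟩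
  · intro i j
    by_cases h : (A i ∩ A j).Nonempty
    · simp only [h, dif_pos]
      exact hfin _
    · simp [h]
  · intro i j x hx
    have h : (A i ∩ A j).Nonempty := ⟨p x, hx⟩
    simp only [h, dif_pos]
    have hj := hconn i j (p x) hx h.some h.some_mem
    obtain ⟨C, h1, h2, h3, h4⟩ := exists_lift_joined hp hj.somePath hj.somePath_mem
    exact ⟨C, h1, h2, h3, h4⟩

end

/-- three half planes that cover the plane without the origin -/
noncomputable def half (k : Fin 3) (z : ℂ) : ℝ :=
  match k with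
  | 0 => z.re
  | 1 => -z.re + z.im
  | 2 => -z.re - z.im

theorem half_cover {z : ℂ} (hz : z ≠ 0) : ∃ k, 0 < half k z := by
  by_contra h
  push Not at h
  have h0 := h 0
  have h1 := h 1
  have h2 := h 2
  simp only [half] at h0 h1 h2
  apply hz
  apply Complex.ext
  · simp only [Complex.zero_re]; linarith
  · simp only [Complex.zero_im]; linarith

theorem half_zero (k : Fin 3) : half k 0 = 0 := by
  fin_cases k <;> simp [half]

theorem half_continuous (k : Fin 3) : Continuous (half k) := by
  have h1 := Complex.continuous_re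
  have h2 := Complex.continuous_im
  fin_cases k
  · exact h1
  · exact h1.neg.add h2
  · exact h1.neg.sub h2

theorem half_convex (k : Fin 3) (c : ℂ) : Convex ℝ {z : ℂ | 0 < half k (z - c)} := by
  intro x hx y hy a b ha hb hab
  have key : half k (a • x + b • y - c) = a * half k (x - c) + b * half k (y - c) := by
    have hc : c = (a : ℂ) * c + (b : ℂ) * c := by
      rw [← add_mul]
      have : (a : ℂ) + (b : ℂ) = 1 := by exact_mod_cast hab
      rw [this, one_mul]
    have hre : c.re = a * c.re + b * c.re := by rw [← add_mul, hab, one_mul]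
    have him : c.im = a * c.im + b * c.im := by rw [← add_mul, hab, one_mul]
    fin_cases k
    · simp [half]; linarith
    · simp [half]; linarith
    · simp [half]; linarith
  show 0 < half k (a • x + b • y - c)
  rw [key]
  have hx' : 0 < half k (x - c) := hx
  have hy' : 0 < half k (y - c) := hy
  rcases ha.eq_or_lt with h | h
  · have : b = 1 := by linarith
    rw [← h, this]
    linarith
  · have h1 := mul_pos h hx'
    have h2 := mul_nonneg hb hy'.le
    linarith

section

variable {E B : Type*} [TopologicalSpace E] [TopologicalSpace B] {p : E → B}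

/-- finite coverings of a plane without finitely many points -/
theorem LogDep.of_plane {Z : Set ℂ} (hZ : Z.Finite) (e : B ≃ₜ {z : ℂ // z ∉ Z})
    (hp : IsCoveringMap p) (hfin : ∀ b, (p ⁻¹' {b}).Finite) : ∃ N, LogDep E N := by
  classical
  have : Finite Z := hZ
  let D : (Z → Fin 3) → Set ℂ := fun κ => ⋂ ζ : Z, {z : ℂ | 0 < half (κ ζ) (z - ζ)}
  have hDo : ∀ κ, IsOpen (D κ) := fun κ => isOpen_iInter_of_finite (fun ζ =>
    isOpen_lt continuous_const ((half_continuous _).comp (continuous_id.sub continuous_const)))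
  have hDc : ∀ κ, Convex ℝ (D κ) := fun κ => convex_iInter (fun ζ => half_convex _ _)
  have hDZ : ∀ κ, ∀ z ∈ D κ, z ∉ Z := by
    intro κ z hz hzZ
    have h1 := mem_iInter.mp hz ⟨z, hzZ⟩
    simp only [sub_self, mem_ofPred_eq, half_zero, lt_irrefl] at h1
  -- sets of `B` given by subsets of the plane
  let A : (Z → Fin 3) → Set B := fun κ => {b | (e b).1 ∈ D κ}
  have hAc : Continuous (fun b : B => (e b).1) := continuous_subtype_val.comp e.continuous
  have hmap : ∀ (C : Set ℂ) (hC : ∀ z ∈ C, z ∉ Z), Continuous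
      (fun z : C => e.symm ⟨z.1, hC z.1 z.2⟩) := fun C hC =>
    e.symm.continuous.comp (Continuous.subtype_mk continuous_subtype_val _)
  refine LogDep.of_base_cover hp hfin (J := Z → Fin 3) A (fun κ => (hDo κ).preimage hAc) ?_ ?_ ?_
  · intro b
    have h1 : ∀ ζ : Z, ∃ k, 0 < half k ((e b).1 - ζ) := by
      intro ζ
      apply half_cover
      intro h0
      exact (e b).2 (by rw [sub_eq_zero.mp h0]; exact ζ.2)
    choose κ hκ using h1
    exact ⟨κ, mem_iInter.mpr hκ⟩
  · intro κ hne
    have hDne : (D κ).Nonempty := ⟨(e hne.some).1, hne.some_mem⟩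
    have := (hDc κ).contractibleSpace hDne
    have hmem : ∀ z : D κ, e.symm ⟨z.1, hDZ κ z.1 z.2⟩ ∈ A κ := fun z => by
      show (e (e.symm _)).1 ∈ D κ
      rw [e.apply_symm_apply]; exact z.2
    let f : A κ ≃ₜ D κ :=
      { toFun := fun b => ⟨(e b.1).1, b.2⟩
        invFun := fun z => ⟨e.symm ⟨z.1, hDZ κ z.1 z.2⟩, hmem z⟩
        left_inv := fun b => by
          apply Subtype.ext
          simp
        right_inv := fun z => by
          apply Subtype.ext
          simp
        continuous_toFun := Continuous.subtype_mk (hAc.comp continuous_subtype_val) _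
        continuous_invFun := Continuous.subtype_mk (hmap _ (hDZ κ)) hmem }
    exact f.contractibleSpace
  · intro κ l x hx y hy
    have hcv : Convex ℝ (D κ ∩ D l) := (hDc κ).inter (hDc l)
    have hj : JoinedIn (D κ ∩ D l) (e x).1 (e y).1 :=
      (hcv.isPathConnected ⟨_, hx⟩).joinedIn _ hx _ hy
    have hZ' : ∀ t, hj.somePath t ∉ Z := fun t => hDZ κ _ (hj.somePath_mem t).1
    refine ⟨{ toFun := fun t => e.symm ⟨hj.somePath t, hZ' t⟩
              continuous_toFun := e.symm.continuous.comp
                (Continuous.subtype_mk hj.somePath.continuous _)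
              source' := by simp
              target' := by simp }, fun t => ?_⟩
    have := hj.somePath_mem t
    constructor
    · show (e (e.symm _)).1 ∈ D κ
      rw [e.apply_symm_apply]; exact this.1
    · show (e (e.symm _)).1 ∈ D l
      rw [e.apply_symm_apply]; exact this.2

end

end Pool.Agent.L5helper22
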