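import Mathlib
import Pool.Agent.L5helper22.Plane

/-! Logarithms on coverings of the total space of a fibration with a section. -/

set_option autoImplicit false

open Topology Set unitInterval

namespace Pool.Agent.L5helper22

section

variable {E B U : Type*} [TopologicalSpace E] [TopologicalSpace B] [TopologicalSpace U]

/-- a fibration, in the form in which it is used -/
structure IsFib (q : B → U) (s : U → B) : Prop where
  cont : Continuous q
  contS : Continuous s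
  sec : ∀ u, q (s u) = u
  loc : ∀ u₁, ∃ V : Set U, IsOpen V ∧ u₁ ∈ V ∧ (∀ x ∈ V, ∀ y ∈ V, JoinedIn V x y) ∧
    ∀ u ∈ V, ∃ K : C(I × (q ⁻¹' V), q ⁻¹' V), (∀ b, K (0, b) = b) ∧
      (∀ b, q (K (1, b)) = u) ∧ ∀ b : q ⁻¹' V, q b = u → ∀ t, K (t, b) = b
  fib : ∀ u, ∀ b ∈ q ⁻¹' {u}, ∀ b' ∈ q ⁻¹' {u}, JoinedIn (q ⁻¹' {u}) b b'

variable {p : E → B} {q : B → U} {s : U → B}

/-- `L` is a logarithm of `φ` on the fibre over `u` which agrees with `G` over the section -/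
def GoodLog (p : E → B) (q : B → U) (s : U → B) (φ G L : E → ℂ) (u : U) : Prop :=
  ContinuousOn L (p ⁻¹' (q ⁻¹' {u})) ∧ (∀ e, q (p e) = u → Complex.exp (L e) = φ e) ∧
    ∀ e, p e = s u → L e = G e

theorem GoodLog.unique (hp : IsCoveringMap p) (hq : IsFib q s) {φ G L L' : E → ℂ} {u : U}
    (h : GoodLog p q s φ G L u) (h' : GoodLog p q s φ G L' u) {e : E} (he : q (p e) = u) :
    L e = L' e := by
  have hj := hq.fib u (p e) he (s u) (hq.sec u)
  obtain ⟨C, hC, hCS, heC, e₂, he₂, he₂C⟩ := exists_lift_joined hp hj.somePath hj.somePath_mem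
  have h1 := log_const hC (h.1.mono hCS) (h'.1.mono hCS)
    (fun x hx => by rw [h.2.1 x (hCS hx), h'.2.1 x (hCS hx)]) heC he₂C
  rw [h.2.2 e₂ he₂, h'.2.2 e₂ he₂, sub_self] at h1
  exact sub_eq_zero.mp h1

theorem GoodLog.extend (hp : IsCoveringMap p) (hq : IsFib q s) {φ G L : E → ℂ} (hφ : Nz φ)
    (hG : ContinuousOn G (p ⁻¹' (range s))) (hG' : ∀ e ∈ p ⁻¹' (range s), Complex.exp (G e) = φ e)
    {V : Set U} (hVj : ∀ x ∈ V, ∀ y ∈ V, JoinedIn V x y) {u : U} (hu : u ∈ V)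
    (hK : ∃ K : C(I × (q ⁻¹' V), q ⁻¹' V), (∀ b, K (0, b) = b) ∧
      (∀ b, q (K (1, b)) = u) ∧ ∀ b : q ⁻¹' V, q b = u → ∀ t, K (t, b) = b)
    (h : GoodLog p q s φ G L u) :
    ∃ L' : E → ℂ, ContinuousOn L' (p ⁻¹' (q ⁻¹' V)) ∧ ∀ u' ∈ V, GoodLog p q s φ G L' u' := by
  classical
  obtain ⟨K, hK0, hK1, hKS⟩ := hK
  obtain ⟨M, hM, hM', hMS⟩ := log_of_cov (hp.restrictPreimage (q ⁻¹' V)) K hK0
    (S := {b : q ⁻¹' V | q b = u}) hK1 hKS
    (φ := fun e : p ⁻¹' (q ⁻¹' V) => φ e) ⟨hφ.1.comp continuous_subtype_val, fun x => hφ.2 x⟩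
    (L := fun e : p ⁻¹' (q ⁻¹' V) => L e)
    (h.1.comp continuous_subtype_val.continuousOn (fun e he => he))
    (fun e he => h.2.1 e he)
  have hL' : ∃ L' : E → ℂ, ContinuousOn L' (p ⁻¹' (q ⁻¹' V)) ∧
      ∀ e : p ⁻¹' (q ⁻¹' V), L' e = M e := by
    refine ⟨fun e => if he : e ∈ p ⁻¹' (q ⁻¹' V) then M ⟨e, he⟩ else 0, ?_, ?_⟩
    · rw [continuousOn_iff_continuous_domRestrict]
      convert hM using 1
      funext x
      exact dif_pos x.2
    · intro e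
      exact dif_pos e.2
  obtain ⟨L', hL'c, hL'M⟩ := hL'
  have hexp : ∀ e ∈ p ⁻¹' (q ⁻¹' V), Complex.exp (L' e) = φ e := by
    intro e he
    rw [hL'M ⟨e, he⟩]
    exact hM' ⟨e, he⟩
  refine ⟨L', hL'c, fun u' hu' => ⟨hL'c.mono ?_, ?_, ?_⟩⟩
  · intro e he
    have : q (p e) = u' := he
    show q (p e) ∈ V
    rw [this]; exact hu'
  · intro e he
    exact hexp e (by show q (p e) ∈ V; rw [he]; exact hu')
  · intro e he
    have hj := hVj u' hu' u hu
    let γ : Path (p e) (s u) :=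
      { toFun := fun t => s (hj.somePath t)
        continuous_toFun := hq.contS.comp hj.somePath.continuous
        source' := by simp [he]
        target' := by simp }
    obtain ⟨C, hC, hCS, heC, e₂, he₂, he₂C⟩ := exists_lift_joined hp γ
      (S := range s ∩ q ⁻¹' V) (fun t => ⟨⟨_, rfl⟩, by
        show q (s (hj.somePath t)) ∈ V
        rw [hq.sec]; exact hj.somePath_mem t⟩)
    have h1 := log_const hC (hL'c.mono (fun x hx => (hCS hx).2))
      (hG.mono (fun x hx => (hCS hx).1))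
      (fun x hx => by rw [hexp x (hCS hx).2, hG' x (hCS hx).1]) heC he₂C
    have he₂' : p e₂ = s u := he₂
    have hqe : q (p e₂) = u := by rw [he₂', hq.sec]
    have h2 : L' e₂ = G e₂ := by
      rw [hL'M ⟨e₂, (hCS he₂C).2⟩, hMS ⟨e₂, (hCS he₂C).2⟩ hqe]
      exact h.2.2 e₂ he₂'
    rw [h2, sub_self] at h1
    exact sub_eq_zero.mp h1

theorem log_of_fib [PreconnectedSpace U] (hp : IsCoveringMap p) (hq : IsFib q s)
    {φ G L₀ : E → ℂ} (hφ : Nz φ)
    (hG : ContinuousOn G (p ⁻¹' (range s))) (hG' : ∀ e ∈ p ⁻¹' (range s), Complex.exp (G e) = φ e)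
    {u₀ : U} (h₀ : GoodLog p q s φ G L₀ u₀) : LogOn φ univ := by
  have hloc : ∀ u₁, ∃ V : Set U, IsOpen V ∧ u₁ ∈ V ∧ ∀ u ∈ V, ∀ L, GoodLog p q s φ G L u →
      ∃ L' : E → ℂ, ContinuousOn L' (p ⁻¹' (q ⁻¹' V)) ∧ ∀ u' ∈ V, GoodLog p q s φ G L' u' := by
    intro u₁
    obtain ⟨V, hV, hu₁, hVj, hK⟩ := hq.loc u₁
    exact ⟨V, hV, hu₁, fun u hu L hL => GoodLog.extend hp hq hφ hG hG' hVj hu (hK u hu) hL⟩
  have hall : ∀ u, ∃ L, GoodLog p q s φ G L u := by
    have hclopen : IsClopen {u | ∃ L, GoodLog p q s φ G L u} := by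
      constructor
      · rw [← isOpen_compl_iff, isOpen_iff_mem_nhds]
        intro u₁ hu₁
        obtain ⟨V, hV, hu₁V, h⟩ := hloc u₁
        filter_upwards [hV.mem_nhds hu₁V] with u hu
        rintro ⟨L, hL⟩
        obtain ⟨L', -, hL'⟩ := h u hu L hL
        exact hu₁ ⟨L', hL' u₁ hu₁V⟩
      · rw [isOpen_iff_mem_nhds]
        rintro u₁ ⟨L, hL⟩
        obtain ⟨V, hV, hu₁V, h⟩ := hloc u₁
        obtain ⟨L', -, hL'⟩ := h u₁ hu₁V L hL
        filter_upwards [hV.mem_nhds hu₁V] with u hu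
        exact ⟨L', hL' u hu⟩
    have := hclopen.eq_univ ⟨u₀, L₀, h₀⟩
    intro u
    have hu : u ∈ {u | ∃ L, GoodLog p q s φ G L u} := by rw [this]; trivial
    exact hu
  choose L hL using hall
  refine ⟨fun e => L (q (p e)) e, continuousOn_of_local (fun e _ => ?_),
    fun e _ => (hL _).2.1 e rfl⟩
  obtain ⟨V, hV, huV, h⟩ := hloc (q (p e))
  obtain ⟨L', hL'c, hL'⟩ := h _ huV _ (hL _)
  refine ⟨p ⁻¹' (q ⁻¹' V), L', (hV.preimage hq.cont).preimage hp.continuous, huV,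
    hL'c.mono inter_subset_left, fun y hy => ?_⟩
  exact GoodLog.unique hp hq (hL _) (hL' _ hy.1) rfl

/-- finite coverings of the total space of a fibration -/
theorem LogDep.of_fib [PreconnectedSpace U] (hp : IsCoveringMap p) (hq : IsFib q s) (u₀ : U)
    (hfin : (p ⁻¹' {s u₀}).Finite) {N₁ N₂ : ℕ} (h₁ : LogDep (p ⁻¹' (q ⁻¹' {u₀})) N₁)
    (h₂ : LogDep (p ⁻¹' (range s)) N₂) : ∃ N, LogDep E N := by
  classical
  have hF : Finite (p ⁻¹' {s u₀}) := hfin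
  have b1 : Bdd (fun φ : E → ℂ => Nz φ) (fun φ => Nz φ ∧ LogOn φ (p ⁻¹' (q ⁻¹' {u₀}))) N₁ := by
    intro φ hφ
    obtain ⟨a, ha, hlog⟩ := h₁ (fun i (x : p ⁻¹' (q ⁻¹' {u₀})) => φ i x)
      (fun i => ⟨(hφ i).1.comp continuous_subtype_val, fun x => (hφ i).2 _⟩)
    exact ⟨a, ha, Nz.mon hφ a, LogOn.of_subtype hlog⟩
  have b2 : Bdd (fun φ : E → ℂ => Nz φ ∧ LogOn φ (p ⁻¹' (q ⁻¹' {u₀})))
      (fun φ => Nz φ ∧ LogOn φ (p ⁻¹' (q ⁻¹' {u₀})) ∧ LogOn φ (p ⁻¹' (range s))) N₂ := by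
    intro φ hφ
    obtain ⟨a, ha, hlog⟩ := h₂ (fun i (x : p ⁻¹' (range s)) => φ i x)
      (fun i => ⟨(hφ i).1.1.comp continuous_subtype_val, fun x => (hφ i).1.2 _⟩)
    exact ⟨a, ha, Nz.mon (fun i => (hφ i).1) a, LogOn.mon (fun i => (hφ i).2) a,
      LogOn.of_subtype hlog⟩
  have b3 : Bdd (fun φ : E → ℂ => Nz φ ∧ LogOn φ (p ⁻¹' (q ⁻¹' {u₀})) ∧
      LogOn φ (p ⁻¹' (range s))) (fun φ => LogOn φ univ) (Nat.card (p ⁻¹' {s u₀}) + 1) := by
    intro φ hφ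
    have hL : ∀ i, ∃ F : E → ℂ, ContinuousOn F (p ⁻¹' (q ⁻¹' {u₀})) ∧
        ∀ x ∈ p ⁻¹' (q ⁻¹' {u₀}), Complex.exp (F x) = φ i x := fun i => (hφ i).2.1
    have hG : ∀ i, ∃ F : E → ℂ, ContinuousOn F (p ⁻¹' (range s)) ∧
        ∀ x ∈ p ⁻¹' (range s), Complex.exp (F x) = φ i x := fun i => (hφ i).2.2
    choose L hL hL' using hL
    choose G hG hG' using hG
    have hn : ∀ i (x : p ⁻¹' {s u₀}), ∃ n : ℤ, L i x = G i x + n * (2 * Real.pi * Complex.I) := by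
      intro i x
      have hx : p x.1 = s u₀ := x.2
      refine Complex.exp_eq_exp_iff_exists_int.mp ?_
      rw [hL' i x.1 (by show q (p x.1) = u₀; rw [hx, hq.sec]),
        hG' i x.1 (by show p x.1 ∈ range s; rw [hx]; exact ⟨_, rfl⟩)]
    choose n hn using hn
    obtain ⟨a, ha, hrel⟩ := int_dep (Nat.lt_succ_self _) n
    refine ⟨a, ha, ?_⟩
    refine log_of_fib hp hq (φ := L5helper22.mon φ a) (G := fun x => ∑ i, (a i : ℂ) * G i x)
      (L₀ := fun x => ∑ i, (a i : ℂ) * L i x) (Nz.mon (fun i => (hφ i).1) a) ?_ ?_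
      (u₀ := u₀) ⟨?_, ?_, ?_⟩
    · exact continuousOn_finsetSum _ (fun i _ => continuousOn_const.mul (hG i))
    · intro e he
      rw [exp_sum_mul, L5helper22.mon]
      exact Finset.prod_congr rfl (fun i _ => by rw [hG' i e he])
    · exact continuousOn_finsetSum _ (fun i _ => continuousOn_const.mul (hL i))
    · intro e he
      rw [exp_sum_mul, L5helper22.mon]
      exact Finset.prod_congr rfl (fun i _ => by rw [hL' i e he])
    · intro e he
      have h1 : ∀ i, (a i : ℂ) * L i e = (a i : ℂ) * G i e +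
          ((a i * n i ⟨e, he⟩ : ℤ) : ℂ) * (2 * Real.pi * Complex.I) := by
        intro i
        have := hn i ⟨e, he⟩
        simp only at this
        rw [this]
        push_cast
        ring
      simp only
      rw [Finset.sum_congr rfl (fun i _ => h1 i), Finset.sum_add_distrib, ← Finset.sum_mul,
        ← Int.cast_sum, hrel ⟨e, he⟩, Int.cast_zero, zero_mul, add_zero]
  exact ⟨_, (b1.trans b2).trans b3⟩

end

end Pool.Agent.L5helper22
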