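import Mathlib
import Pool.Agent.Y193.FG.Root

/-! The roots of a family of separable polynomials, locally. -/

set_option autoImplicit false

open Topology Set Polynomial

namespace Pool.Agent.L5helper22

/-- a continuous family of monic separable polynomials of degree `n` -/
structure Fam {U : Type*} [TopologicalSpace U] (n : ℕ) (M : U → ℂ[X]) : Prop where
  deg : ∀ u, (M u).natDegree = n
  monic : ∀ u, (M u).Monic
  cont : ∀ i, Continuous fun u => (M u).coeff i
  sep : ∀ u θ, (M u).eval θ = 0 → (M u).derivative.eval θ ≠ 0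

theorem exists_small {n : ℕ} {F : Type*} [NormedAddCommGroup F] {ζ : Fin n → F}
    (hζ : Function.Injective ζ) : ∃ r : ℝ, 0 < r ∧ ∀ i j, i ≠ j → r ≤ ‖ζ i - ζ j‖ := by
  have h : ∀ᶠ r : ℝ in 𝓝[>] 0, ∀ i j, i ≠ j → r ≤ ‖ζ i - ζ j‖ := by
    rw [Filter.eventually_all]
    intro i
    rw [Filter.eventually_all]
    intro j
    by_cases hij : i = j
    · exact Filter.Eventually.of_forall (fun r h => absurd hij h)
    · have hpos : 0 < ‖ζ i - ζ j‖ := norm_pos_iff.mpr (sub_ne_zero.mpr (fun h => hij (hζ h)))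
      filter_upwards [mem_nhdsWithin_of_mem_nhds (Iio_mem_nhds hpos)] with r hr _
      exact le_of_lt hr
  obtain ⟨r, h1, h2⟩ := (h.and self_mem_nhdsWithin).exists
  exact ⟨r, h2, h1⟩

section

variable {U : Type*} [TopologicalSpace U] {n : ℕ} {M : U → ℂ[X]}

theorem Fam.cont_eval (h : Fam n M) : Continuous (fun q : U × ℂ => (M q.1).eval q.2) := by
  have : (fun q : U × ℂ => (M q.1).eval q.2) =
      fun q : U × ℂ => ∑ i ∈ Finset.range (n + 1), (M q.1).coeff i * q.2 ^ i := by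
    funext q
    exact Y193.FG.eval_sum (h.deg _) _
  rw [this]
  exact continuous_finsetSum _ (fun i _ => ((h.cont i).comp continuous_fst).mul
    (continuous_snd.pow i))

theorem Fam.exists_roots (h : Fam n M) (u : U) : ∃ ζ : Fin n → ℂ, Function.Injective ζ ∧
    (∀ i, (M u).eval (ζ i) = 0) ∧ ∀ θ, (M u).eval θ = 0 → ∃ i, θ = ζ i := by
  classical
  have hne : M u ≠ 0 := (h.monic u).ne_zero
  have hs : (M u).Splits := IsAlgClosed.splits _
  have hnd : (M u).roots.Nodup := by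
    rw [Multiset.nodup_iff_count_le_one]
    intro t
    rw [count_roots]
    by_contra hlt
    push Not at hlt
    have := (one_lt_rootMultiplicity_iff_isRoot hne).mp hlt
    exact h.sep u t this.1 this.2
  have hcard : (M u).roots.toFinset.card = n := by
    rw [Multiset.toFinset_card_of_nodup hnd, ← h.deg u]
    exact hs.natDegree_eq_card_roots.symm
  let e := ((M u).roots.toFinset.equivFinOfCardEq hcard).symm
  refine ⟨fun i => (e i).1, fun i j hij => e.injective (Subtype.ext hij), fun i => ?_,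
    fun θ hθ => ?_⟩
  · have := (e i).2
    rw [Multiset.mem_toFinset, mem_roots hne] at this
    exact this
  · have hm : θ ∈ (M u).roots.toFinset := by
      rw [Multiset.mem_toFinset, mem_roots hne]
      exact hθ
    exact ⟨e.symm ⟨θ, hm⟩, by simp⟩

/-- more than `n` roots are impossible -/
theorem Fam.surj_of_inj (h : Fam n M) {u : U} {ρ : Fin n → ℂ} (hρ : Function.Injective ρ)
    (hr : ∀ i, (M u).eval (ρ i) = 0) {θ : ℂ} (hθ : (M u).eval θ = 0) : ∃ i, θ = ρ i := by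
  obtain ⟨ζ, hζ, hζ0, hζs⟩ := h.exists_roots u
  choose τ hτ using fun i => hζs (ρ i) (hr i)
  have hinj : Function.Injective τ := by
    intro i j hij
    apply hρ
    rw [hτ i, hτ j, hij]
  obtain ⟨k, hk⟩ := hζs θ hθ
  obtain ⟨i, hi⟩ := (Finite.injective_iff_surjective.mp hinj) k
  exact ⟨i, by rw [hk, hτ i, hi]⟩

theorem Fam.local_roots (h : Fam n M) (u₁ : U) : ∃ (V : Set U) (ζ : Fin n → U → ℂ),
    IsOpen V ∧ u₁ ∈ V ∧ (∀ i, ContinuousOn (ζ i) V) ∧ (∀ u ∈ V, ∀ i, (M u).eval (ζ i u) = 0) ∧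
    (∀ u ∈ V, Function.Injective (fun i => ζ i u)) ∧
    ∀ u ∈ V, ∀ θ, (M u).eval θ = 0 → ∃ i, θ = ζ i u := by
  classical
  obtain ⟨ζ₀, hinj, hroot, -⟩ := h.exists_roots u₁
  obtain ⟨r, hr, hsep⟩ := exists_small hinj
  have hε : 0 < r / 4 := by positivity
  have hce : ∀ θ : ℂ, Continuous (fun u => (M u).eval θ) := fun θ =>
    h.cont_eval.comp (continuous_id.prodMk continuous_const)
  let V : Set U := ⋂ i, {u | ‖(M u).eval (ζ₀ i)‖ < (r / 4) ^ n}
  have hVo : IsOpen V := isOpen_iInter_of_finite (fun i =>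
    isOpen_lt (hce _).norm continuous_const)
  have hex : ∀ i u, ∃ θ, u ∈ V → (M u).eval θ = 0 ∧ dist θ (ζ₀ i) < r / 4 := by
    intro i u
    by_cases hu : u ∈ V
    · obtain ⟨θ, h1, h2⟩ := Y193.FG.exists_root_near (h.monic u) (h.deg u) (ζ₀ i) hε
        (mem_iInter.mp hu i)
      exact ⟨θ, fun _ => ⟨h1, h2⟩⟩
    · exact ⟨0, fun h => absurd h hu⟩
  choose ζ hζ using hex
  have hinjV : ∀ u ∈ V, Function.Injective (fun i => ζ i u) := by
    intro u hu i j hij
    by_contra hne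
    have h1 := (hζ i u hu).2
    have h2 := (hζ j u hu).2
    simp only at hij
    rw [hij] at h1
    have h3 := hsep i j hne
    have h4 : ‖ζ₀ i - ζ₀ j‖ < r / 4 + r / 4 := by
      rw [← dist_eq_norm]
      calc dist (ζ₀ i) (ζ₀ j) ≤ dist (ζ₀ i) (ζ j u) + dist (ζ j u) (ζ₀ j) := dist_triangle _ _ _
        _ < r / 4 + r / 4 := by rw [dist_comm (ζ₀ i)]; exact add_lt_add h1 h2
    linarith
  have hsurj : ∀ u ∈ V, ∀ θ, (M u).eval θ = 0 → ∃ i, θ = ζ i u := fun u hu θ hθ =>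
    h.surj_of_inj (hinjV u hu) (fun i => (hζ i u hu).1) hθ
  refine ⟨V, ζ, hVo, ?_, ?_, fun u hu i => (hζ i u hu).1, hinjV, hsurj⟩
  · refine mem_iInter.mpr (fun i => ?_)
    simp only [mem_ofPred_eq, hroot i, norm_zero]
    positivity
  · intro i u₂ hu₂
    rw [Metric.continuousWithinAt_iff']
    intro η hη
    have hd := (hζ i u₂ hu₂).2
    obtain ⟨η', hη', hη'1, hη'2⟩ : ∃ η', 0 < η' ∧ η' ≤ η ∧ η' + dist (ζ i u₂) (ζ₀ i) < r / 4 :=
      ⟨min η ((r / 4 - dist (ζ i u₂) (ζ₀ i)) / 2), lt_min hη (by linarith), min_le_left _ _, by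
        have := min_le_right η ((r / 4 - dist (ζ i u₂) (ζ₀ i)) / 2)
        linarith⟩
    have hev : ∀ᶠ u in 𝓝 u₂, ‖(M u).eval (ζ i u₂)‖ < η' ^ n := by
      have h1 : ‖(M u₂).eval (ζ i u₂)‖ < η' ^ n := by
        rw [(hζ i u₂ hu₂).1, norm_zero]
        positivity
      exact (hce _).norm.continuousAt.eventually_lt continuousAt_const h1
    filter_upwards [mem_nhdsWithin_of_mem_nhds hev, self_mem_nhdsWithin] with u hu huV
    obtain ⟨θ, h1, h2⟩ := Y193.FG.exists_root_near (h.monic u) (h.deg u) (ζ i u₂) hη' hu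
    obtain ⟨j, hj⟩ := hsurj u huV θ h1
    have h3 : dist θ (ζ₀ i) < r / 4 := by
      calc dist θ (ζ₀ i) ≤ dist θ (ζ i u₂) + dist (ζ i u₂) (ζ₀ i) := dist_triangle _ _ _
        _ < η' + dist (ζ i u₂) (ζ₀ i) := by linarith
        _ < r / 4 := hη'2
    have hji : j = i := by
      by_contra hne
      have h4 := (hζ j u huV).2
      rw [← hj] at h4
      have h5 := hsep j i hne
      have h6 : ‖ζ₀ j - ζ₀ i‖ < r / 4 + r / 4 := by
        rw [← dist_eq_norm]
        calc dist (ζ₀ j) (ζ₀ i) ≤ dist (ζ₀ j) θ + dist θ (ζ₀ i) := dist_triangle _ _ _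
          _ < r / 4 + r / 4 := by rw [dist_comm (ζ₀ j)]; exact add_lt_add h4 h3
      linarith
    rw [hji] at hj
    rw [← hj]
    exact lt_of_lt_of_le h2 hη'1

/-- a bound for the roots -/
theorem root_bound {Q : ℂ[X]} (hm : Q.Monic) {n : ℕ} (hn : Q.natDegree = n) {θ : ℂ}
    (h : Q.eval θ = 0) : ‖θ‖ < 1 + ∑ i ∈ Finset.range n, ‖Q.coeff i‖ := by
  by_contra hlt
  push Not at hlt
  have hC0 : 0 ≤ ∑ i ∈ Finset.range n, ‖Q.coeff i‖ :=
    Finset.sum_nonneg (fun i _ => norm_nonneg _)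
  have h1 : 1 ≤ ‖θ‖ := by linarith
  have h2 := Y193.FG.eval_sum hn θ
  rw [h, Finset.sum_range_succ, show Q.coeff n = 1 by
    rw [← hn]; exact hm.coeff_natDegree, one_mul] at h2
  rcases Nat.eq_zero_or_pos n with h0 | hpos
  · subst h0
    simp at h2
  have h3 : ‖θ‖ ^ n ≤ (∑ i ∈ Finset.range n, ‖Q.coeff i‖) * ‖θ‖ ^ (n - 1) := by
    have : θ ^ n = - ∑ i ∈ Finset.range n, Q.coeff i * θ ^ i := by
      linear_combination -h2
    calc ‖θ‖ ^ n = ‖∑ i ∈ Finset.range n, Q.coeff i * θ ^ i‖ := by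
          rw [← norm_pow, this, norm_neg]
      _ ≤ ∑ i ∈ Finset.range n, ‖Q.coeff i‖ * ‖θ‖ ^ (n - 1) := by
          refine (norm_sum_le _ _).trans (Finset.sum_le_sum (fun i hi => ?_))
          rw [norm_mul, norm_pow]
          refine mul_le_mul_of_nonneg_left ?_ (norm_nonneg _)
          exact pow_le_pow_right₀ h1 (by rw [Finset.mem_range] at hi; omega)
      _ = _ := by rw [← Finset.sum_mul]
  have h4 : ‖θ‖ ^ n = ‖θ‖ * ‖θ‖ ^ (n - 1) := by
    rw [← pow_succ']
    congr 1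
    omega
  rw [h4] at h3
  have := le_of_mul_le_mul_right h3 (by positivity)
  linarith

end

end Pool.Agent.L5helper22
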