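import Mathlib
import Pool.Agent.L5helper22.RootF
import Pool.Agent.L5helper22.Fib
import Pool.Agent.Y193.FG.One

/-! The complement of the roots of a family of polynomials is a fibration. -/

set_option autoImplicit false

open Topology Set Polynomial unitInterval

namespace Pool.Agent.L5helper22

section

variable {F : Type*} [NormedAddCommGroup F] [NormedSpace ℝ F] {O : Set F} {n : ℕ} {M : O → ℂ[X]}

/-- the complement of the roots -/
abbrev Tot (M : O → ℂ[X]) : Type _ := {b : ℂ × O // (M b.2).eval b.1 ≠ 0}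

/-- the projection -/
def qT (M : O → ℂ[X]) (b : Tot M) : O := b.1.2

theorem sT_aux (h : Fam n M) (u : O) :
    (M u).eval (((1 + ∑ i ∈ Finset.range n, ‖(M u).coeff i‖ : ℝ)) : ℂ) ≠ 0 := by
  intro h0
  have h1 := root_bound (h.monic u) (h.deg u) h0
  have hC0 : 0 ≤ ∑ i ∈ Finset.range n, ‖(M u).coeff i‖ :=
    Finset.sum_nonneg (fun i _ => norm_nonneg _)
  rw [Complex.norm_real, Real.norm_eq_abs, abs_of_nonneg (by linarith)] at h1
  exact lt_irrefl _ h1

/-- the section -/
noncomputable def sT (h : Fam n M) (u : O) : Tot M :=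
  ⟨(((1 + ∑ i ∈ Finset.range n, ‖(M u).coeff i‖ : ℝ) : ℂ), u), sT_aux h u⟩

/-- the bump -/
noncomputable def bump (x : ℝ) : ℝ := max (1 - x) 0

theorem bump_lip (x y : ℝ) : |bump x - bump y| ≤ |x - y| := by
  refine (abs_max_sub_max_le_abs _ _ _).trans ?_
  rw [show 1 - x - (1 - y) = -(x - y) by ring, abs_neg]

theorem bump_zero : bump 0 = 1 := by simp [bump]

theorem bump_of_one_le {x : ℝ} (hx : 1 ≤ x) : bump x = 0 := by
  simp [bump, hx]

theorem bump_continuous : Continuous bump :=
  (continuous_const.sub continuous_id).max continuous_const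

/-- the transport of the roots -/
noncomputable def Th (r : ℝ) (a b : Fin n → ℂ) (z : ℂ) : ℂ :=
  z + ∑ i, (bump (‖z - a i‖ / r) : ℂ) * (b i - a i)

theorem Th_self (r : ℝ) (a : Fin n → ℂ) (z : ℂ) : Th r a a z = z := by simp [Th]

theorem Th_root {r : ℝ} (hr : 0 < r) {a b : Fin n → ℂ}
    (hsep : ∀ i j, i ≠ j → r ≤ ‖a i - a j‖) (i : Fin n) : Th r a b (a i) = b i := by
  rw [Th, Finset.sum_eq_single i]
  · simp [bump_zero]
  · intro j _ hj
    have : 1 ≤ ‖a i - a j‖ / r := by
      rw [one_le_div hr]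
      exact hsep i j (Ne.symm hj)
    rw [bump_of_one_le this]
    simp
  · simp

theorem Th_inj {r : ℝ} (hr : 0 < r) {a b : Fin n → ℂ} (hab : ∑ i, ‖b i - a i‖ ≤ r / 2)
    {z w : ℂ} (h : Th r a b z = Th r a b w) : z = w := by
  have h1 : z - w = ∑ i, ((bump (‖w - a i‖ / r) - bump (‖z - a i‖ / r) : ℝ) : ℂ) * (b i - a i) := by
    have e : ∑ i, ((bump (‖w - a i‖ / r) - bump (‖z - a i‖ / r) : ℝ) : ℂ) * (b i - a i) =
        ∑ i, (bump (‖w - a i‖ / r) : ℂ) * (b i - a i) -
          ∑ i, (bump (‖z - a i‖ / r) : ℂ) * (b i - a i) := by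
      rw [← Finset.sum_sub_distrib]
      refine Finset.sum_congr rfl (fun i _ => ?_)
      push_cast
      ring
    rw [e]
    unfold Th at h
    linear_combination h
  have h2 : ‖z - w‖ ≤ ∑ i, ‖z - w‖ / r * ‖b i - a i‖ := by
    calc ‖z - w‖ = ‖∑ i, ((bump (‖w - a i‖ / r) - bump (‖z - a i‖ / r) : ℝ) : ℂ) *
          (b i - a i)‖ := by rw [← h1]
      _ ≤ ∑ i, ‖z - w‖ / r * ‖b i - a i‖ := by
          refine (norm_sum_le _ _).trans (Finset.sum_le_sum (fun i _ => ?_))
          rw [norm_mul]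
          refine mul_le_mul_of_nonneg_right ?_ (norm_nonneg _)
          rw [Complex.norm_real, Real.norm_eq_abs]
          refine (bump_lip _ _).trans ?_
          rw [← sub_div, abs_div, abs_of_pos hr]
          refine div_le_div_of_nonneg_right ?_ hr.le
          have := abs_norm_sub_norm_le (w - a i) (z - a i)
          rwa [show w - a i - (z - a i) = -(z - w) by ring, norm_neg] at this
  rw [← Finset.mul_sum] at h2
  have h3 : ‖z - w‖ / r * ∑ i, ‖b i - a i‖ ≤ ‖z - w‖ / r * (r / 2) :=
    mul_le_mul_of_nonneg_left hab (by positivity)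
  have h4 : ‖z - w‖ / r * (r / 2) = ‖z - w‖ / 2 := by
    field_simp
  have h5 : ‖z - w‖ = 0 := le_antisymm (by linarith) (norm_nonneg _)
  exact sub_eq_zero.mp (norm_eq_zero.mp h5)

theorem isFib_tot (hO : IsOpen O) (h : Fam n M) : IsFib (qT M) (sT h) where
  cont := continuous_snd.comp continuous_subtype_val
  contS := by
    refine Continuous.subtype_mk (Continuous.prodMk ?_ continuous_id) _
    refine Complex.continuous_ofReal.comp (continuous_const.add ?_)
    exact continuous_finsetSum _ (fun i _ => (h.cont i).norm)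
  sec := fun _ => rfl
  fib := by
    rintro u ⟨⟨z, u'⟩, hz⟩ hu ⟨⟨w, u''⟩, hw⟩ hu'
    have e1 : u' = u := hu
    have e2 : u'' = u := hu'
    subst e1
    subst e2
    have hd : DifferentiableOn ℂ (fun z => (M u'').eval z) univ :=
      (M u'').differentiable.differentiableOn
    obtain ⟨p, hp⟩ := Y193.FG.joined_ne_zero isOpen_univ convex_univ hd (mem_univ z) (mem_univ w)
      hz hw
    refine ⟨{ toFun := fun t => ⟨(p t, u''), (hp t).2⟩
              continuous_toFun := Continuous.subtype_mk (p.continuous.prodMk continuous_const) _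
              source' := by simp
              target' := by simp }, fun t => rfl⟩
  loc := by
    intro u₁
    obtain ⟨V₀, ζ, hV₀, hu₁, hc, hroot, hinj, hsurj⟩ := h.local_roots u₁
    obtain ⟨r₀, hr₀, hsep⟩ := exists_small (hinj u₁ hu₁)
    obtain ⟨r, hr⟩ : ∃ r, r = r₀ / 2 := ⟨_, rfl⟩
    have hrpos : 0 < r := by rw [hr]; positivity
    obtain ⟨δ, hδ⟩ : ∃ δ : ℝ, δ = r / (4 * (n + 1)) := ⟨_, rfl⟩
    have hn1 : (0 : ℝ) < 4 * (n + 1) := by positivity
    have hδpos : 0 < δ := by rw [hδ]; positivity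
    have hev : ∀ᶠ u in 𝓝 u₁, u ∈ V₀ ∧ ∀ i, ‖ζ i u - ζ i u₁‖ < δ := by
      refine Filter.Eventually.and (hV₀.mem_nhds hu₁) ?_
      rw [Filter.eventually_all]
      intro i
      have h1 : ContinuousAt (fun u => ‖ζ i u - ζ i u₁‖) u₁ :=
        (((hc i).continuousAt (hV₀.mem_nhds hu₁)).sub continuousAt_const).norm
      exact h1.eventually_lt continuousAt_const (by simpa using hδpos)
    obtain ⟨ρ₁, hρ₁, hb₁⟩ := Metric.eventually_nhds_iff_ball.mp hev
    obtain ⟨ρ₂, hρ₂, hb₂⟩ := Metric.isOpen_iff.mp hO u₁.1 u₁.2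
    obtain ⟨ρ, hρ⟩ : ∃ ρ, ρ = min ρ₁ ρ₂ := ⟨_, rfl⟩
    have hρpos : 0 < ρ := by rw [hρ]; exact lt_min hρ₁ hρ₂
    have hbO : Metric.ball u₁.1 ρ ⊆ O := (Metric.ball_subset_ball (by
      rw [hρ]; exact min_le_right _ _)).trans hb₂
    let V : Set O := {u | u.1 ∈ Metric.ball u₁.1 ρ}
    have hVV : ∀ u ∈ V, u ∈ V₀ ∧ ∀ i, ‖ζ i u - ζ i u₁‖ < δ := by
      intro u hu
      apply hb₁
      have : dist u.1 u₁.1 < ρ := hu
      have h2 : dist u u₁ < ρ₁ := lt_of_lt_of_le this (by rw [hρ]; exact min_le_left _ _)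
      exact h2
    have hline : ∀ x ∈ V, ∀ y ∈ V, ∀ t : I, AffineMap.lineMap x.1 y.1 (t : ℝ) ∈
        Metric.ball u₁.1 ρ := fun x hx y hy t =>
      (convex_ball _ _).lineMap_mem hx hy t.2
    have hsepV : ∀ u ∈ V, ∀ i j, i ≠ j → r ≤ ‖ζ i u - ζ j u‖ := by
      intro u hu i j hij
      have h1 := hsep i j hij
      have h2 := (hVV u hu).2 i
      have h3 := (hVV u hu).2 j
      have h4 : ‖ζ i u₁ - ζ j u₁‖ ≤ ‖ζ i u - ζ j u‖ + ‖ζ i u - ζ i u₁‖ + ‖ζ j u - ζ j u₁‖ := by
        calc ‖ζ i u₁ - ζ j u₁‖ = ‖(ζ i u - ζ j u) - (ζ i u - ζ i u₁) + (ζ j u - ζ j u₁)‖ := by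
              congr 1; ring
          _ ≤ _ := (norm_add_le _ _).trans (add_le_add_left (norm_sub_le _ _) _)
      have h5 : δ ≤ r / 4 := by
        rw [hδ]
        refine div_le_div_of_nonneg_left hrpos.le (by norm_num) ?_
        have : (0 : ℝ) ≤ n := Nat.cast_nonneg n
        linarith
      linarith
    have hsum : ∀ u ∈ V, ∀ u' ∈ V, ∑ i, ‖ζ i u' - ζ i u‖ ≤ r / 2 := by
      intro u hu u' hu'
      have h1 : ∀ i ∈ Finset.univ, ‖ζ i u' - ζ i u‖ ≤ 2 * δ := by
        intro i _
        have h2 := (hVV u hu).2 i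
        have h3 := (hVV u' hu').2 i
        calc ‖ζ i u' - ζ i u‖ = ‖(ζ i u' - ζ i u₁) - (ζ i u - ζ i u₁)‖ := by congr 1; ring
          _ ≤ _ := norm_sub_le _ _
          _ ≤ 2 * δ := by linarith
      refine (Finset.sum_le_card_nsmul _ _ _ h1).trans ?_
      rw [Finset.card_univ, Fintype.card_fin, nsmul_eq_mul, hδ]
      rw [show (n : ℝ) * (2 * (r / (4 * (n + 1)))) = (r / 2) * (n / (n + 1)) by
        field_simp; ring]
      have h4 : (n : ℝ) / (n + 1) ≤ 1 := by
        rw [div_le_one (by positivity)]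
        linarith
      have h5 := mul_le_mul_of_nonneg_left h4 (by positivity : 0 ≤ r / 2)
      linarith
    refine ⟨V, Metric.isOpen_ball.preimage continuous_subtype_val, Metric.mem_ball_self hρpos,
      ?_, ?_⟩
    · intro x hx y hy
      refine ⟨{ toFun := fun t => ⟨AffineMap.lineMap x.1 y.1 (t : ℝ), hbO (hline x hx y hy t)⟩
                continuous_toFun := Continuous.subtype_mk
                  (AffineMap.lineMap_continuous.comp continuous_subtype_val) _
                source' := by apply Subtype.ext; simp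
                target' := by apply Subtype.ext; simp }, fun t => hline x hx y hy t⟩
    · intro u hu
      -- the moving base point
      let ut : I × (qT M ⁻¹' V) → O := fun x =>
        ⟨AffineMap.lineMap x.2.1.1.2.1 u.1 (x.1 : ℝ), hbO (hline _ x.2.2 _ hu _)⟩
      have hutV : ∀ x, ut x ∈ V := fun x => hline _ x.2.2 _ hu _
      have hutc : Continuous ut := by
        refine Continuous.subtype_mk ?_ _
        simp only [AffineMap.lineMap_apply_module]
        fun_prop
      have hbase : Continuous (fun x : I × (qT M ⁻¹' V) => x.2.1.1.2) := by fun_prop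
      have hbV : ∀ x : I × (qT M ⁻¹' V), x.2.1.1.2 ∈ V := fun x => x.2.2
      let z' : I × (qT M ⁻¹' V) → ℂ := fun x =>
        Th r (fun i => ζ i x.2.1.1.2) (fun i => ζ i (ut x)) x.2.1.1.1
      have hz'c : Continuous z' := by
        have hζ1 : ∀ i, Continuous (fun x : I × (qT M ⁻¹' V) => ζ i x.2.1.1.2) := fun i =>
          (hc i).comp_continuous hbase (fun x => (hVV _ (hbV x)).1)
        have hζ2 : ∀ i, Continuous (fun x : I × (qT M ⁻¹' V) => ζ i (ut x)) := fun i =>
          (hc i).comp_continuous hutc (fun x => (hVV _ (hutV x)).1)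
        have hz : Continuous (fun x : I × (qT M ⁻¹' V) => x.2.1.1.1) := by fun_prop
        refine hz.add (continuous_finsetSum _ (fun i _ => Continuous.mul ?_ ((hζ2 i).sub (hζ1 i))))
        exact Complex.continuous_ofReal.comp (bump_continuous.comp
          (((hz.sub (hζ1 i)).norm).div_const _))
      have hne : ∀ x, (M (ut x)).eval (z' x) ≠ 0 := by
        intro x h0
        obtain ⟨i, hi⟩ := hsurj _ (hVV _ (hutV x)).1 _ h0
        have h1 : Th r (fun i => ζ i x.2.1.1.2) (fun i => ζ i (ut x)) (ζ i x.2.1.1.2) =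
            ζ i (ut x) := Th_root hrpos (hsepV _ (hbV x)) i
        rw [← hi] at h1
        have h2 := Th_inj hrpos (hsum _ (hbV x) _ (hutV x)) h1
        apply x.2.1.2
        rw [← h2]
        exact hroot _ (hVV _ (hbV x)).1 i
      refine ⟨⟨fun x => ⟨⟨(z' x, ut x), hne x⟩, hutV x⟩, ?_⟩, ?_, ?_, ?_⟩
      · exact Continuous.subtype_mk (Continuous.subtype_mk (hz'c.prodMk hutc) _) _
      · intro b
        apply Subtype.ext
        apply Subtype.ext
        have h1 : ut (0, b) = b.1.1.2 := by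
          apply Subtype.ext
          simp [ut]
        refine Prod.ext ?_ h1
        show Th r _ (fun i => ζ i (ut (0, b))) _ = _
        rw [h1]
        exact Th_self _ _ _
      · intro b
        apply Subtype.ext
        simp [qT, ut]
      · intro b hb t
        have hb' : b.1.1.2 = u := hb
        apply Subtype.ext
        apply Subtype.ext
        have h1 : ut (t, b) = b.1.1.2 := by
          apply Subtype.ext
          simp [ut, hb']
        refine Prod.ext ?_ h1
        show Th r _ (fun i => ζ i (ut (t, b))) _ = _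
        rw [h1]
        exact Th_self _ _ _

end

end Pool.Agent.L5helper22
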