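import Mathlib
import Pool.Agent.L5helper22.Tot
import Pool.Agent.L5helper22.Alg
import Pool.Agent.L5helper22.Thn
import Pool.Agent.Y193.FG.Fin

/-! Finite coverings of the complement of a hypersurface. -/

set_option autoImplicit false

open Topology Set Polynomial

namespace Pool.Agent.L5helper22

/-- points outside a hypersurface -/
abbrev Wd {s : ℕ} (δ : MvPolynomial (Fin s) ℂ) : Type :=
  {w : Fin s → ℂ // MvPolynomial.eval w δ ≠ 0}

theorem evalD {s : ℕ} (δ : MvPolynomial (Fin s) ℂ) :
    Differentiable ℂ (fun w : Fin s → ℂ => MvPolynomial.eval w δ) :=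
  Y193.FG.differentiable_eval δ

theorem exists_eval_ne {s : ℕ} {δ : MvPolynomial (Fin s) ℂ} (h : δ ≠ 0) :
    ∃ w : Fin s → ℂ, MvPolynomial.eval w δ ≠ 0 := by
  by_contra hcon
  push Not at hcon
  exact h (MvPolynomial.funext (fun w => by rw [hcon w, map_zero]))

theorem isOpen_Wd {s : ℕ} (δ : MvPolynomial (Fin s) ℂ) :
    IsOpen {w : Fin s → ℂ | MvPolynomial.eval w δ ≠ 0} :=
  isOpen_ne_fun (evalD δ).continuous continuous_const

theorem preconn_Wd {s : ℕ} (δ : MvPolynomial (Fin s) ℂ) :
    IsPreconnected {w : Fin s → ℂ | MvPolynomial.eval w δ ≠ 0} := by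
  have := isPreconnected_ne_zero isOpen_univ convex_univ (evalD δ).differentiableOn
  simpa using this

/-- the model of a polynomial in one more variable -/
theorem exists_model {s : ℕ} {δ : MvPolynomial (Fin (s + 1)) ℂ} (hδ : δ ≠ 0) :
    ∃ D : MvPolynomial (Fin s) ℂ, D ≠ 0 ∧
      ∃ (n : ℕ) (M : {w : Fin s → ℂ | MvPolynomial.eval w D ≠ 0} → ℂ[X]), Fam n M ∧
        ∀ u θ, (M u).eval θ ≠ 0 ↔ MvPolynomial.eval (Fin.cons θ u.1 : Fin (s + 1) → ℂ) δ ≠ 0 := by
  have hf : MvPolynomial.finSuccEquiv ℂ s δ ≠ 0 := by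
    rw [Ne, EmbeddingLike.map_eq_zero_iff]; exact hδ
  obtain ⟨P, hP, ⟨d₁, hd₁, g, h1⟩, ⟨d₂, hd₂, N, h, h2⟩, ⟨d₃, hd₃, a, b, h3⟩⟩ := sqfree_model hf
  have hlc : P.leadingCoeff ≠ 0 := leadingCoeff_ne_zero.mpr hP
  have hev : ∀ (θ : ℂ) (u : Fin s → ℂ), MvPolynomial.eval (Fin.cons θ u : Fin (s + 1) → ℂ) δ =
      (((MvPolynomial.finSuccEquiv ℂ s δ).map (MvPolynomial.eval u))).eval θ := fun θ u =>
    MvPolynomial.eval_eq_eval_mv_eval' _ _ _
  refine ⟨d₁ * d₂ * d₃ * P.leadingCoeff, mul_ne_zero (mul_ne_zero (mul_ne_zero hd₁ hd₂) hd₃) hlc,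
    P.natDegree, fun u => C (MvPolynomial.eval u.1 P.leadingCoeff)⁻¹ *
      P.map (MvPolynomial.eval u.1), ?_, ?_⟩
  · have hnz : ∀ u : {w : Fin s → ℂ | MvPolynomial.eval w (d₁ * d₂ * d₃ * P.leadingCoeff) ≠ 0},
        MvPolynomial.eval u.1 P.leadingCoeff ≠ 0 ∧ MvPolynomial.eval u.1 d₃ ≠ 0 := by
      intro u
      have := u.2
      simp only [mem_ofPred_eq, map_mul, mul_ne_zero_iff] at this
      exact ⟨this.2, this.1.2⟩
    refine ⟨fun u => ?_, fun u => ?_, fun i => ?_, fun u θ hθ hθ' => ?_⟩
    · rw [natDegree_C_mul (inv_ne_zero (hnz u).1),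
        natDegree_map_of_leadingCoeff_ne_zero _ (hnz u).1]
    · rw [Monic, leadingCoeff_mul, leadingCoeff_C,
        leadingCoeff_map_of_leadingCoeff_ne_zero _ (hnz u).1, inv_mul_cancel₀ (hnz u).1]
    · simp only [coeff_C_mul, coeff_map]
      refine Continuous.mul (Continuous.inv₀ ?_ (fun u => (hnz u).1)) ?_
      · exact (evalD _).continuous.comp continuous_subtype_val
      · exact (evalD _).continuous.comp continuous_subtype_val
    · simp only [eval_mul, eval_C, mul_eq_zero, inv_eq_zero, (hnz u).1, false_or,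
        derivative_C_mul] at hθ hθ'
      have h4 := congrArg (fun q => (q.map (MvPolynomial.eval u.1)).eval θ) h3
      simp only [Polynomial.map_add, Polynomial.map_mul, eval_add, eval_mul, map_C, eval_C, hθ,
        mul_zero, zero_add, ← derivative_map, hθ'] at h4
      exact (hnz u).2 h4.symm
  · intro u θ
    have hu := u.2
    simp only [mem_ofPred_eq, map_mul, mul_ne_zero_iff] at hu
    rw [hev, eval_mul, eval_C, mul_ne_zero_iff]
    have e1 := congrArg (fun q => (q.map (MvPolynomial.eval u.1)).eval θ) h1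
    have e2 := congrArg (fun q => (q.map (MvPolynomial.eval u.1)).eval θ) h2
    simp only [Polynomial.map_mul, eval_mul, map_C, eval_C, Polynomial.map_pow, eval_pow] at e1 e2
    constructor
    · rintro ⟨-, h5⟩ h6
      rw [h6, zero_mul] at e2
      rcases mul_eq_zero.mp e2 with h7 | h7
      · exact hu.1.1.2 h7
      · exact h5 (eq_zero_of_pow_eq_zero h7)
    · intro h5
      refine ⟨inv_ne_zero hu.2, fun h6 => h5 ?_⟩
      rw [h6, zero_mul] at e1
      rcases mul_eq_zero.mp e1 with h7 | h7
      · exact absurd h7 hu.1.1.1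
      · exact h7

/-- the total space as an open subset -/
noncomputable def totHomeo {s : ℕ} {δ : MvPolynomial (Fin (s + 1)) ℂ} {D : MvPolynomial (Fin s) ℂ}
    {M : {w : Fin s → ℂ | MvPolynomial.eval w D ≠ 0} → ℂ[X]}
    (h : ∀ u θ, (M u).eval θ ≠ 0 ↔ MvPolynomial.eval (Fin.cons θ u.1 : Fin (s + 1) → ℂ) δ ≠ 0) :
    {w : Wd δ | MvPolynomial.eval (Fin.tail w.1) D ≠ 0} ≃ₜ Tot M where
  toFun w := ⟨(w.1.1 0, ⟨Fin.tail w.1.1, w.2⟩), (h _ _).mpr (by
    simp only [Fin.cons_self_tail]
    exact w.1.2)⟩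
  invFun b := ⟨⟨Fin.cons b.1.1 b.1.2.1, (h _ _).mp b.2⟩, by
    simp only [mem_ofPred_eq, Fin.tail_cons]
    exact b.1.2.2⟩
  left_inv w := by
    apply Subtype.ext
    apply Subtype.ext
    exact Fin.cons_self_tail _
  right_inv b := by
    apply Subtype.ext
    refine Prod.ext ?_ ?_
    · rfl
    · apply Subtype.ext
      exact Fin.tail_cons (α := fun _ => ℂ) b.1.1 b.1.2.1
  continuous_toFun := by
    refine Continuous.subtype_mk (Continuous.prodMk ?_ (Continuous.subtype_mk ?_ _)) _
    · exact (continuous_apply 0).comp (continuous_subtype_val.comp continuous_subtype_val)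
    · refine continuous_pi (fun i => ?_)
      exact (continuous_apply i.succ).comp (continuous_subtype_val.comp continuous_subtype_val)
  continuous_invFun := by
    refine Continuous.subtype_mk (Continuous.subtype_mk ?_ _) _
    refine continuous_pi (fun i => ?_)
    refine Fin.cases ?_ (fun j => ?_) i
    · simp only [Fin.cons_zero]
      exact continuous_fst.comp continuous_subtype_val
    · simp only [Fin.cons_succ]
      exact (continuous_apply j).comp (continuous_subtype_val.comp
        (continuous_snd.comp continuous_subtype_val))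

/-- coverings with finite fibres -/
def FinCov {E B : Type*} [TopologicalSpace E] [TopologicalSpace B] (p : E → B) : Prop :=
  IsCoveringMap p ∧ ∀ b, (p ⁻¹' {b}).Finite

section

variable {E B B' : Type*} [TopologicalSpace E] [TopologicalSpace B] [TopologicalSpace B']
  {p : E → B}

theorem FinCov.restrict (h : FinCov p) (S : Set B) : FinCov (S.restrictPreimage p) := by
  refine ⟨h.1.restrictPreimage S, fun b => ?_⟩
  refine ((h.2 b.1).preimage Subtype.val_injective.injOn).subset ?_
  intro x hx
  have : S.restrictPreimage p x = b := hx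
  show p x.1 = b.1
  rw [← this]; rfl

theorem FinCov.homeo (h : FinCov p) (e : B ≃ₜ B') : FinCov (e ∘ p) := by
  refine ⟨h.1.homeomorph_comp e, fun b => ?_⟩
  refine (h.2 (e.symm b)).subset ?_
  intro x hx
  have : e (p x) = b := hx
  show p x = e.symm b
  rw [← this]; simp

end

theorem ind : ∀ (s : ℕ) (δ : MvPolynomial (Fin s) ℂ), δ ≠ 0 → ∀ {E : Type} [TopologicalSpace E]
    (p : E → Wd δ), FinCov p → ∃ N, LogDep E N := by
  intro s
  induction s with
  | zero =>
    intro δ hδ E _ p hp
    obtain ⟨w, hw⟩ := exists_eval_ne hδ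
    let e : Wd δ ≃ₜ Unit :=
      { toFun := fun _ => ()
        invFun := fun _ => ⟨w, hw⟩
        left_inv := fun x => Subtype.ext (Subsingleton.elim _ _)
        right_inv := fun x => rfl
        continuous_toFun := continuous_const
        continuous_invFun := continuous_const }
    have : ContractibleSpace (Wd δ) := e.contractibleSpace
    refine ⟨1, fun φ hφ => ⟨fun _ => 1, ?_, ?_⟩⟩
    · intro h
      have := congrFun h 0
      simp at this
    · have h1 := log_of_contractible hp.1 (hφ 0)
      refine h1.congr (fun x _ => ?_)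
      simp [mon]
  | succ s ih =>
    intro δ hδ E _ p hp
    obtain ⟨D, hD, n, M, hM, hMe⟩ := exists_model hδ
    have hpre : PreconnectedSpace {w : Fin s → ℂ | MvPolynomial.eval w D ≠ 0} :=
      isPreconnected_iff_preconnectedSpace.mp (preconn_Wd D)
    obtain ⟨u₀, hu₀⟩ := exists_eval_ne hD
    have hp' : FinCov (totHomeo hMe ∘
        ({w : Wd δ | MvPolynomial.eval (Fin.tail w.1) D ≠ 0} : Set (Wd δ)).restrictPreimage p) :=
      (hp.restrict _).homeo _
    have hq := isFib_tot (isOpen_Wd D) hM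
    -- the fibre
    have h₁ : ∃ N, LogDep ((totHomeo hMe ∘
        ({w : Wd δ | MvPolynomial.eval (Fin.tail w.1) D ≠ 0} : Set (Wd δ)).restrictPreimage p) ⁻¹'
        (qT M ⁻¹' {⟨u₀, hu₀⟩})) N := by
      have hc := hp'.restrict (qT M ⁻¹' {⟨u₀, hu₀⟩})
      have hZ : {z : ℂ | (M ⟨u₀, hu₀⟩).eval z = 0}.Finite :=
        Polynomial.finite_setOfPred_isRoot (hM.monic _).ne_zero
      let e : (qT M ⁻¹' {⟨u₀, hu₀⟩} : Set (Tot M)) ≃ₜ
          {z : ℂ // z ∉ {z : ℂ | (M ⟨u₀, hu₀⟩).eval z = 0}} :=
        { toFun := fun b => ⟨b.1.1.1, by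
            have h1 := b.1.2
            have h2 : b.1.1.2 = ⟨u₀, hu₀⟩ := b.2
            rw [h2] at h1
            exact h1⟩
          invFun := fun z => ⟨⟨(z.1, ⟨u₀, hu₀⟩), z.2⟩, rfl⟩
          left_inv := fun b => by
            have h2 : b.1.1.2 = ⟨u₀, hu₀⟩ := b.2
            apply Subtype.ext
            apply Subtype.ext
            exact Prod.ext rfl h2.symm
          right_inv := fun z => rfl
          continuous_toFun := by
            refine Continuous.subtype_mk ?_ _
            exact continuous_fst.comp (continuous_subtype_val.comp continuous_subtype_val)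
          continuous_invFun := by
            refine Continuous.subtype_mk (Continuous.subtype_mk ?_ _) _
            exact continuous_subtype_val.prodMk continuous_const }
      exact LogDep.of_plane hZ e hc.1 hc.2
    -- the section
    have h₂ : ∃ N, LogDep ((totHomeo hMe ∘
        ({w : Wd δ | MvPolynomial.eval (Fin.tail w.1) D ≠ 0} : Set (Wd δ)).restrictPreimage p) ⁻¹'
        (range (sT hM))) N := by
      have hc := hp'.restrict (range (sT hM))
      let e : (range (sT hM) : Set (Tot M)) ≃ₜ Wd D :=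
        { toFun := fun b => qT M b.1
          invFun := fun u => ⟨sT hM u, mem_range_self _⟩
          left_inv := fun b => by
            obtain ⟨u, hu⟩ := b.2
            apply Subtype.ext
            show sT hM (qT M b.1) = b.1
            rw [← hu, hq.sec]
          right_inv := fun u => hq.sec u
          continuous_toFun := hq.cont.comp continuous_subtype_val
          continuous_invFun := Continuous.subtype_mk hq.contS _ }
      exact ih D hD _ (hc.homeo e)
    obtain ⟨N₁, h₁⟩ := h₁
    obtain ⟨N₂, h₂⟩ := h₂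
    obtain ⟨N, hN⟩ := LogDep.of_fib hp'.1 hq ⟨u₀, hu₀⟩ (hp'.2 _) h₁ h₂
    refine ⟨N, hN.of_pullback continuous_subtype_val (fun φ hφ h => ?_)⟩
    refine LogOn.extend hφ.1 hφ.2 (Thin.preimage hp.1.isLocalHomeomorph ?_) (LogOn.of_subtype h)
    have hg : Differentiable ℂ (fun w : Fin (s + 1) → ℂ =>
        MvPolynomial.eval (Fin.tail w) D) := by
      refine (evalD D).comp ?_
      rw [differentiable_pi]
      intro i
      exact differentiable_apply (𝕜 := ℂ) i.succ
    refine Thin.of_open (isOpen_Wd δ) hg ⟨Fin.cons 0 u₀, ?_⟩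
    rw [Fin.tail_cons]
    exact hu₀

end Pool.Agent.L5helper22
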