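import Mathlib
import Pool.Agent.L5helper22.RootF
import Pool.Agent.L5helper22.Ind

/-! The covering by the roots of a family of polynomials. -/

set_option autoImplicit false

open Topology Set Polynomial

namespace Pool.Agent.L5helper22

section

variable {U : Type*} [TopologicalSpace U] {n : ℕ} {M : U → ℂ[X]}

/-- the roots -/
abbrev Rt (M : U → ℂ[X]) : Type _ := {b : U × ℂ // (M b.1).eval b.2 = 0}

theorem finCov_roots (h : Fam n M) : FinCov (fun b : Rt M => b.1.1) := by
  classical
  constructor
  · intro u₁
    refine IsEvenlyCovered.to_isEvenlyCovered_preimage (I := Fin n) ?_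
    obtain ⟨V, ζ, hV, hu₁, hc, hroot, hinj, hsurj⟩ := h.local_roots u₁
    refine ⟨inferInstance, V, hu₁, hV,
      hV.preimage (continuous_fst.comp continuous_subtype_val), ?_⟩
    have hidx : ∀ b : (fun b : Rt M => b.1.1) ⁻¹' V, ∃ i, b.1.1.2 = ζ i b.1.1.1 := fun b =>
      hsurj _ b.2 _ b.1.2
    choose idx hidx using hidx
    have hfst : Continuous (fun b : (fun b : Rt M => b.1.1) ⁻¹' V => b.1.1.1) :=
      continuous_fst.comp (continuous_subtype_val.comp continuous_subtype_val)
    have hsnd : Continuous (fun b : (fun b : Rt M => b.1.1) ⁻¹' V => b.1.1.2) :=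
      continuous_snd.comp (continuous_subtype_val.comp continuous_subtype_val)
    have hζ : ∀ i, Continuous (fun b : (fun b : Rt M => b.1.1) ⁻¹' V => ζ i b.1.1.1) := fun i =>
      (hc i).comp_continuous hfst (fun b => b.2)
    have hidxc : Continuous idx := by
      refine continuous_def.mpr (fun S _ => ?_)
      have : idx ⁻¹' S = (⋃ j ∈ Sᶜ, {b | b.1.1.2 = ζ j b.1.1.1})ᶜ := by
        ext b
        simp only [mem_preimage, mem_compl_iff, mem_iUnion, mem_ofPred_eq, exists_prop, not_exists,
          not_and]
        constructor
        · intro hb j hj he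
          apply hj
          have := hinj _ b.2 ((hidx b).symm.trans he)
          rwa [← this]
        · intro hb
          by_contra hS
          exact hb _ hS (hidx b)
      rw [this, isOpen_compl_iff]
      exact (Set.toFinite Sᶜ).isClosed_biUnion (fun j _ => isClosed_eq hsnd (hζ j))
    refine ⟨{ toFun := fun b => (⟨b.1.1.1, b.2⟩, idx b)
              invFun := fun c => ⟨⟨(c.1.1, ζ c.2 c.1.1), hroot _ c.1.2 _⟩, c.1.2⟩
              left_inv := ?_
              right_inv := ?_
              continuous_toFun := ?_
              continuous_invFun := ?_ }, fun b => rfl⟩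
    · intro b
      apply Subtype.ext
      apply Subtype.ext
      exact Prod.ext rfl (hidx b).symm
    · intro c
      refine Prod.ext rfl ?_
      exact hinj _ c.1.2 (hidx ⟨⟨(c.1.1, ζ c.2 c.1.1), hroot _ c.1.2 _⟩, c.1.2⟩).symm
    · exact (Continuous.subtype_mk hfst _).prodMk hidxc
    · refine Continuous.subtype_mk (Continuous.subtype_mk (Continuous.prodMk ?_ ?_) _) _
      · exact continuous_subtype_val.comp continuous_fst
      · rw [← continuousOn_univ]
        refine continuousOn_of_forall_continuousAt (fun c _ => ?_)
        have h1 : Continuous (fun c : V × Fin n => ζ c.2 c.1.1) := by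
          rw [continuous_prod_of_discrete_right]
          exact fun i => (hc i).comp_continuous continuous_subtype_val (fun c => c.2)
        exact h1.continuousAt
  · intro u
    have hZ : {z : ℂ | (M u).eval z = 0}.Finite :=
      Polynomial.finite_setOfPred_isRoot (h.monic _).ne_zero
    refine Set.Finite.of_finite_image (f := fun b : Rt M => b.1.2) (hZ.subset ?_) ?_
    · rintro _ ⟨b, hb, rfl⟩
      have h1 : b.1.1 = u := hb
      have h2 := b.2
      rw [h1] at h2
      exact h2
    · intro b hb c hc hbc
      have h1 : b.1.1 = u := hb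
      have h2 : c.1.1 = u := hc
      exact Subtype.ext (Prod.ext (h1.trans h2.symm) hbc)

end

end Pool.Agent.L5helper22
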