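import Mathlib
import Pool.Agent.L5helper22.Model
import Pool.Agent.L5helper22.RootCov

/-! The group of continuous functions without zeros modulo exponentials on a smooth connected
affine variety has finite rank. -/

set_option autoImplicit false

open Topology Set Polynomial

namespace Pool.Agent.L5helper22

theorem Thin.of_goodBasis {T : Type*} [TopologicalSpace T] {U : Set T}
    (h : Y193.FG.GoodBasis U) : Thin U := by
  intro x O hO
  obtain ⟨B, hB, hxB, hBO⟩ := h x O hO
  refine ⟨B, hB.isOpen.mem_nhds hxB, hBO, ?_, hB.nonempty⟩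
  refine isPreconnected_of_forall_pair (fun x hx y hy => ?_)
  obtain ⟨p, hp⟩ := hB.joinedU x hx y hy
  exact ⟨range p, by rintro _ ⟨t, rfl⟩; exact hp t, ⟨0, p.source⟩, ⟨1, p.target⟩,
    isPreconnected_range p.continuous⟩

theorem val_diff {m s : ℕ} (pr : Fin s → MvPolynomial (Fin m) ℂ) : Differentiable ℂ (val pr) := by
  rw [differentiable_pi]
  exact fun j => Y193.FG.differentiable_eval (pr j)

section

variable {m s : ℕ} {Y : Set (Fin m → ℂ)}

/-- the family of polynomials of a model -/
noncomputable def Model.fam (M : Model Y s) (w : {w : Fin s → ℂ | MvPolynomial.eval w M.δ ≠ 0}) :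
    ℂ[X] := sp w.1 M.Q

theorem Model.isFam (M : Model Y s) : Fam M.Q.natDegree M.fam where
  deg := fun u => M.Q_monic.natDegree_map _
  monic := fun u => M.Q_monic.map _
  cont := fun i => by
    have h1 : (fun u => (M.fam u).coeff i) = fun u => MvPolynomial.eval u.1 (M.Q.coeff i) := by
      funext u
      exact coeff_map _ _
    rw [h1]
    exact (evalD _).continuous.comp continuous_subtype_val
  sep := fun u θ hθ => M.Q_sep u.1 u.2 θ hθ

/-- the point over a root -/
noncomputable def Model.pt (M : Model Y s) (w : Fin s → ℂ) (z : ℂ) : Fin m → ℂ :=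
  fun i => (sp w (M.q i)).eval z / MvPolynomial.eval w M.δ

theorem cont_sp (P : (MvPolynomial (Fin s) ℂ)[X]) :
    Continuous (fun b : (Fin s → ℂ) × ℂ => (sp b.1 P).eval b.2) := by
  have : (fun b : (Fin s → ℂ) × ℂ => (sp b.1 P).eval b.2) = fun b =>
      ∑ i ∈ Finset.range (P.natDegree + 1), MvPolynomial.eval b.1 (P.coeff i) * b.2 ^ i := by
    funext b
    rw [sp, eval_map, eval₂_eq_sum_range]
  rw [this]
  refine continuous_finsetSum _ (fun i _ => ?_)
  exact ((evalD _).continuous.comp continuous_fst).mul (continuous_snd.pow i)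

theorem Model.cont_pt (M : Model Y s) :
    Continuous (fun b : Rt M.fam => M.pt b.1.1.1 b.1.2) := by
  refine continuous_pi (fun i => Continuous.div ?_ ?_ (fun b => b.1.1.2))
  · have h1 : Continuous (fun b : Rt M.fam => ((b.1.1.1, b.1.2) : (Fin s → ℂ) × ℂ)) :=
      (continuous_subtype_val.comp (continuous_fst.comp continuous_subtype_val)).prodMk
        (continuous_snd.comp continuous_subtype_val)
    exact (cont_sp (M.q i)).comp h1
  · exact (evalD _).continuous.comp
      (continuous_subtype_val.comp (continuous_fst.comp continuous_subtype_val))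

theorem Model.pt_th (M : Model Y s) {y : Fin m → ℂ} (hy : y ∈ Y)
    (h : MvPolynomial.eval (val M.pr y) M.δ ≠ 0) :
    M.pt (val M.pr y) (MvPolynomial.eval y M.th) = y := by
  funext i
  rw [Model.pt, ← M.q_spec y hy i, mul_div_cancel_left₀ _ h]

/-- the rank is finite -/
theorem exists_logDep (hY : IsAlg Y) (hsm : IsSmooth Y) (hc : IsConnected Y) :
    ∃ N, LogDep Y N := by
  obtain ⟨s, ⟨M⟩⟩ := exists_Model hY hsm hc
  obtain ⟨N, hN⟩ := ind s M.δ M.δ_ne _ (finCov_roots M.isFam)
  refine ⟨N, hN.of_pullback (f := fun b : Rt M.fam =>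
    (⟨M.pt b.1.1.1 b.1.2, M.q_mem _ _ b.1.1.2 b.2⟩ : Y)) (Continuous.subtype_mk M.cont_pt _)
    (fun φ hφ h => ?_)⟩
  have hd : Differentiable ℂ (fun y : Fin m → ℂ => MvPolynomial.eval (val M.pr y) M.δ) :=
    (evalD _).comp (val_diff _)
  obtain ⟨y₀, hy₀, h0⟩ := M.nz
  have hthin : Thin {y : Y | MvPolynomial.eval (val M.pr y.1) M.δ ≠ 0} :=
    Thin.of_goodBasis (Y193.FG.goodBasis (isSubm_of_isSmooth hsm) hc.isPreconnected hd
      (x₀ := ⟨y₀, hy₀⟩) h0)
  refine LogOn.extend hφ.1 hφ.2 hthin (LogOn.of_subtype ?_)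
  have h1 := h.comp (f := fun y : {y : Y | MvPolynomial.eval (val M.pr y.1) M.δ ≠ 0} =>
    (⟨(⟨val M.pr y.1.1, y.2⟩, MvPolynomial.eval y.1.1 M.th), M.Q_root _ y.1.2⟩ : Rt M.fam))
    (S' := univ) (Continuous.continuousOn (by
      refine Continuous.subtype_mk (Continuous.prodMk (Continuous.subtype_mk ?_ _) ?_) _
      · exact (val_diff _).continuous.comp (continuous_subtype_val.comp continuous_subtype_val)
      · exact (evalD _).continuous.comp (continuous_subtype_val.comp continuous_subtype_val)))
    (fun _ _ => mem_univ _)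
  refine h1.congr (fun y _ => ?_)
  congr 1
  apply Subtype.ext
  exact (M.pt_th y.1.2 y.2).symm

/-- the rank is a topological invariant -/
theorem LogDep.homeo {A B : Type*} [TopologicalSpace A] [TopologicalSpace B] {N : ℕ}
    (h : LogDep A N) (e : A ≃ₜ B) : LogDep B N := by
  refine h.of_pullback e.continuous (fun φ hφ h' => ?_)
  have h1 := h'.comp (f := e.symm) (S' := univ) e.symm.continuous.continuousOn
    (fun _ _ => mem_univ _)
  refine h1.congr (fun y _ => ?_)
  simp

end

end Pool.Agent.L5helper22
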