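import Mathlib
import Pool.Agent.L5helper22.Rank
import Pool.Agent.L5helper22.Hol

/-! Holomorphic lifts. -/

set_option autoImplicit false

open Topology Set Polynomial Asymptotics

namespace Pool.Agent.L5helper22

/-- the roots over a simply connected space -/
theorem Fam.global_roots {n : ℕ} {A : Type*} [TopologicalSpace A] [SimplyConnectedSpace A]
    [LocallyPathConnectedSpace A] {M : A → ℂ[X]} (h : Fam n M) :
    ∃ ζ : Fin n → A → ℂ, (∀ i, Continuous (ζ i)) ∧ (∀ a i, (M a).eval (ζ i a) = 0) ∧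
      (∀ a, Function.Injective (fun i => ζ i a)) ∧
      ∀ a θ, (M a).eval θ = 0 → ∃ i, θ = ζ i a := by
  obtain ⟨a₀⟩ : Nonempty A := inferInstance
  obtain ⟨ρ, hinj, hroot, -⟩ := h.exists_roots a₀
  have hp := (finCov_roots h).1
  have h1 : ∀ i, ∃ F : C(A, Rt M), F a₀ = ⟨(a₀, ρ i), hroot i⟩ ∧ ∀ a, (F a).1.1 = a := by
    intro i
    obtain ⟨F, ⟨hF1, hF2⟩, -⟩ := hp.existsUnique_continuousMap_lifts (ContinuousMap.id A) a₀
      (⟨(a₀, ρ i), hroot i⟩ : Rt M) rfl
    exact ⟨F, hF1, fun a => congrFun hF2 a⟩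
  choose F hF0 hF using h1
  have hinjA : ∀ a, Function.Injective (fun i => (F i a).1.2) := by
    intro a i j hij
    have h2 : F i a = F j a := Subtype.ext (Prod.ext ((hF i a).trans (hF j a).symm) hij)
    have h3 := hp.eq_of_comp_eq (F i).continuous (F j).continuous
      (funext fun b => (hF i b).trans (hF j b).symm) a h2
    have h4 := congrFun h3 a₀
    rw [hF0, hF0] at h4
    exact hinj (congrArg (fun b : Rt M => b.1.2) h4)
  refine ⟨fun i a => (F i a).1.2, fun i => continuous_snd.comp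
    (continuous_subtype_val.comp (F i).continuous), fun a i => ?_, hinjA, fun a θ hθ => ?_⟩
  · have h2 := (F i a).2
    rw [hF i a] at h2
    exact h2
  · refine h.surj_of_inj (hinjA a) (fun i => ?_) hθ
    have h2 := (F i a).2
    rw [hF i a] at h2
    exact h2

section

variable {E : Type*} [NormedAddCommGroup E] [NormedSpace ℂ E]

theorem diff_mul_cont {g k : E → ℂ} {x₀ : E} (hg : DifferentiableAt ℂ g x₀) (h0 : g x₀ = 0)
    (hk : ContinuousAt k x₀) : DifferentiableAt ℂ (fun x => g x * k x) x₀ := by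
  refine ⟨k x₀ • fderiv ℂ g x₀, ?_⟩
  have h1 := hg.hasFDerivAt.isLittleO
  refine .of_isLittleO ?_
  have e : (fun x => g x * k x - g x₀ * k x₀ - (k x₀ • fderiv ℂ g x₀) (x - x₀)) =
      fun x => (g x - g x₀ - fderiv ℂ g x₀ (x - x₀)) * k x +
        fderiv ℂ g x₀ (x - x₀) * (k x - k x₀) := by
    funext x
    simp only [FunLike.coe_smul, Pi.smul_apply, smul_eq_mul, h0]
    ring
  rw [e]
  refine IsLittleO.add ?_ ?_
  · have h2 : k =O[𝓝 x₀] (fun _ => (1 : ℝ)) := hk.isBigO_one ℝ
    have h3 := (isLittleO_norm_right.mpr h1).mul_isBigO h2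
    simp only [mul_one] at h3
    exact isLittleO_norm_right.mp h3
  · have h2 : (fun x => k x - k x₀) =o[𝓝 x₀] (fun _ => (1 : ℝ)) := by
      rw [isLittleO_one_iff]
      have h4 : Filter.Tendsto (fun x => k x - k x₀) (𝓝 x₀) (𝓝 (k x₀ - k x₀)) :=
        hk.tendsto.sub tendsto_const_nhds
      rwa [sub_self] at h4
    have h3 : (fun x => fderiv ℂ g x₀ (x - x₀)) =O[𝓝 x₀] (fun x => ‖x - x₀‖) :=
      isBigO_norm_right.mpr ((fderiv ℂ g x₀).isBigO_sub _ _)
    have h4 := h3.mul_isLittleO h2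
    simp only [mul_one] at h4
    exact isLittleO_norm_right.mp h4

/-- a continuous simple root depends holomorphically on the coefficients -/
theorem diff_root {n : ℕ} {P : E → ℂ[X]} (hn : ∀ x, (P x).natDegree = n) {x₀ : E}
    (hP : ∀ i, DifferentiableAt ℂ (fun x => (P x).coeff i) x₀) {z : E → ℂ}
    (hz : ContinuousAt z x₀) (hr : ∀ᶠ x in 𝓝 x₀, (P x).eval (z x) = 0)
    (hd : (P x₀).derivative.eval (z x₀) ≠ 0) : DifferentiableAt ℂ z x₀ := by
  let D : E → ℂ := fun x => Y193.FG.dd n (P x) (z x) (z x₀)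
  have hD : ContinuousAt D x₀ := by
    show ContinuousAt (fun x => Y193.FG.dd n (P x) (z x) (z x₀)) x₀
    unfold Y193.FG.dd
    refine tendsto_finsetSum _ (fun i _ => ?_)
    refine (hP i).continuousAt.mul ?_
    refine tendsto_finsetSum _ (fun j _ => ?_)
    exact (hz.pow j).mul continuousAt_const
  have hD0 : D x₀ ≠ 0 := by
    show Y193.FG.dd n (P x₀) (z x₀) (z x₀) ≠ 0
    rw [Y193.FG.dd_self (hn x₀)]
    exact hd
  have hg : DifferentiableAt ℂ (fun x => (P x).eval (z x₀)) x₀ := by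
    have e : (fun x => (P x).eval (z x₀)) = fun x =>
        ∑ i ∈ Finset.range (n + 1), (P x).coeff i * z x₀ ^ i := by
      funext x
      exact Y193.FG.eval_sum (hn x) _
    rw [e]
    exact DifferentiableAt.fun_sum (fun i _ => (hP i).mul_const _)
  have hk : ContinuousAt (fun x => -(D x)⁻¹) x₀ := (hD.inv₀ hD0).neg
  have h1 := (diff_mul_cont hg hr.self_of_nhds hk).add_const (z x₀)
  refine h1.congr_of_eventuallyEq ?_
  filter_upwards [hr, hD.eventually_ne hD0] with x hx hDx
  have h2 := Y193.FG.dd_mul (hn x) (z x) (z x₀)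
  rw [hx, zero_sub] at h2
  have h3 : D x * (z x - z x₀) = -(P x).eval (z x₀) := h2
  have h4 : z x - z x₀ = (P x).eval (z x₀) * -(D x)⁻¹ := by
    rw [mul_neg, ← neg_mul, ← h3, mul_comm (D x), mul_assoc, mul_inv_cancel₀ hDx, mul_one]
  rw [← h4]
  ring

theorem diff_sp {s : ℕ} {O : Set E} {f : E → (Fin s → ℂ)} (hf : DifferentiableOn ℂ f O)
    {z : E → ℂ} (hz : DifferentiableOn ℂ z O) (P : (MvPolynomial (Fin s) ℂ)[X]) :
    DifferentiableOn ℂ (fun x => (sp (f x) P).eval (z x)) O := by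
  have : (fun x => (sp (f x) P).eval (z x)) = fun x =>
      ∑ i ∈ Finset.range (P.natDegree + 1), MvPolynomial.eval (f x) (P.coeff i) * z x ^ i := by
    funext x
    rw [sp, eval_map, eval₂_eq_sum_range]
  rw [this]
  refine DifferentiableOn.fun_sum (fun i _ => ?_)
  exact ((evalD _).comp_differentiableOn hf).mul (hz.pow i)

variable {m s : ℕ} {Y : Set (Fin m → ℂ)}

/-- the lifts of a holomorphic map on a convex open set -/
theorem Model.exists_lifts (M : Model Y s) {O : Set E} (hO : IsOpen O) (hc : Convex ℝ O)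
    (hne : O.Nonempty) {f : E → (Fin s → ℂ)} (hf : DifferentiableOn ℂ f O)
    (hfδ : ∀ x ∈ O, MvPolynomial.eval (f x) M.δ ≠ 0) :
    ∃ z : Fin M.Q.natDegree → E → ℂ, (∀ j, DifferentiableOn ℂ (z j) O) ∧
      (∀ x ∈ O, ∀ j, (sp (f x) M.Q).eval (z j x) = 0) ∧
      (∀ x ∈ O, Function.Injective (fun j => z j x)) ∧
      ∀ x ∈ O, ∀ θ, (sp (f x) M.Q).eval θ = 0 → ∃ j, θ = z j x := by
  classical
  have hcontr : ContractibleSpace O := hc.contractibleSpace hne
  have hloc : LocallyPathConnectedSpace O := hO.locallyPathConnectedSpace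
  have hcoef : ∀ i, DifferentiableOn ℂ (fun x => (sp (f x) M.Q).coeff i) O := by
    intro i
    have h1 : (fun x => (sp (f x) M.Q).coeff i) = fun x =>
        MvPolynomial.eval (f x) (M.Q.coeff i) := by
      funext x
      exact coeff_map _ _
    rw [h1]
    exact (evalD _).comp_differentiableOn hf
  have hfam : Fam M.Q.natDegree (fun x : O => sp (f x) M.Q) :=
    { deg := fun u => M.Q_monic.natDegree_map _
      monic := fun u => M.Q_monic.map _
      cont := fun i => (hcoef i).continuousOn.comp_continuous continuous_subtype_val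
        (fun x => x.2)
      sep := fun u θ hθ => M.Q_sep _ (hfδ u.1 u.2) θ hθ }
  obtain ⟨ζ, hζc, hζr, hζi, hζs⟩ := hfam.global_roots
  have hz : ∀ (j : Fin M.Q.natDegree) (x : O), (if h : x.1 ∈ O then ζ j ⟨x.1, h⟩ else 0) = ζ j x :=
    fun j x => dif_pos x.2
  refine ⟨fun j x => if h : x ∈ O then ζ j ⟨x, h⟩ else 0, fun j => ?_, fun x hx j => ?_,
    fun x hx i j hij => ?_, fun x hx θ hθ => ?_⟩
  · have hcont : ContinuousOn (fun x => if h : x ∈ O then ζ j ⟨x, h⟩ else 0) O := by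
      rw [continuousOn_iff_continuous_domRestrict]
      convert hζc j using 1
      funext x
      exact hz j x
    intro x hx
    refine (diff_root (n := M.Q.natDegree) (P := fun x => sp (f x) M.Q)
      (fun x => M.Q_monic.natDegree_map _)
      (fun i => (hcoef i).differentiableAt (hO.mem_nhds hx))
      (hcont.continuousAt (hO.mem_nhds hx)) ?_ ?_).differentiableWithinAt
    · filter_upwards [hO.mem_nhds hx] with y hy
      rw [hz j ⟨y, hy⟩]
      exact hζr ⟨y, hy⟩ j
    · rw [hz j ⟨x, hx⟩]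
      exact M.Q_sep _ (hfδ x hx) _ (hζr ⟨x, hx⟩ j)
  · simp only [hx, dif_pos]
    exact hζr ⟨x, hx⟩ j
  · simp only [hx, dif_pos] at hij
    exact hζi ⟨x, hx⟩ hij
  · obtain ⟨j, hj⟩ := hζs ⟨x, hx⟩ θ hθ
    refine ⟨j, ?_⟩
    simp only [hx, dif_pos]
    exact hj

theorem Model.diff_pt (M : Model Y s) {O : Set E} {f : E → (Fin s → ℂ)}
    (hf : DifferentiableOn ℂ f O) (hfδ : ∀ x ∈ O, MvPolynomial.eval (f x) M.δ ≠ 0)
    {z : E → ℂ} (hz : DifferentiableOn ℂ z O) :
    DifferentiableOn ℂ (fun x => M.pt (f x) (z x)) O := by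
  rw [differentiableOn_pi]
  intro i
  have h1 : DifferentiableOn ℂ (fun x => MvPolynomial.eval (f x) M.δ) O :=
    (evalD M.δ).comp_differentiableOn hf
  have h2 := (diff_sp hf hz (M.q i)).mul (h1.inv hfδ)
  simp only [← div_eq_mul_inv] at h2
  exact h2

end

end Pool.Agent.L5helper22
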