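import Mathlib
import Pool.Agent.L5helper22.Lift

/-! Generic fibres. -/

set_option autoImplicit false

open Topology Set Polynomial

namespace Pool.Agent.L5helper22

section

variable {E : Type*} [NormedAddCommGroup E] [NormedSpace ℂ E]

theorem exists_common {ι : Type*} {O : Set E} (hO : IsOpen O) (hc : Convex ℝ O)
    (hne : O.Nonempty) {h : ι → E → ℂ} (hd : ∀ j, DifferentiableOn ℂ (h j) O)
    (h0 : ∀ j, ∃ x ∈ O, h j x ≠ 0) (S : Finset ι) : ∃ x ∈ O, ∀ j ∈ S, h j x ≠ 0 := by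
  classical
  induction S using Finset.induction_on with
  | empty =>
    obtain ⟨x, hx⟩ := hne
    exact ⟨x, hx, by simp⟩
  | insert k S hk ih =>
    obtain ⟨x, hx, hS⟩ := ih
    have h1 : ∀ᶠ y in 𝓝 x, y ∈ O ∧ ∀ j ∈ S, h j y ≠ 0 := by
      refine Filter.Eventually.and (hO.mem_nhds hx) ?_
      rw [Filter.eventually_all_finset]
      intro j hj
      exact ((hd j).differentiableAt (hO.mem_nhds hx)).continuousAt.eventually_ne (hS j hj)
    have h2 : ∃ᶠ y in 𝓝 x, h k y ≠ 0 := by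
      intro h3
      obtain ⟨y, hy, hyk⟩ := h0 k
      refine hyk (Y193.FG.eq_zero_of_eventually hO hc (hd k) hx ?_ hy)
      exact h3.mono (fun z hz => not_not.mp hz)
    obtain ⟨y, h3, h4, h5⟩ := (h2.and_eventually h1).exists
    refine ⟨y, h4, fun j hj => ?_⟩
    rcases Finset.mem_insert.mp hj with rfl | hj
    · exact h3
    · exact h5 j hj

end

section

variable {m s : ℕ} {Y : Set (Fin m → ℂ)} {G : (Fin m → ℂ) → ℂ}

/-- the points with a fibre on which the function has no zeros -/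
def Model.Gd (M : Model Y s) (G : (Fin m → ℂ) → ℂ) : Set (Fin s → ℂ) :=
  {w | MvPolynomial.eval w M.δ ≠ 0 ∧ ∀ z, (sp w M.Q).eval z = 0 → G (M.pt w z) ≠ 0}

theorem Model.lifts_ball (M : Model Y s) {w₀ : Fin s → ℂ} {r : ℝ} (hr : 0 < r)
    (h : Metric.ball w₀ r ⊆ {w | MvPolynomial.eval w M.δ ≠ 0}) :
    ∃ z : Fin M.Q.natDegree → (Fin s → ℂ) → ℂ,
      (∀ j, DifferentiableOn ℂ (z j) (Metric.ball w₀ r)) ∧
      (∀ x ∈ Metric.ball w₀ r, ∀ j, (sp x M.Q).eval (z j x) = 0) ∧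
      (∀ x ∈ Metric.ball w₀ r, Function.Injective (fun j => z j x)) ∧
      (∀ x ∈ Metric.ball w₀ r, ∀ θ, (sp x M.Q).eval θ = 0 → ∃ j, θ = z j x) ∧
      ∀ j, DifferentiableOn ℂ (fun x => M.pt x (z j x)) (Metric.ball w₀ r) := by
  obtain ⟨z, h1, h2, h3, h4⟩ := M.exists_lifts Metric.isOpen_ball (convex_ball w₀ r)
    ⟨w₀, Metric.mem_ball_self hr⟩ (f := fun x => x) differentiableOn_id h
  exact ⟨z, h1, h2, h3, h4, fun j => M.diff_pt differentiableOn_id h (h1 j)⟩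

theorem Model.exists_ball (M : Model Y s) {w₀ : Fin s → ℂ} (h : MvPolynomial.eval w₀ M.δ ≠ 0)
    {T : Set (Fin s → ℂ)} (hT : T ∈ 𝓝 w₀) : ∃ r : ℝ, 0 < r ∧
      Metric.ball w₀ r ⊆ {w | MvPolynomial.eval w M.δ ≠ 0} ∧ Metric.ball w₀ r ⊆ T := by
  obtain ⟨r, hr, hb⟩ := Metric.mem_nhds_iff.mp (Filter.inter_mem ((isOpen_Wd M.δ).mem_nhds h) hT)
  exact ⟨r, hr, fun x hx => (hb hx).1, fun x hx => (hb hx).2⟩

theorem Model.isOpen_Gd (M : Model Y s) (hG : Hol Y G) : IsOpen (M.Gd G) := by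
  rw [isOpen_iff_mem_nhds]
  rintro w₀ ⟨h0, h1⟩
  obtain ⟨r, hr, hb, -⟩ := M.exists_ball h0 Filter.univ_mem
  obtain ⟨z, hz1, hz2, hz3, hz4, hz5⟩ := M.lifts_ball hr hb
  have hw₀ : w₀ ∈ Metric.ball w₀ r := Metric.mem_ball_self hr
  have h2 : ∀ᶠ w in 𝓝 w₀, ∀ j, G (M.pt w (z j w)) ≠ 0 := by
    rw [Filter.eventually_all]
    intro j
    have h3 := hG.comp Metric.isOpen_ball (hz5 j)
      (fun x hx => M.q_mem x _ (hb hx) (hz2 x hx j))
    exact (h3.differentiableAt (Metric.isOpen_ball.mem_nhds hw₀)).continuousAt.eventually_ne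
      (h1 _ (hz2 w₀ hw₀ j))
  filter_upwards [h2, Metric.isOpen_ball.mem_nhds hw₀] with w hw hwb
  refine ⟨hb hwb, fun θ hθ => ?_⟩
  obtain ⟨j, rfl⟩ := hz4 w hwb θ hθ
  exact hw j

/-- the image of a lift is a neighbourhood -/
theorem Model.lift_nhds (M : Model Y s) {w₀ : Fin s → ℂ} {r : ℝ} (hr : 0 < r)
    (hb : Metric.ball w₀ r ⊆ {w | MvPolynomial.eval w M.δ ≠ 0})
    {z : Fin M.Q.natDegree → (Fin s → ℂ) → ℂ}
    (hz1 : ∀ j, DifferentiableOn ℂ (z j) (Metric.ball w₀ r))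
    (hz2 : ∀ x ∈ Metric.ball w₀ r, ∀ j, (sp x M.Q).eval (z j x) = 0)
    (hz3 : ∀ x ∈ Metric.ball w₀ r, Function.Injective (fun j => z j x))
    (hz4 : ∀ x ∈ Metric.ball w₀ r, ∀ θ, (sp x M.Q).eval θ = 0 → ∃ j, θ = z j x)
    (j : Fin M.Q.natDegree) (y₀ : Y) (hy₀ : y₀.1 = M.pt w₀ (z j w₀)) :
    ∀ᶠ y : Y in 𝓝 y₀, ∃ x ∈ Metric.ball w₀ r, y.1 = M.pt x (z j x) := by
  have hw₀ : w₀ ∈ Metric.ball w₀ r := Metric.mem_ball_self hr
  have hv : val M.pr y₀.1 = w₀ := by rw [hy₀]; exact M.q_pr _ _ (hb hw₀) (hz2 w₀ hw₀ j)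
  have ht : MvPolynomial.eval y₀.1 M.th = z j w₀ := by
    rw [hy₀]; exact M.q_th _ _ (hb hw₀) (hz2 w₀ hw₀ j)
  obtain ⟨ε, hε, hsep⟩ := exists_small (hz3 w₀ hw₀)
  have hcv : ContinuousAt (fun y : Y => val M.pr y.1) y₀ :=
    ((val_diff M.pr).continuous.comp continuous_subtype_val).continuousAt
  have hct : ContinuousAt (fun y : Y => MvPolynomial.eval y.1 M.th) y₀ :=
    ((evalD M.th).continuous.comp continuous_subtype_val).continuousAt
  have h1 : ∀ᶠ y : Y in 𝓝 y₀, val M.pr y.1 ∈ Metric.ball w₀ r := by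
    refine hcv.eventually_mem ?_
    rw [hv]
    exact Metric.isOpen_ball.mem_nhds hw₀
  have h2 : ∀ᶠ y : Y in 𝓝 y₀, ‖MvPolynomial.eval y.1 M.th - z j w₀‖ < ε / 4 := by
    have h3 : ContinuousAt (fun y : Y => ‖MvPolynomial.eval y.1 M.th - z j w₀‖) y₀ :=
      (hct.sub continuousAt_const).norm
    refine h3.eventually_lt continuousAt_const ?_
    rw [ht, sub_self, norm_zero]
    positivity
  have h3 : ∀ᶠ y : Y in 𝓝 y₀, ∀ k, ‖z k (val M.pr y.1) - z k w₀‖ < ε / 4 := by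
    rw [Filter.eventually_all]
    intro k
    have h4 : ContinuousAt (fun y : Y => z k (val M.pr y.1)) y₀ := by
      have h5 : ContinuousAt (z k) (val M.pr y₀.1) := by
        rw [hv]
        exact ((hz1 k).differentiableAt (Metric.isOpen_ball.mem_nhds hw₀)).continuousAt
      exact ContinuousAt.comp (f := fun y : Y => val M.pr y.1) h5 hcv
    have h5 : ContinuousAt (fun y : Y => ‖z k (val M.pr y.1) - z k w₀‖) y₀ :=
      (h4.sub continuousAt_const).norm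
    refine h5.eventually_lt continuousAt_const ?_
    rw [hv, sub_self, norm_zero]
    positivity
  filter_upwards [h1, h2, h3] with y h1 h2 h3
  refine ⟨val M.pr y.1, h1, ?_⟩
  obtain ⟨k, hk⟩ := hz4 _ h1 _ (M.Q_root y.1 y.2)
  have hkj : k = j := by
    by_contra hne
    have h4 := hsep k j hne
    have h5 := h3 k
    rw [hk] at h2
    have h6 : ‖z k w₀ - z j w₀‖ ≤ ‖z k (val M.pr y.1) - z j w₀‖ +
        ‖z k (val M.pr y.1) - z k w₀‖ := by
      calc ‖z k w₀ - z j w₀‖ = ‖(z k (val M.pr y.1) - z j w₀) -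
            (z k (val M.pr y.1) - z k w₀)‖ := by congr 1; ring
        _ ≤ _ := norm_sub_le _ _
    linarith
  rw [← hkj, ← hk]
  exact (M.pt_th y.2 (hb h1)).symm

theorem Model.dense_Gd (M : Model Y s) (hs : IsSmooth Y) (hc : IsPreconnected Y) (hG : Hol Y G)
    (hne : ∃ y ∈ Y, G y ≠ 0) : Dense (M.Gd G) := by
  intro w₁
  rw [mem_closure_iff_nhds]
  intro T hT
  obtain ⟨T', hT'T, hT'o, hw₁⟩ := mem_nhds_iff.mp hT
  obtain ⟨w₀, hw₀T, hw₀⟩ := exists_near_ne_zero (evalD M.δ) (exists_eval_ne M.δ_ne)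
    (hT'o.mem_nhds hw₁)
  obtain ⟨r, hr, hb, hbT⟩ := M.exists_ball hw₀ (hT'o.mem_nhds hw₀T)
  obtain ⟨z, hz1, hz2, hz3, hz4, hz5⟩ := M.lifts_ball hr hb
  have hmem : w₀ ∈ Metric.ball w₀ r := Metric.mem_ball_self hr
  have hY : ∀ j, ∀ x ∈ Metric.ball w₀ r, M.pt x (z j x) ∈ Y := fun j x hx =>
    M.q_mem x _ (hb hx) (hz2 x hx j)
  have hd : ∀ j, DifferentiableOn ℂ (fun x => G (M.pt x (z j x))) (Metric.ball w₀ r) := fun j =>
    hG.comp Metric.isOpen_ball (hz5 j) (hY j)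
  have hnz : ∀ j, ∃ x ∈ Metric.ball w₀ r, G (M.pt x (z j x)) ≠ 0 := by
    intro j
    by_contra hcon
    push Not at hcon
    obtain ⟨y, hy, hyG⟩ := hne
    have h1 := M.lift_nhds hr hb hz1 hz2 hz3 hz4 j ⟨_, hY j w₀ hmem⟩ rfl
    refine hyG (hG.identity hs hc (x₀ := ⟨_, hY j w₀ hmem⟩) ?_ ⟨y, hy⟩)
    filter_upwards [h1] with y hy
    obtain ⟨x, hx, hxy⟩ := hy
    rw [hxy]
    exact hcon x hx
  obtain ⟨x, hx, hxG⟩ := exists_common Metric.isOpen_ball (convex_ball w₀ r) ⟨w₀, hmem⟩ hd hnz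
    Finset.univ
  refine ⟨x, hT'T (hbT hx), hb hx, fun θ hθ => ?_⟩
  obtain ⟨j, rfl⟩ := hz4 x hx θ hθ
  exact hxG j (Finset.mem_univ j)

/-- a fibre on which no function of a countable family has zeros -/
theorem Model.exists_generic (M : Model Y s) (hs : IsSmooth Y) (hc : IsPreconnected Y)
    {ι : Type*} [Countable ι] {G : ι → (Fin m → ℂ) → ℂ} (hG : ∀ i, Hol Y (G i))
    (hne : ∀ i, ∃ y ∈ Y, G i y ≠ 0) : ∃ w, ∀ i, w ∈ M.Gd (G i) := by
  have h1 : Dense (⋂ i, M.Gd (G i)) := dense_iInter_of_isOpen (fun i => M.isOpen_Gd (hG i))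
    (fun i => M.dense_Gd hs hc (hG i) (hne i))
  obtain ⟨w, hw⟩ := h1.nonempty
  exact ⟨w, fun i => mem_iInter.mp hw i⟩

end

end Pool.Agent.L5helper22
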