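import Mathlib
import Pool.Agent.L5helper22.Gen

/-! The norm of a holomorphic function along a line. -/

set_option autoImplicit false

open Topology Set Polynomial Filter

namespace Pool.Agent.L5helper22

theorem IsAlg.isClosed {m : ℕ} {Y : Set (Fin m → ℂ)} (h : IsAlg Y) : IsClosed Y := by
  obtain ⟨S, rfl⟩ := h
  have : {y : Fin m → ℂ | ∀ P ∈ S, MvPolynomial.eval y P = 0} =
      ⋂ P ∈ S, {y | MvPolynomial.eval y P = 0} := by
    ext y
    simp
  rw [this]
  exact isClosed_biInter (fun P _ => isClosed_eq (evalD P).continuous continuous_const)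

/-- removable singularities -/
theorem ext_entire {F : Set ℂ} (hF : F.Finite) : ∀ {g : ℂ → ℂ},
    (∀ τ, τ ∉ F → DifferentiableAt ℂ g τ) →
    (∀ τ ∈ F, ∃ C : ℝ, ∀ᶠ t in 𝓝[≠] τ, ‖g t‖ ≤ C) →
    ∃ g' : ℂ → ℂ, Differentiable ℂ g' ∧ ∀ τ, τ ∉ F → g' τ = g τ := by
  classical
  induction F, hF using Set.Finite.induction_on with
  | empty =>
    intro g hd hb
    exact ⟨g, fun τ => hd τ (by simp), fun _ _ => rfl⟩
  | @insert a F ha hF ih =>
    intro g hd hb
    obtain ⟨C, hC⟩ := hb a (mem_insert _ _)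
    have hFc : IsClosed F := hF.isClosed
    have h1 : ∀ᶠ t in 𝓝[≠] a, DifferentiableAt ℂ g t ∧ ‖g t‖ ≤ C := by
      filter_upwards [hC, self_mem_nhdsWithin,
        mem_nhdsWithin_of_mem_nhds (hFc.isOpen_compl.mem_nhds ha)] with t h1 h2 h3
      refine ⟨hd t (fun h => ?_), h1⟩
      rcases mem_insert_iff.mp h with h | h
      · exact h2 h
      · exact h3 h
    obtain ⟨s, hs, hs'⟩ := Filter.eventually_iff_exists_mem.mp h1
    obtain ⟨t, ht, hts⟩ := mem_nhdsWithin_iff_exists_mem_nhds_inter.mp hs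
    have h2 : DifferentiableOn ℂ g (t \ {a}) := fun q hq =>
      (hs' q (hts ⟨hq.1, hq.2⟩)).1.differentiableWithinAt
    have h3 : BddAbove (norm ∘ g '' (t \ {a})) := by
      refine ⟨C, ?_⟩
      rintro _ ⟨q, hq, rfl⟩
      exact (hs' q (hts ⟨hq.1, hq.2⟩)).2
    have h4 := Complex.differentiableOn_update_limUnder_of_bddAbove ht h2 h3
    have h5 : ∀ τ, τ ≠ a → Function.update g a (limUnder (𝓝[≠] a) g) =ᶠ[𝓝 τ] g := by
      intro τ hτ
      filter_upwards [isOpen_compl_singleton.mem_nhds hτ] with t ht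
      exact Function.update_of_ne ht _ _
    obtain ⟨g', hg', hg'e⟩ := ih (g := Function.update g a (limUnder (𝓝[≠] a) g)) (by
      intro τ hτ
      by_cases hτa : τ = a
      · rw [hτa]
        exact h4.differentiableAt ht
      · refine DifferentiableAt.congr_of_eventuallyEq (hd τ ?_) (h5 τ hτa)
        intro h
        rcases mem_insert_iff.mp h with h | h
        · exact hτa h
        · exact hτ h) (by
      intro τ hτ
      obtain ⟨C', hC'⟩ := hb τ (mem_insert_of_mem _ hτ)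
      refine ⟨C', ?_⟩
      have hτa : τ ≠ a := fun h => ha (h ▸ hτ)
      filter_upwards [hC', mem_nhdsWithin_of_mem_nhds (h5 τ hτa)] with t h6 h7
      have h8 : Function.update g a (limUnder (𝓝[≠] a) g) t = g t := h7
      rw [h8]; exact h6)
    refine ⟨g', hg', fun τ hτ => ?_⟩
    rw [hg'e τ (fun h => hτ (mem_insert_of_mem _ h))]
    exact Function.update_of_ne (fun h => hτ (by rw [h]; exact mem_insert _ _)) _ _

theorem roots_eq {n : ℕ} {P : ℂ[X]} (hm : P.Monic) (hn : P.natDegree = n) {ρ : Fin n → ℂ}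
    (hi : Function.Injective ρ) (hr : ∀ i, P.eval (ρ i) = 0) :
    P.roots = (Finset.univ : Finset (Fin n)).val.map ρ := by
  symm
  refine Multiset.eq_of_le_of_card_le ?_ ?_
  · rw [Multiset.le_iff_subset]
    · intro z hz
      obtain ⟨i, -, rfl⟩ := Multiset.mem_map.mp hz
      exact (mem_roots hm.ne_zero).mpr (hr i)
    · exact (Multiset.nodup_map_iff_of_injective hi).mpr Finset.univ.nodup
  · rw [Multiset.card_map, Finset.card_val, Finset.card_univ, Fintype.card_fin, ← hn]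
    exact P.card_roots'

section

variable {m s : ℕ} {Y : Set (Fin m → ℂ)} {G : (Fin m → ℂ) → ℂ}

/-- the norm -/
noncomputable def Model.Nm (M : Model Y s) (G : (Fin m → ℂ) → ℂ) (w : Fin s → ℂ) : ℂ :=
  ((sp w M.Q).roots.map (fun z => G (M.pt w z))).prod

theorem Model.Nm_eq (M : Model Y s) {w : Fin s → ℂ} {ρ : Fin M.Q.natDegree → ℂ}
    (hi : Function.Injective ρ) (hr : ∀ i, (sp w M.Q).eval (ρ i) = 0) :
    M.Nm G w = ∏ j, G (M.pt w (ρ j)) := by
  rw [Model.Nm, roots_eq (M.Q_monic.map _) (M.Q_monic.natDegree_map _) hi hr, Multiset.map_map]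
  rfl

theorem Model.Nm_eq_zero (M : Model Y s) {w : Fin s → ℂ} :
    M.Nm G w = 0 ↔ ∃ z, (sp w M.Q).eval z = 0 ∧ G (M.pt w z) = 0 := by
  rw [Model.Nm, Multiset.prod_eq_zero_iff, Multiset.mem_map]
  have hne : sp w M.Q ≠ 0 := (M.Q_monic.map _).ne_zero
  constructor
  · rintro ⟨z, h1, h2⟩
    exact ⟨z, (mem_roots hne).mp h1, h2⟩
  · rintro ⟨z, h1, h2⟩
    exact ⟨z, (mem_roots hne).mpr h1, h2⟩

theorem Model.Nm_diff (M : Model Y s) (hG : Hol Y G) {f : ℂ → (Fin s → ℂ)}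
    (hf : Differentiable ℂ f) {τ : ℂ} (hτ : MvPolynomial.eval (f τ) M.δ ≠ 0) :
    DifferentiableAt ℂ (fun t => M.Nm G (f t)) τ := by
  have h1 : ∀ᶠ t in 𝓝 τ, MvPolynomial.eval (f t) M.δ ≠ 0 :=
    (((evalD M.δ).continuous.comp hf.continuous).continuousAt).eventually_ne hτ
  obtain ⟨r, hr, hb⟩ := Metric.eventually_nhds_iff_ball.mp h1
  obtain ⟨z, hz1, hz2, hz3, hz4⟩ := M.exists_lifts Metric.isOpen_ball (convex_ball τ r)
    ⟨τ, Metric.mem_ball_self hr⟩ hf.differentiableOn hb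
  have h2 : ∀ j, DifferentiableOn ℂ (fun t => G (M.pt (f t) (z j t))) (Metric.ball τ r) :=
    fun j => hG.comp Metric.isOpen_ball (M.diff_pt hf.differentiableOn hb (hz1 j))
      (fun t ht => M.q_mem _ _ (hb t ht) (hz2 t ht j))
  have h3 : DifferentiableOn ℂ (fun t => ∏ j, G (M.pt (f t) (z j t))) (Metric.ball τ r) :=
    DifferentiableOn.fun_finsetProd (fun j _ => h2 j)
  refine (h3.differentiableAt (Metric.ball_mem_nhds τ hr)).congr_of_eventuallyEq ?_
  filter_upwards [Metric.ball_mem_nhds τ hr] with t ht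
  exact M.Nm_eq (hz3 t ht) (hz2 t ht)

/-- the projection is proper -/
theorem Model.bounded (M : Model Y s) (hY : IsClosed Y) (hG : Hol Y G) {f : ℂ → (Fin s → ℂ)}
    (hf : Differentiable ℂ f) (τ : ℂ) : ∃ C : ℝ, 1 ≤ C ∧ ∀ t ∈ Metric.ball τ 1, ∀ y ∈ Y,
      val M.pr y = f t → ‖G y‖ ≤ C := by
  have h1 : ∀ i, ∃ B : ℝ, ∀ t ∈ Metric.closedBall τ 1,
      1 + ∑ k ∈ Finset.range (M.R i).natDegree, ‖(sp (f t) (M.R i)).coeff k‖ ≤ B := by
    intro i
    have hc : Continuous (fun t => 1 + ∑ k ∈ Finset.range (M.R i).natDegree,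
        ‖(sp (f t) (M.R i)).coeff k‖) := by
      refine continuous_const.add (continuous_finsetSum _ (fun k _ => Continuous.norm ?_))
      have h2 : (fun t => (sp (f t) (M.R i)).coeff k) = fun t =>
          MvPolynomial.eval (f t) ((M.R i).coeff k) := by
        funext t
        exact coeff_map _ _
      rw [h2]
      exact (evalD _).continuous.comp hf.continuous
    obtain ⟨B, hB⟩ := ((isCompact_closedBall τ 1).image hc).bddAbove
    exact ⟨B, fun t ht => hB ⟨t, ht, rfl⟩⟩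
  choose B hB using h1
  have hK : IsCompact (Y ∩ Set.pi univ (fun i => Metric.closedBall (0 : ℂ) (B i))) :=
    (isCompact_univ_pi (fun i => isCompact_closedBall (0 : ℂ) (B i))).inter_left hY
  obtain ⟨C, hC⟩ := (hK.image_of_continuousOn
    ((hG.continuousOn.mono inter_subset_left).norm)).bddAbove
  refine ⟨max C 1, le_max_right _ _, fun t ht y hy hyt => ?_⟩
  refine le_trans (hC ⟨y, ⟨hy, fun i _ => ?_⟩, rfl⟩) (le_max_left _ _)
  rw [mem_closedBall_zero_iff]
  have h2 := root_bound ((M.R_monic i).map (MvPolynomial.eval (val M.pr y)))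
    ((M.R_monic i).natDegree_map _) (M.R_root i y hy)
  rw [hyt] at h2
  exact h2.le.trans (hB i t (Metric.ball_subset_closedBall ht))

theorem Model.Nm_bdd (M : Model Y s) (hY : IsClosed Y) (hG : Hol Y G) {f : ℂ → (Fin s → ℂ)}
    (hf : Differentiable ℂ f) (τ : ℂ) (hfin : {t | MvPolynomial.eval (f t) M.δ = 0}.Finite) :
    ∃ C : ℝ, ∀ᶠ t in 𝓝[≠] τ, ‖M.Nm G (f t)‖ ≤ C := by
  obtain ⟨C, hC1, hC⟩ := M.bounded hY hG hf τ
  refine ⟨C ^ M.Q.natDegree, ?_⟩
  have h1 : ∀ᶠ t in 𝓝[≠] τ, MvPolynomial.eval (f t) M.δ ≠ 0 := by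
    have h2 : IsClosed ({t | MvPolynomial.eval (f t) M.δ = 0} \ {τ}) := (hfin.sdiff).isClosed
    have h3 : τ ∉ {t | MvPolynomial.eval (f t) M.δ = 0} \ {τ} := fun h => h.2 rfl
    filter_upwards [self_mem_nhdsWithin, mem_nhdsWithin_of_mem_nhds (h2.isOpen_compl.mem_nhds h3)]
      with t h4 h5 h6
    exact h5 ⟨h6, h4⟩
  filter_upwards [h1, mem_nhdsWithin_of_mem_nhds (Metric.ball_mem_nhds τ one_pos)] with t h2 h3
  have hfam : Fam M.Q.natDegree M.fam := M.isFam
  obtain ⟨ρ, hi, hr, -⟩ := hfam.exists_roots ⟨f t, h2⟩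
  have hr' : ∀ i, (sp (f t) M.Q).eval (ρ i) = 0 := hr
  rw [M.Nm_eq hi hr', norm_prod]
  calc ∏ j, ‖G (M.pt (f t) (ρ j))‖ ≤ ∏ _j : Fin M.Q.natDegree, C :=
        Finset.prod_le_prod (fun _ _ => norm_nonneg _) (fun j _ =>
          hC t h3 _ (M.q_mem _ _ h2 (hr' j)) (M.q_pr _ _ h2 (hr' j)))
    _ = C ^ M.Q.natDegree := by simp

/-- the line -/
noncomputable def line {s : ℕ} (w₀ w₁ : Fin s → ℂ) (τ : ℂ) : Fin s → ℂ := w₀ + τ • (w₁ - w₀)

theorem line_diff {s : ℕ} (w₀ w₁ : Fin s → ℂ) : Differentiable ℂ (line w₀ w₁) := by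
  unfold line
  fun_prop

theorem line_zero {s : ℕ} (w₀ w₁ : Fin s → ℂ) : line w₀ w₁ 0 = w₀ := by simp [line]

theorem line_one {s : ℕ} (w₀ w₁ : Fin s → ℂ) : line w₀ w₁ 1 = w₁ := by simp [line]

theorem line_finite {s : ℕ} {w₀ w₁ : Fin s → ℂ} {δ : MvPolynomial (Fin s) ℂ}
    (h : MvPolynomial.eval w₀ δ ≠ 0) : {t | MvPolynomial.eval (line w₀ w₁ t) δ = 0}.Finite := by
  let p : ℂ[X] := MvPolynomial.aeval (fun i => C (w₀ i) + X * C (w₁ i - w₀ i)) δ
  have hp : ∀ t, p.eval t = MvPolynomial.eval (line w₀ w₁ t) δ := by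
    intro t
    have h1 := MvPolynomial.comp_aeval_apply (φ := (Polynomial.aeval t : ℂ[X] →ₐ[ℂ] ℂ))
      (fun i => C (w₀ i) + X * C (w₁ i - w₀ i)) δ
    rw [MvPolynomial.aeval_eq_eval] at h1
    have h2 : (fun i => (Polynomial.aeval t) (C (w₀ i) + X * C (w₁ i - w₀ i))) =
        line w₀ w₁ t := by
      funext i
      simp [line]
    rw [h2] at h1
    exact h1
  have hp0 : p ≠ 0 := by
    intro h0
    have h1 := hp 0
    rw [h0, eval_zero, line_zero] at h1
    exact h h1.symm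
  refine (Polynomial.finite_setOfPred_isRoot hp0).subset ?_
  intro t ht
  show p.eval t = 0
  rw [hp]; exact ht

/-- the norm along a line extends to an entire function -/
theorem Model.exists_entire (M : Model Y s) (hY : IsClosed Y) (hG : Hol Y G)
    {w₀ w₁ : Fin s → ℂ} (h₀ : MvPolynomial.eval w₀ M.δ ≠ 0) :
    ∃ g : ℂ → ℂ, Differentiable ℂ g ∧ ∀ τ, MvPolynomial.eval (line w₀ w₁ τ) M.δ ≠ 0 →
      g τ = M.Nm G (line w₀ w₁ τ) := by
  have hfin := line_finite (w₁ := w₁) h₀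
  obtain ⟨g, h1, h2⟩ := ext_entire hfin (g := fun τ => M.Nm G (line w₀ w₁ τ))
    (fun τ hτ => M.Nm_diff hG (line_diff _ _) hτ)
    (fun τ _ => M.Nm_bdd hY hG (line_diff _ _) τ hfin)
  exact ⟨g, h1, fun τ hτ => h2 τ hτ⟩

end

end Pool.Agent.L5helper22
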