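import Mathlib
import Pool.Agent.L5helper22.Nm
import Pool.Agent.L5helper22.BigPic

/-! The ends of a line. -/

set_option autoImplicit false

open Topology Set Polynomial Filter

namespace Pool.Agent.L5helper22

/-- continuous selections of roots over a connected space -/
theorem root_const {O : Type*} [TopologicalSpace O] [PreconnectedSpace O] {n : ℕ}
    {ζ : Fin n → O → ℂ} (hc : ∀ i, Continuous (ζ i))
    (hinj : ∀ x, Function.Injective (fun i => ζ i x)) {z : O → ℂ} (hz : Continuous z)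
    (h : ∀ x, ∃ i, z x = ζ i x) (x₀ : O) : ∃ i, ∀ x, z x = ζ i x := by
  classical
  choose idx hidx using h
  have hidxc : Continuous idx := by
    refine continuous_def.mpr (fun S _ => ?_)
    have : idx ⁻¹' S = (⋃ j ∈ Sᶜ, {b | z b = ζ j b})ᶜ := by
      ext b
      simp only [mem_preimage, mem_compl_iff, mem_iUnion, mem_ofPred_eq, exists_prop, not_exists,
        not_and]
      constructor
      · intro hb j hj he
        apply hj
        have := hinj _ ((hidx b).symm.trans he)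
        rwa [← this]
      · intro hb
        by_contra hS
        exact hb _ hS (hidx b)
    rw [this, isOpen_compl_iff]
    exact (Set.toFinite Sᶜ).isClosed_biUnion (fun j _ => isClosed_eq hz (hc j))
  refine ⟨idx x₀, fun x => ?_⟩
  rw [hidx x, PreconnectedSpace.constant inferInstance hidxc (x := x) (y := x₀)]

/-- the upper half plane above `h` -/
def Hp (h : ℝ) : Set ℂ := {ζ | h < ζ.im}

theorem Hp_open (h : ℝ) : IsOpen (Hp h) := isOpen_lt continuous_const Complex.continuous_im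

theorem Hp_convex (h : ℝ) : Convex ℝ (Hp h) := convex_halfSpace_im_gt h

theorem Hp_nonempty (h : ℝ) : (Hp h).Nonempty :=
  ⟨((h + 1 : ℝ) : ℂ) * Complex.I, by simp [Hp]⟩

/-- the coordinate on the line -/
noncomputable def tau (ζ : ℂ) : ℂ := Complex.exp (-(2 * Real.pi * Complex.I * ζ))

theorem tau_diff : Differentiable ℂ tau := by
  unfold tau
  fun_prop

theorem tau_add_one (ζ : ℂ) : tau (ζ + 1) = tau ζ := by
  unfold tau
  rw [mul_add, mul_one, neg_add, Complex.exp_add]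
  have : Complex.exp (-(2 * Real.pi * Complex.I)) = 1 := by
    rw [Complex.exp_neg, Complex.exp_two_pi_mul_I, inv_one]
  rw [this, mul_one]

theorem norm_tau (ζ : ℂ) : ‖tau ζ‖ = Real.exp (2 * Real.pi * ζ.im) := by
  unfold tau
  rw [Complex.norm_exp]
  congr 1
  simp [Complex.mul_re, Complex.mul_im]

theorem tau_surj {τ : ℂ} (hτ : τ ≠ 0) :
    tau (Complex.I / (2 * Real.pi) * Complex.log τ) = τ ∧
      (Complex.I / (2 * Real.pi) * Complex.log τ).im = Real.log ‖τ‖ / (2 * Real.pi) := by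
  constructor
  · unfold tau
    have : -(2 * Real.pi * Complex.I * (Complex.I / (2 * Real.pi) * Complex.log τ)) =
        Complex.log τ := by
      have hpi : (Real.pi : ℂ) ≠ 0 := Complex.ofReal_ne_zero.mpr Real.pi_ne_zero
      have e : -(2 * Real.pi * Complex.I * (Complex.I / (2 * Real.pi) * Complex.log τ)) =
          -(Complex.I * Complex.I) * ((2 * Real.pi) / (2 * Real.pi)) * Complex.log τ := by ring
      rw [e, Complex.I_mul_I, div_self (mul_ne_zero two_ne_zero hpi)]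
      ring
    rw [this, Complex.exp_log hτ]
  · have e : Complex.I / (2 * Real.pi) * Complex.log τ =
        ((1 / (2 * Real.pi) : ℝ) : ℂ) * (Complex.I * Complex.log τ) := by
      push_cast
      ring
    rw [e, Complex.im_ofReal_mul, Complex.I_mul_im, Complex.log_re]
    ring

section

variable {m s : ℕ} {Y : Set (Fin m → ℂ)} {G : (Fin m → ℂ) → ℂ}

/-- the ends of the preimage of a line -/
theorem Model.exists_cusps (M : Model Y s) {w₀ : Fin s → ℂ} (w₁ : Fin s → ℂ)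
    (h₀ : MvPolynomial.eval w₀ M.δ ≠ 0) :
    ∃ (L h : ℝ) (σ : Fin M.Q.natDegree → ℂ → (Fin m → ℂ)), 0 < L ∧
      (∀ ζ ∈ Hp h, MvPolynomial.eval (line w₀ w₁ (tau ζ)) M.δ ≠ 0) ∧
      (∀ j, ∀ ζ ∈ Hp h, σ j ζ ∈ Y) ∧
      (∀ j, DifferentiableOn ℂ (σ j) (Hp h)) ∧ (∀ j, Function.Periodic (σ j) L) ∧
      ∀ ζ ∈ Hp h, ∀ G, M.Nm G (line w₀ w₁ (tau ζ)) = ∏ j, G (σ j ζ) := by
  classical
  obtain ⟨R, hR⟩ := (line_finite (w₁ := w₁) h₀).isBounded.subset_ball (0 : ℂ)
  obtain ⟨h, hh⟩ : ∃ h : ℝ, h = max R 0 := ⟨_, rfl⟩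
  have hfδ : ∀ ζ ∈ Hp h, MvPolynomial.eval (line w₀ w₁ (tau ζ)) M.δ ≠ 0 := by
    intro ζ hζ h0
    have h1 : tau ζ ∈ Metric.ball (0 : ℂ) R := hR h0
    rw [mem_ball_zero_iff, norm_tau] at h1
    have h2 : h < ζ.im := hζ
    have h3 : R ≤ h := by rw [hh]; exact le_max_left _ _
    have h4 : 0 ≤ h := by rw [hh]; exact le_max_right _ _
    have h5 : 2 * Real.pi * ζ.im + 1 ≤ Real.exp (2 * Real.pi * ζ.im) := Real.add_one_le_exp _
    have h6 : 3 < Real.pi := Real.pi_gt_three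
    nlinarith
  have hf : DifferentiableOn ℂ (fun ζ => line w₀ w₁ (tau ζ)) (Hp h) :=
    ((line_diff w₀ w₁).comp tau_diff).differentiableOn
  obtain ⟨z, hz1, hz2, hz3, hz4⟩ := M.exists_lifts (Hp_open h) (Hp_convex h) (Hp_nonempty h)
    hf hfδ
  -- the monodromy
  have hpre : PreconnectedSpace (Hp h) :=
    isPreconnected_iff_preconnectedSpace.mp (Hp_convex h).isPreconnected
  obtain ⟨ζ₀, hζ₀⟩ := Hp_nonempty h
  have hshift : ∀ ζ ∈ Hp h, ζ + 1 ∈ Hp h := by
    intro ζ hζ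
    have h1 : h < ζ.im := hζ
    show h < (ζ + 1).im
    simpa using h1
  have hmono : ∀ j, ∃ i, ∀ ζ : Hp h, z j (ζ + 1) = z i ζ := by
    intro j
    refine root_const (O := Hp h) (ζ := fun i ζ => z i ζ) (z := fun ζ => z j (ζ + 1))
      (fun i => (hz1 i).continuousOn.comp_continuous continuous_subtype_val (fun x => x.2))
      (fun ζ => hz3 ζ ζ.2) ?_ (fun ζ => ?_) ⟨ζ₀, hζ₀⟩
    · exact (hz1 j).continuousOn.comp_continuous
        (continuous_subtype_val.add continuous_const) (fun x => hshift _ x.2)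
    · refine hz4 ζ ζ.2 _ ?_
      have h1 := hz2 (ζ + 1) (hshift _ ζ.2) j
      simp only [tau_add_one] at h1
      exact h1
  choose π hπ using hmono
  have hπinj : Function.Injective π := by
    intro i j hij
    have h1 := hπ i ⟨ζ₀, hζ₀⟩
    have h2 := hπ j ⟨ζ₀, hζ₀⟩
    rw [hij, ← h2] at h1
    exact hz3 _ (hshift _ hζ₀) h1
  let e : Equiv.Perm (Fin M.Q.natDegree) := Equiv.ofBijective π
    (Finite.injective_iff_bijective.mp hπinj)
  have hn : ∀ n : ℕ, ∀ j, ∀ ζ ∈ Hp h, ζ + n ∈ Hp h ∧ z j (ζ + n) = z ((e ^ n) j) ζ := by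
    intro n
    induction n with
    | zero =>
      intro j ζ hζ
      simpa using hζ
    | succ n ih =>
      intro j ζ hζ
      have h1 : ζ + ((n + 1 : ℕ) : ℂ) = ζ + n + 1 := by push_cast; ring
      rw [h1]
      obtain ⟨h2, -⟩ := ih j ζ hζ
      refine ⟨hshift _ h2, ?_⟩
      rw [hπ j ⟨_, h2⟩]
      have h3 := (ih (π j) ζ hζ).2
      rw [h3, pow_succ, Equiv.Perm.mul_apply]
      rfl
  obtain ⟨n, hnpos, hn1⟩ : ∃ n : ℕ, 0 < n ∧ e ^ n = 1 :=
    ⟨orderOf e, orderOf_pos e, pow_orderOf_eq_one e⟩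
  have hper : ∀ j, ∀ ζ ∈ Hp h, ζ + n ∈ Hp h ∧ z j (ζ + n) = z j ζ := by
    intro j ζ hζ
    obtain ⟨h1, h2⟩ := hn n j ζ hζ
    refine ⟨h1, ?_⟩
    rw [h2, hn1]
    rfl
  have htau : ∀ n : ℕ, ∀ ζ, tau (ζ + n) = tau ζ := by
    intro n
    induction n with
    | zero => intro ζ; simp
    | succ n ih =>
      intro ζ
      have h1 : ζ + ((n + 1 : ℕ) : ℂ) = ζ + n + 1 := by push_cast; ring
      rw [h1, tau_add_one, ih]
  have hσ : ∀ j, ∀ ζ ∈ Hp h, (if ζ ∈ Hp h then M.pt (line w₀ w₁ (tau ζ)) (z j ζ) else 0) =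
      M.pt (line w₀ w₁ (tau ζ)) (z j ζ) := fun j ζ hζ => if_pos hζ
  refine ⟨n, h, fun j ζ => if ζ ∈ Hp h then M.pt (line w₀ w₁ (tau ζ)) (z j ζ) else 0,
    by exact_mod_cast hnpos, hfδ, fun j ζ hζ => ?_, fun j => ?_, fun j ζ => ?_, fun ζ hζ G => ?_⟩
  · show (if ζ ∈ Hp h then M.pt (line w₀ w₁ (tau ζ)) (z j ζ) else 0) ∈ Y
    rw [hσ j ζ hζ]
    exact M.q_mem _ _ (hfδ ζ hζ) (hz2 ζ hζ j)
  · exact (M.diff_pt hf hfδ (hz1 j)).congr (fun ζ hζ => hσ j ζ hζ)
  · simp only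
    have h1 : ζ + ((n : ℝ) : ℂ) = ζ + (n : ℂ) := by push_cast; rfl
    rw [h1]
    by_cases hζ : ζ ∈ Hp h
    · obtain ⟨h2, h3⟩ := hper j ζ hζ
      rw [if_pos h2, if_pos hζ, h3, htau]
    · have h2 : ζ + (n : ℂ) ∉ Hp h := by
        intro h2
        apply hζ
        have h3 : h < (ζ + (n : ℂ)).im := h2
        show h < ζ.im
        simpa using h3
      rw [if_neg hζ, if_neg h2]
  · rw [M.Nm_eq (hz3 ζ hζ) (hz2 ζ hζ)]
    refine Finset.prod_congr rfl (fun j _ => ?_)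
    show _ = G (if ζ ∈ Hp h then M.pt (line w₀ w₁ (tau ζ)) (z j ζ) else 0)
    rw [hσ j ζ hζ]

end

end Pool.Agent.L5helper22
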