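import Mathlib
import Pool.Agent.L5helper22.Cusp
import Pool.Agent.L5helper22.Log

/-! Orders at the ends of a line. -/

set_option autoImplicit false

open Topology Set Polynomial Filter

namespace Pool.Agent.L5helper22

open Function.Periodic

/-- ends -/
structure Ends {m : ℕ} (Y : Set (Fin m → ℂ)) (D : ℕ) where
  L : ℝ
  h : ℝ
  σ : Fin D → ℂ → (Fin m → ℂ)
  hL : 0 < L
  mem : ∀ j, ∀ ζ ∈ Hp h, σ j ζ ∈ Y
  diff : ∀ j, DifferentiableOn ℂ (σ j) (Hp h)
  per : ∀ j, Function.Periodic (σ j) L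

section

variable {m D : ℕ} {Y : Set (Fin m → ℂ)} (E : Ends Y D) {G G' : (Fin m → ℂ) → ℂ}

/-- the function near the end -/
noncomputable def Ends.psi (j : Fin D) (G : (Fin m → ℂ) → ℂ) (q : ℂ) : ℂ :=
  G (E.σ j (invQParam E.L q))

/-- meromorphic at the ends -/
def Ends.Mer (G : (Fin m → ℂ) → ℂ) : Prop := Hol Y G ∧ ∀ j, MeromorphicAt (E.psi j G) 0

/-- the order at an end -/
noncomputable def Ends.ord (j : Fin D) (G : (Fin m → ℂ) → ℂ) : WithTop ℤ :=
  meromorphicOrderAt (E.psi j G) 0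

theorem Ends.mer_const (c : ℂ) : E.Mer (fun _ => c) :=
  ⟨Hol.const c, fun _ => MeromorphicAt.const c 0⟩

variable {E}

theorem Ends.Mer.add (h : E.Mer G) (h' : E.Mer G') : E.Mer (fun y => G y + G' y) :=
  ⟨h.1.add h'.1, fun j => (h.2 j).add (h'.2 j)⟩

theorem Ends.Mer.sub (h : E.Mer G) (h' : E.Mer G') : E.Mer (fun y => G y - G' y) :=
  ⟨h.1.sub h'.1, fun j => (h.2 j).sub (h'.2 j)⟩

theorem Ends.Mer.mul (h : E.Mer G) (h' : E.Mer G') : E.Mer (fun y => G y * G' y) :=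
  ⟨h.1.mul h'.1, fun j => (h.2 j).mul (h'.2 j)⟩

theorem Ends.Mer.pow (h : E.Mer G) (n : ℕ) : E.Mer (fun y => G y ^ n) :=
  ⟨h.1.pow n, fun j => (h.2 j).pow n⟩

theorem Ends.Mer.inv (h : E.Mer G) (h0 : ∀ y ∈ Y, G y ≠ 0) : E.Mer (fun y => (G y)⁻¹) :=
  ⟨h.1.inv h0, fun j => (h.2 j).inv⟩

theorem Ends.ord_mul (j : Fin D) (h : E.Mer G) (h' : E.Mer G') :
    E.ord j (fun y => G y * G' y) = E.ord j G + E.ord j G' :=
  meromorphicOrderAt_mul (h.2 j) (h'.2 j)

theorem Ends.ord_pow (j : Fin D) (h : E.Mer G) (n : ℕ) :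
    E.ord j (fun y => G y ^ n) = n * E.ord j G :=
  meromorphicOrderAt_pow (h.2 j)

theorem Ends.ord_add (j : Fin D) (h : E.Mer G) (h' : E.Mer G') :
    min (E.ord j G) (E.ord j G') ≤ E.ord j (fun y => G y + G' y) :=
  meromorphicOrderAt_add (h.2 j) (h'.2 j)

theorem Ends.ord_const (j : Fin D) (c : ℂ) : 0 ≤ E.ord j (fun _ => c) := by
  classical
  show 0 ≤ meromorphicOrderAt (fun _ : ℂ => c) 0
  rw [meromorphicOrderAt_const]
  split_ifs <;> simp

theorem Ends.ord_const_ne (j : Fin D) {c : ℂ} (hc : c ≠ 0) : E.ord j (fun _ => c) = 0 := by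
  classical
  show meromorphicOrderAt (fun _ : ℂ => c) 0 = 0
  rw [meromorphicOrderAt_const]
  simp [hc]

theorem Ends.ord_inv (j : Fin D) : E.ord j (fun y => (G y)⁻¹) = - E.ord j G :=
  meromorphicOrderAt_inv

/-- high up in the half plane -/
theorem Ends.eventually_im (E : Ends Y D) (a : ℝ) : ∀ᶠ q in 𝓝[≠] (0 : ℂ),
    invQParam E.L q ∈ Hp a := by
  filter_upwards [punct _ (Real.exp_pos (-2 * Real.pi * a / E.L))] with q hq
  have h1 : qParam E.L (invQParam E.L q) = q := qParam_right_inv E.hL.ne' hq.1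
  show a < (invQParam E.L q).im
  rw [← norm_qParam_lt_iff E.hL, h1]
  exact hq.2

theorem Ends.ord_ne_top (j : Fin D) (h : E.Mer G) (h0 : ∀ y ∈ Y, G y ≠ 0) : E.ord j G ≠ ⊤ := by
  rw [Ends.ord, meromorphicOrderAt_ne_top_iff_eventually_ne_zero (h.2 j)]
  filter_upwards [E.eventually_im E.h] with q hq
  exact h0 _ (E.mem j _ hq)

/-- functions omitting two values are meromorphic at the ends -/
theorem Ends.mer_omit (E : Ends Y D) (hG : Hol Y G) (h01 : ∀ y ∈ Y, G y ≠ 0 ∧ G y ≠ 1) :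
    E.Mer G := by
  refine ⟨hG, fun j => ?_⟩
  have hper : Function.Periodic (fun ζ => G (E.σ j ζ)) E.L := by
    intro ζ
    simp only
    rw [E.per j ζ]
  have hd : DifferentiableOn ℂ (fun ζ => G (E.σ j ζ)) (Hp E.h) :=
    hG.comp (Hp_open _) (E.diff j) (E.mem j)
  have h1 := big_picard (h := E.h) E.hL hper
    (fun ζ hζ => hd.differentiableAt ((Hp_open _).mem_nhds hζ))
    (fun ζ hζ => h01 _ (E.mem j ζ hζ))
  refine h1.congr ?_
  filter_upwards [self_mem_nhdsWithin] with q hq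
  exact cuspFunction_eq_of_nonzero E.L _ hq

/-- functions with a logarithm have order zero -/
theorem Ends.ord_log (j : Fin D) (hm : E.Mer G) (h0 : ∀ y ∈ Y, G y ≠ 0)
    (hlog : LogOn (fun y : Y => G y) univ) : E.ord j G = 0 := by
  classical
  obtain ⟨k, hk⟩ := WithTop.ne_top_iff_exists.mp (Ends.ord_ne_top j hm h0)
  rw [← hk]
  obtain ⟨g, hg, hg0, hgev⟩ := (meromorphicOrderAt_eq_int_iff (hm.2 j)).mp hk.symm
  obtain ⟨F, hF, hF'⟩ := hlog
  have hs : ∀ᶠ q in 𝓝 (0 : ℂ), ContinuousAt g q ∧ g q / g 0 ∈ Complex.slitPlane := by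
    refine hg.eventually_continuousAt.and ?_
    have h1 : ContinuousAt (fun q => g q / g 0) 0 := hg.continuousAt.div_const _
    refine h1.eventually_mem (Complex.isOpen_slitPlane.mem_nhds ?_)
    simp [div_self hg0]
  have hall := (mem_nhdsWithin_of_mem_nhds hs : _ ∈ 𝓝[≠] (0 : ℂ))
  have hall2 : ∀ᶠ q in 𝓝[≠] (0 : ℂ), (ContinuousAt g q ∧ g q / g 0 ∈ Complex.slitPlane) ∧
      E.psi j G q = (q - 0) ^ k • g q := hgev.and hall |>.mono (fun q hq => ⟨hq.2, hq.1⟩)
  have hI := (qParam_tendsto E.hL).eventually hall2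
  rw [eventually_comap] at hI
  obtain ⟨a, ha⟩ := eventually_atTop.mp hI
  obtain ⟨b, hb⟩ : ∃ b : ℝ, b = max a E.h := ⟨_, rfl⟩
  have hba : ∀ ζ ∈ Hp b, (ContinuousAt g (qParam E.L ζ) ∧
      g (qParam E.L ζ) / g 0 ∈ Complex.slitPlane) ∧
      E.psi j G (qParam E.L ζ) = (qParam E.L ζ - 0) ^ k • g (qParam E.L ζ) := by
    intro ζ hζ
    have h1 : b < ζ.im := hζ
    have h2 : a ≤ b := by rw [hb]; exact le_max_left _ _
    exact ha ζ.im (h2.trans h1.le) ζ rfl
  have hbh : ∀ ζ ∈ Hp b, ζ ∈ Hp E.h := by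
    intro ζ hζ
    have h1 : b < ζ.im := hζ
    have h2 : E.h ≤ b := by rw [hb]; exact le_max_right _ _
    exact lt_of_le_of_lt h2 h1
  have hpsi : ∀ ζ, E.psi j G (qParam E.L ζ) = G (E.σ j ζ) := by
    intro ζ
    obtain ⟨n, hn⟩ := qParam_left_inv_mod_period E.hL.ne' ζ
    rw [Ends.psi, hn, (E.per j).int_mul n ζ]
  -- the two logarithms
  have hA : ContinuousOn (fun ζ => if h : E.σ j ζ ∈ Y then F ⟨_, h⟩ else 0) (Hp b) := by
    rw [continuousOn_iff_continuous_domRestrict]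
    have h1 : Continuous (fun ζ : Hp b => F ⟨E.σ j ζ, E.mem j _ (hbh _ ζ.2)⟩) := by
      have h2 : Continuous (fun ζ : Hp b => (⟨E.σ j ζ, E.mem j _ (hbh _ ζ.2)⟩ : Y)) := by
        refine Continuous.subtype_mk ?_ _
        exact ((E.diff j).continuousOn.mono hbh).comp_continuous continuous_subtype_val
          (fun x => x.2)
      exact (continuousOn_univ.mp hF).comp h2
    convert h1 using 1
    funext ζ
    exact dif_pos (E.mem j _ (hbh _ ζ.2))
  have hB : ContinuousOn (fun ζ : ℂ => k * (2 * Real.pi * Complex.I * ζ / E.L) +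
      Complex.log (g (qParam E.L ζ) / g 0) + Complex.log (g 0)) (Hp b) := by
    refine ContinuousOn.add (ContinuousOn.add (by fun_prop) ?_) continuousOn_const
    intro ζ hζ
    have h1 := (hba ζ hζ).1
    have h2 : ContinuousAt (fun ζ => g (qParam E.L ζ) / g 0) ζ :=
      (ContinuousAt.comp (f := qParam E.L) h1.1 continuous_qParam.continuousAt).div_const _
    exact (h2.clog h1.2).continuousWithinAt
  have hAB : ∀ ζ ∈ Hp b, Complex.exp (if h : E.σ j ζ ∈ Y then F ⟨_, h⟩ else 0) =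
      Complex.exp (k * (2 * Real.pi * Complex.I * ζ / E.L) +
      Complex.log (g (qParam E.L ζ) / g 0) + Complex.log (g 0)) := by
    intro ζ hζ
    have h1 := hba ζ hζ
    rw [dif_pos (E.mem j _ (hbh _ hζ)), hF' _ (mem_univ _)]
    show G (E.σ j ζ) = _
    rw [← hpsi ζ, h1.2, Complex.exp_add, Complex.exp_add, Complex.exp_log hg0,
      Complex.exp_log (Complex.slitPlane_ne_zero h1.1.2), mul_assoc, div_mul_cancel₀ _ hg0,
      sub_zero, smul_eq_mul, Complex.exp_int_mul]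
    rfl
  obtain ⟨ζ, hζ⟩ := Hp_nonempty b
  have hζ' : ζ + E.L ∈ Hp b := by
    have h1 : b < ζ.im := hζ
    show b < (ζ + E.L).im
    simpa using h1
  have hfin := log_const (Hp_convex b).isPreconnected hA hB hAB hζ' hζ
  have hq : qParam E.L (ζ + E.L) = qParam E.L ζ := by
    unfold qParam
    have hL : (E.L : ℂ) ≠ 0 := Complex.ofReal_ne_zero.mpr E.hL.ne'
    rw [mul_add, add_div, Complex.exp_add, mul_div_assoc (2 * Real.pi * Complex.I) (E.L : ℂ),
      div_self hL, mul_one, Complex.exp_two_pi_mul_I, mul_one]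
  simp only [E.per j ζ, hq] at hfin
  have hL : (E.L : ℂ) ≠ 0 := Complex.ofReal_ne_zero.mpr E.hL.ne'
  have h3 : (k : ℂ) * (2 * Real.pi * Complex.I) = 0 := by
    have h4 : (k : ℂ) * (2 * Real.pi * Complex.I * (ζ + E.L) / E.L) =
        (k : ℂ) * (2 * Real.pi * Complex.I * ζ / E.L) + (k : ℂ) * (2 * Real.pi * Complex.I) := by
      field_simp
    rw [h4] at hfin
    linear_combination -hfin
  rcases mul_eq_zero.mp h3 with h4 | h4
  · have : k = 0 := by exact_mod_cast h4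
    rw [this]; rfl
  · exact absurd h4 Complex.two_pi_I_ne_zero

end

end Pool.Agent.L5helper22
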