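import Mathlib
import Pool.Agent.L5helper22.Ord

/-! The product formula. -/

set_option autoImplicit false

open Topology Set Polynomial Filter

namespace Pool.Agent.L5helper22

open Function.Periodic

theorem log_norm_tendsto : Tendsto (fun τ : ℂ => Complex.I / (2 * Real.pi) * Complex.log τ)
    (cocompact ℂ) (comap Complex.im atTop) := by
  rw [tendsto_comap_iff]
  have h1 : Tendsto (fun τ : ℂ => Real.log ‖τ‖ / (2 * Real.pi)) (cocompact ℂ) atTop := by
    refine Tendsto.atTop_div_const (by positivity) ?_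
    exact Real.tendsto_log_atTop.comp (tendsto_norm_cocompact_atTop (E := ℂ))
  refine h1.congr' ?_
  have h2 : ∀ᶠ τ : ℂ in cocompact ℂ, 0 < ‖τ‖ :=
    (tendsto_norm_cocompact_atTop (E := ℂ)).eventually_gt_atTop 0
  filter_upwards [h2] with τ hτ
  exact (tau_surj (norm_pos_iff.mp hτ)).2.symm

section

variable {m s : ℕ} {Y : Set (Fin m → ℂ)}

/-- the ends with the product formula -/
theorem Model.exists_ends (M : Model Y s) (hY : IsClosed Y) {w₀ w₁ : Fin s → ℂ}
    (h₀ : MvPolynomial.eval w₀ M.δ ≠ 0) (h₁ : MvPolynomial.eval w₁ M.δ ≠ 0) :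
    ∃ E : Ends Y M.Q.natDegree,
      (∀ G, E.Mer G → w₀ ∈ M.Gd G → ∑ j, E.ord j G ≤ 0) ∧
      ∀ G, E.Mer G → (∀ j, 0 ≤ E.ord j G) → w₁ ∈ M.Gd G → w₀ ∈ M.Gd G := by
  obtain ⟨L, h, σ, hL, hδ, hmem, hdiff, hper, hNm⟩ := M.exists_cusps w₁ h₀
  let E : Ends Y M.Q.natDegree := ⟨L, h, σ, hL, hmem, hdiff, hper⟩
  have key : ∀ G, E.Mer G → 0 ≤ ∑ j, E.ord j G → ∃ c : ℂ, (0 < ∑ j, E.ord j G → c = 0) ∧
      ∀ τ, MvPolynomial.eval (line w₀ w₁ τ) M.δ ≠ 0 → M.Nm G (line w₀ w₁ τ) = c := by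
    intro G hG hord
    have hmer : MeromorphicAt (fun q => ∏ j, E.psi j G q) 0 :=
      MeromorphicAt.fun_prod (fun j _ => hG.2 j)
    have hsum : meromorphicOrderAt (fun q => ∏ j, E.psi j G q) 0 = ∑ j, E.ord j G :=
      meromorphicOrderAt_fun_prod (fun j _ => hG.2 j)
    obtain ⟨c, hc⟩ := tendsto_nhds_of_meromorphicOrderAt_nonneg hmer (by rw [hsum]; exact hord)
    refine ⟨c, fun hpos => ?_, ?_⟩
    · have h1 := tendsto_zero_of_meromorphicOrderAt_pos (f := fun q => ∏ j, E.psi j G q)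
        (x := (0 : ℂ)) (by rw [hsum]; exact hpos)
      exact tendsto_nhds_unique hc h1
    · obtain ⟨g, hg, hge⟩ := M.exists_entire hY hG.1 (w₁ := w₁) h₀
      have h1 : Tendsto (fun τ : ℂ => ∏ j, E.psi j G
          (qParam L (Complex.I / (2 * Real.pi) * Complex.log τ))) (cocompact ℂ) (𝓝 c) :=
        hc.comp ((qParam_tendsto hL).comp log_norm_tendsto)
      have h2 : ∀ᶠ τ : ℂ in cocompact ℂ, ∏ j, E.psi j G
          (qParam L (Complex.I / (2 * Real.pi) * Complex.log τ)) = g τ := by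
        have h3 : ∀ᶠ τ : ℂ in cocompact ℂ, 0 < ‖τ‖ :=
          (tendsto_norm_cocompact_atTop (E := ℂ)).eventually_gt_atTop 0
        have h4 : ∀ᶠ τ : ℂ in cocompact ℂ,
            h < (Complex.I / (2 * Real.pi) * Complex.log τ).im := by
          have h5 := log_norm_tendsto
          rw [tendsto_comap_iff] at h5
          exact h5.eventually_gt_atTop h
        filter_upwards [h3, h4] with τ h5 h6
        have h7 := (tau_surj (norm_pos_iff.mp h5)).1
        have h8 := hNm _ h6 G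
        have h9 := hδ _ h6
        rw [h7] at h8 h9
        rw [hge τ h9, h8]
        refine Finset.prod_congr rfl (fun j _ => ?_)
        obtain ⟨n, hn⟩ := qParam_left_inv_mod_period hL.ne'
          (Complex.I / (2 * Real.pi) * Complex.log τ)
        show G (σ j (invQParam L (qParam L _))) = _
        rw [hn, (hper j).int_mul n]
      have h3 : Tendsto g (cocompact ℂ) (𝓝 c) := h1.congr' h2
      intro τ hτ
      rw [← hge τ hτ]
      exact hg.apply_eq_of_tendsto_cocompact τ h3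
  have hGd : ∀ {w : Fin s → ℂ} (G : (Fin m → ℂ) → ℂ), MvPolynomial.eval w M.δ ≠ 0 →
      (w ∈ M.Gd G ↔ M.Nm G w ≠ 0) := by
    intro w G hw
    rw [Ne, M.Nm_eq_zero]
    push Not
    exact ⟨fun h z hz => h.2 z hz, fun h => ⟨hw, h⟩⟩
  refine ⟨E, fun G hG hw₀ => ?_, fun G hG hord hw₁ => ?_⟩
  · by_contra hcon
    push Not at hcon
    obtain ⟨c, hc, hN⟩ := key G hG hcon.le
    have h1 := hN 0 (by rw [line_zero]; exact h₀)
    rw [line_zero, hc hcon] at h1
    exact (hGd G h₀).mp hw₀ h1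
  · obtain ⟨c, hc, hN⟩ := key G hG (Finset.sum_nonneg (fun j _ => hord j))
    have h1 := hN 0 (by rw [line_zero]; exact h₀)
    have h2 := hN 1 (by rw [line_one]; exact h₁)
    rw [line_zero] at h1
    rw [line_one] at h2
    rw [hGd G h₀, h1, ← h2]
    exact (hGd G h₁).mp hw₁

end

end Pool.Agent.L5helper22
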