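import Mathlib
import Pool.Agent.L5helper22.PF

/-! Bounds for orders. -/

set_option autoImplicit false

open Topology Set Polynomial Filter

namespace Pool.Agent.L5helper22

section

variable {m D : ℕ} {Y : Set (Fin m → ℂ)} {E : Ends Y D} {G G' : (Fin m → ℂ) → ℂ}

theorem Ends.ord_congr {G G' : (Fin m → ℂ) → ℂ} (h : ∀ y ∈ Y, G y = G' y) (j : Fin D) :
    E.ord j G = E.ord j G' := by
  refine meromorphicOrderAt_congr ?_
  filter_upwards [E.eventually_im E.h] with q hq
  exact h _ (E.mem j _ hq)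

theorem Ends.ord_sub (j : Fin D) (h : E.Mer G) (h' : E.Mer G') :
    min (E.ord j G) (E.ord j G') ≤ E.ord j (fun y => G y - G' y) := by
  have h1 := Ends.ord_add j h ((E.mer_const (-1)).mul h')
  rw [Ends.ord_mul j (E.mer_const (-1)) h', Ends.ord_const_ne j (by norm_num), zero_add] at h1
  refine h1.trans (le_of_eq (Ends.ord_congr (fun y _ => ?_) j))
  ring

theorem Ends.Mer.poly (h : E.Mer G) (P : ℂ[X]) : E.Mer (fun y => P.eval (G y)) := by
  refine ⟨h.1.poly P, fun j => ?_⟩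
  have e : E.psi j (fun y => P.eval (G y)) = fun q =>
      ∑ i ∈ Finset.range (P.natDegree + 1), P.coeff i * (E.psi j G q) ^ i := by
    funext q
    exact eval_eq_sum_range _
  rw [e]
  exact MeromorphicAt.fun_sum (fun i _ => (MeromorphicAt.const _ _).mul ((h.2 j).pow i))

theorem Ends.Mer.zpow (h : E.Mer G) (h0 : ∀ y ∈ Y, G y ≠ 0) (n : ℤ) :
    E.Mer (fun y => G y ^ n) := by
  refine ⟨?_, fun j => (h.2 j).zpow n⟩
  cases n with
  | ofNat n =>
    have := h.1.pow n
    simpa using this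
  | negSucc n =>
    have := (h.1.pow (n + 1)).inv (fun y hy => pow_ne_zero _ (h0 y hy))
    simpa [zpow_negSucc] using this

theorem Hol.prod {ι : Type*} (s : Finset ι) {F : ι → (Fin m → ℂ) → ℂ}
    (h : ∀ i ∈ s, Hol Y (F i)) : Hol Y (fun y => ∏ i ∈ s, F i y) := by
  classical
  induction s using Finset.induction_on with
  | empty => simpa using Hol.const 1
  | insert a s ha ih =>
    have := (h a (Finset.mem_insert_self a s)).mul
      (ih (fun i hi => h i (Finset.mem_insert_of_mem hi)))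
    simpa [Finset.prod_insert ha] using this

theorem Ends.Mer.prod {ι : Type*} (s : Finset ι) {F : ι → (Fin m → ℂ) → ℂ}
    (h : ∀ i ∈ s, E.Mer (F i)) : E.Mer (fun y => ∏ i ∈ s, F i y) :=
  ⟨Hol.prod s (fun i hi => (h i hi).1), fun j => MeromorphicAt.fun_prod (fun i hi => (h i hi).2 j)⟩

theorem Ends.ord_zpow (j : Fin D) (h : E.Mer G) (n : ℤ) {v : ℤ} (hv : E.ord j G = v) :
    E.ord j (fun y => G y ^ n) = ((n * v : ℤ) : WithTop ℤ) := by
  have h1 : E.ord j (fun y => G y ^ n) = n * E.ord j G := meromorphicOrderAt_zpow (h.2 j)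
  rw [h1, hv]
  rfl

theorem Ends.ord_prod (j : Fin D) {ι : Type*} (s : Finset ι) {F : ι → (Fin m → ℂ) → ℂ}
    (h : ∀ i ∈ s, E.Mer (F i)) {v : ι → ℤ} (hv : ∀ i ∈ s, E.ord j (F i) = v i) :
    E.ord j (fun y => ∏ i ∈ s, F i y) = ((∑ i ∈ s, v i : ℤ) : WithTop ℤ) := by
  have h1 : E.ord j (fun y => ∏ i ∈ s, F i y) = ∑ i ∈ s, E.ord j (F i) :=
    meromorphicOrderAt_fun_prod (fun i hi => (h i hi).2 j)
  rw [h1, Finset.sum_congr rfl hv]
  push_cast
  rfl

/-- the order of a product with a power -/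
theorem Ends.le_ord_mul (j : Fin D) (h : E.Mer G) (h' : E.Mer G') {a b : ℤ}
    (ha : (a : WithTop ℤ) ≤ E.ord j G) (hb : (b : WithTop ℤ) ≤ E.ord j G') :
    ((a + b : ℤ) : WithTop ℤ) ≤ E.ord j (fun y => G y * G' y) := by
  rw [Ends.ord_mul j h h']
  push_cast
  exact add_le_add ha hb

theorem Ends.le_ord_pow (j : Fin D) (h : E.Mer G) (n : ℕ) {v : ℤ} (hv : E.ord j G = v) :
    ((n * v : ℤ) : WithTop ℤ) ≤ E.ord j (fun y => G y ^ n) := by
  have h1 : E.ord j (fun y => G y ^ n) = n * E.ord j G := meromorphicOrderAt_pow (h.2 j)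
  rw [h1, hv]
  exact le_of_eq rfl

theorem Ends.le_ord_sum (j : Fin D) {ι : Type*} (s : Finset ι) {F : ι → (Fin m → ℂ) → ℂ}
    (h : ∀ i ∈ s, E.Mer (F i)) {b : WithTop ℤ} (hb : ∀ i ∈ s, b ≤ E.ord j (F i)) :
    E.Mer (fun y => ∑ i ∈ s, F i y) ∧ (s.Nonempty → b ≤ E.ord j (fun y => ∑ i ∈ s, F i y)) := by
  classical
  induction s using Finset.induction_on with
  | empty =>
    refine ⟨by simpa using E.mer_const 0, fun h => ?_⟩
    simp at h
  | insert a s ha ih =>
    obtain ⟨h1, h2⟩ := ih (fun i hi => h i (Finset.mem_insert_of_mem hi))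
      (fun i hi => hb i (Finset.mem_insert_of_mem hi))
    have ha' := h a (Finset.mem_insert_self a s)
    have hb' := hb a (Finset.mem_insert_self a s)
    refine ⟨by simpa [Finset.sum_insert ha] using ha'.add h1, fun _ => ?_⟩
    rcases s.eq_empty_or_nonempty with hs | hs
    · subst hs
      simpa using hb'
    · have h3 := Ends.ord_add j ha' h1
      have h4 : (fun y => ∑ i ∈ insert a s, F i y) = fun y => F a y + ∑ i ∈ s, F i y := by
        funext y
        rw [Finset.sum_insert ha]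
      rw [h4]
      exact (le_min hb' (h2 hs)).trans h3

theorem Ends.le_ord_poly (j : Fin D) (h : E.Mer G) {v : ℤ} (hv : E.ord j G = v) {k : ℕ}
    {P : ℂ[X]} (hP : P.natDegree ≤ k) :
    ((k * min v 0 : ℤ) : WithTop ℤ) ≤ E.ord j (fun y => P.eval (G y)) := by
  have h1 := Ends.le_ord_sum j (Finset.range (P.natDegree + 1))
    (F := fun i y => P.coeff i * (G y) ^ i) (E := E) (b := ((k * min v 0 : ℤ) : WithTop ℤ))
    (fun i _ => (E.mer_const _).mul (h.pow i)) (fun i hi => ?_)
  · have h2 := h1.2 ⟨0, by simp⟩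
    refine h2.trans (le_of_eq (Ends.ord_congr (fun y _ => ?_) j))
    exact (eval_eq_sum_range _).symm
  · have h3 := Ends.le_ord_mul j (E.mer_const (P.coeff i)) (h.pow i) (a := 0)
      (by exact_mod_cast Ends.ord_const j _) (Ends.le_ord_pow j h i hv)
    refine le_trans ?_ h3
    rw [WithTop.coe_le_coe, zero_add]
    have hik : (i : ℤ) ≤ k := by
      rw [Finset.mem_range] at hi
      omega
    have hi0 : (0 : ℤ) ≤ i := by positivity
    rcases le_total v 0 with h4 | h4
    · rw [min_eq_left h4]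
      nlinarith
    · rw [min_eq_right h4, mul_zero]
      positivity

theorem Ends.sum_le {l : Fin D → ℤ} (hl : ∀ j, (l j : WithTop ℤ) ≤ E.ord j G)
    (h : ∑ j, E.ord j G ≤ 0) : ∑ j, l j ≤ 0 := by
  have h1 : ((∑ j, l j : ℤ) : WithTop ℤ) ≤ ∑ j, E.ord j G := by
    push_cast
    exact Finset.sum_le_sum (fun j _ => hl j)
  have h2 := h1.trans h
  exact_mod_cast h2

end

end Pool.Agent.L5helper22
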