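import Mathlib

/-! Pade approximations. -/

set_option autoImplicit false

open Polynomial

namespace Pool.Agent.L5helper22

theorem pade_unique {k : ℕ} {p q r : ℂ[X]} (hp : p.natDegree < k) (hq : q.natDegree < k)
    (hr : r.natDegree < k) (h : X ^ (2 * k) * p + (1 - X) ^ (2 * k) * q = r) : p = 0 := by
  have h1 : derivative^[k] (X ^ (2 * k) * p) + derivative^[k] ((1 - X) ^ (2 * k) * q) = 0 := by
    rw [← iterate_map_add derivative, h]
    exact iterate_derivative_eq_zero hr
  obtain ⟨f, hf⟩ : ∃ f, f = derivative^[k] (X ^ (2 * k) * p) := ⟨_, rfl⟩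
  have hX : (X : ℂ[X]) ^ k ∣ f := by
    have := pow_sub_dvd_iterate_derivative_of_pow_dvd (q := (X : ℂ[X])) (p := X ^ (2 * k) * p)
      (n := 2 * k) (m := k) (dvd_mul_right _ _)
    rw [hf]
    rwa [show 2 * k - k = k by omega] at this
  have hX' : (1 - X : ℂ[X]) ^ k ∣ f := by
    have := pow_sub_dvd_iterate_derivative_of_pow_dvd (q := (1 - X : ℂ[X]))
      (p := (1 - X) ^ (2 * k) * q) (n := 2 * k) (m := k) (dvd_mul_right _ _)
    rw [show 2 * k - k = k by omega] at this
    rw [hf, eq_neg_of_add_eq_zero_left h1]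
    exact (dvd_neg).mpr this
  have hcop : IsCoprime ((X : ℂ[X]) ^ k) ((1 - X : ℂ[X]) ^ k) := by
    refine IsCoprime.pow ?_
    exact ⟨1, 1, by ring⟩
  have hdvd := hcop.mul_dvd hX hX'
  have hf0 : f = 0 := by
    by_contra hne
    have h2 := natDegree_le_of_dvd hdvd hne
    have h3 : f.natDegree ≤ (X ^ (2 * k) * p).natDegree - k := by
      rw [hf]; exact natDegree_iterate_derivative _ _
    have h4 : (X ^ (2 * k) * p).natDegree ≤ 2 * k + p.natDegree := by
      refine natDegree_mul_le.trans ?_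
      rw [natDegree_X_pow]
    have h5 : ((X : ℂ[X]) ^ k * (1 - X) ^ k).natDegree = 2 * k := by
      have h6 : (1 - X : ℂ[X]).natDegree = 1 := by
        rw [← neg_sub, natDegree_neg]
        exact natDegree_X_sub_C (1 : ℂ)
      have h7 : (1 - X : ℂ[X]) ≠ 0 := by
        intro h0
        rw [h0, natDegree_zero] at h6
        exact absurd h6 (by norm_num)
      rw [natDegree_mul (pow_ne_zero _ X_ne_zero) (pow_ne_zero _ h7), natDegree_pow,
        natDegree_pow, natDegree_X, h6]
      ring
    omega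
  ext i
  have h2 : f.coeff (k + i) = 0 := by rw [hf0, coeff_zero]
  rw [hf, coeff_iterate_derivative, show k + i + k = i + 2 * k by ring, coeff_X_pow_mul,
    nsmul_eq_mul, mul_eq_zero] at h2
  rcases h2 with h2 | h2
  · exfalso
    have h3 : (i + 2 * k).descFactorial k = 0 := by exact_mod_cast h2
    rw [Nat.descFactorial_eq_zero_iff_lt] at h3
    omega
  · rw [h2, coeff_zero]

/-- the polynomial with given coefficients -/
noncomputable def pol (k : ℕ) : (Fin (k + 1) → ℂ) →ₗ[ℂ] ℂ[X] where
  toFun a := ∑ i, C (a i) * X ^ (i : ℕ)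
  map_add' a b := by
    rw [← Finset.sum_add_distrib]
    refine Finset.sum_congr rfl (fun i _ => ?_)
    rw [Pi.add_apply, C_add, add_mul]
  map_smul' c a := by
    rw [RingHom.id_apply, Finset.smul_sum]
    refine Finset.sum_congr rfl (fun i _ => ?_)
    rw [Pi.smul_apply, smul_eq_mul, C_mul, smul_eq_C_mul, mul_assoc]

theorem pol_natDegree (k : ℕ) (a : Fin (k + 1) → ℂ) : (pol k a).natDegree ≤ k := by
  refine natDegree_sum_le_of_forall_le Finset.univ (fun i : Fin (k + 1) => C (a i) * X ^ (i : ℕ))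
    (fun i _ => ?_)
  have h1 : (C (a i) * X ^ (i : ℕ) : ℂ[X]).natDegree ≤ i := natDegree_C_mul_X_pow_le (a i) i
  have := i.2
  omega

theorem pol_inj (k : ℕ) {a : Fin (k + 1) → ℂ} (h : pol k a = 0) : a = 0 := by
  funext i
  have h1 : (pol k a).coeff i = a i := by
    show (∑ i, C (a i) * X ^ (i : ℕ)).coeff i = a i
    rw [finsetSum_coeff, Finset.sum_eq_single i]
    · rw [coeff_C_mul_X_pow, if_pos rfl]
    · intro j _ hj
      rw [coeff_C_mul_X_pow, if_neg]
      exact fun h => hj (Fin.ext h.symm)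
    · simp
  rw [← h1, h, coeff_zero]
  rfl

/-- the linear conditions -/
noncomputable def cond (k : ℕ) (t : ℂ) :
    (Fin (k + 1) → ℂ) × (Fin (k + 1) → ℂ) × (Fin (k + 1) → ℂ) →ₗ[ℂ]
      (Fin (3 * k + 1) → ℂ) × ℂ where
  toFun v := (fun i => (X ^ (2 * k) * pol k v.1 + (1 - X) ^ (2 * k) * pol k v.2.1 -
    pol k v.2.2).coeff i, (pol k v.2.2).eval t)
  map_add' v w := by
    refine Prod.ext ?_ ?_
    · funext i
      simp only [Prod.fst_add, Prod.snd_add, map_add, Pi.add_apply]
      rw [← coeff_add]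
      congr 1
      ring
    · simp
  map_smul' c v := by
    refine Prod.ext ?_ ?_
    · funext i
      simp only [Prod.smul_fst, Prod.smul_snd, map_smul, Pi.smul_apply, RingHom.id_apply]
      rw [← coeff_smul]
      congr 1
      simp only [smul_eq_C_mul]
      ring
    · simp [eval_smul]

theorem pade {k : ℕ} (hk : 1 ≤ k) {t : ℂ} (h1 : t ≠ 1) :
    ∃ P Q R : ℂ[X], P.natDegree ≤ k ∧ Q.natDegree ≤ k ∧ R.natDegree ≤ k ∧
      X ^ (2 * k) * P + (1 - X) ^ (2 * k) * Q = R ∧ R.eval t = 0 ∧ P.eval t ≠ 0 := by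
  have hker : LinearMap.ker (cond k t) ≠ ⊥ := by
    apply LinearMap.ker_ne_bot_of_finrank_lt
    simp only [Module.finrank_prod, Module.finrank_fintype_fun_eq_card, Fintype.card_fin,
      Module.finrank_self]
    omega
  obtain ⟨⟨a, b, c⟩, hv, hne⟩ := Submodule.exists_mem_ne_zero_of_ne_bot hker
  rw [LinearMap.mem_ker] at hv
  have hv1 : ∀ i : Fin (3 * k + 1), (X ^ (2 * k) * pol k a + (1 - X) ^ (2 * k) * pol k b -
      pol k c).coeff i = 0 := fun i => congrFun (congrArg Prod.fst hv) i
  have hv2 : (pol k c).eval t = 0 := congrArg Prod.snd hv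
  have hdeg : (X ^ (2 * k) * pol k a + (1 - X) ^ (2 * k) * pol k b - pol k c).natDegree ≤
      3 * k := by
    refine (natDegree_sub_le _ _).trans (max_le ((natDegree_add_le _ _).trans (max_le ?_ ?_)) ?_)
    · refine natDegree_mul_le.trans ?_
      have := pol_natDegree k a
      rw [natDegree_X_pow]
      omega
    · refine natDegree_mul_le.trans ?_
      have h2 := pol_natDegree k b
      have h3 : ((1 - X : ℂ[X]) ^ (2 * k)).natDegree ≤ 2 * k := by
        refine natDegree_pow_le.trans ?_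
        have : (1 - X : ℂ[X]).natDegree ≤ 1 := by
          refine (natDegree_sub_le _ _).trans ?_
          simp
        nlinarith
      omega
    · have := pol_natDegree k c
      omega
  have hzero : X ^ (2 * k) * pol k a + (1 - X) ^ (2 * k) * pol k b - pol k c = 0 := by
    ext i
    rw [coeff_zero]
    by_cases hi : i < 3 * k + 1
    · exact hv1 ⟨i, hi⟩
    · exact coeff_eq_zero_of_natDegree_lt (by omega)
  have heq := sub_eq_zero.mp hzero
  refine ⟨pol k a, pol k b, pol k c, pol_natDegree k a, pol_natDegree k b, pol_natDegree k c,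
    heq, hv2, fun h0 => ?_⟩
  have hb0 : (pol k b).eval t = 0 := by
    have h2 := congrArg (fun P => P.eval t) heq
    simp only [eval_add, eval_mul, eval_pow, eval_sub, eval_one, eval_X, h0, hv2, mul_zero,
      zero_add, mul_eq_zero] at h2
    rcases h2 with h2 | h2
    · exact absurd (sub_eq_zero.mp (eq_zero_of_pow_eq_zero h2)).symm h1
    · exact h2
  obtain ⟨p, hp⟩ := dvd_iff_isRoot.mpr h0
  obtain ⟨q, hq⟩ := dvd_iff_isRoot.mpr hb0
  obtain ⟨r, hr⟩ := dvd_iff_isRoot.mpr hv2
  have hXt : (X - C t : ℂ[X]) ≠ 0 := X_sub_C_ne_zero t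
  have hlt : ∀ {f g : ℂ[X]}, f.natDegree ≤ k → f = (X - C t) * g → g.natDegree < k := by
    intro f g hf hfg
    by_cases hg : g = 0
    · rw [hg, natDegree_zero]; omega
    · rw [hfg, natDegree_mul hXt hg, natDegree_X_sub_C] at hf
      omega
  have hp' := hlt (pol_natDegree k a) hp
  have hq' := hlt (pol_natDegree k b) hq
  have hr' := hlt (pol_natDegree k c) hr
  have heq' : X ^ (2 * k) * p + (1 - X) ^ (2 * k) * q = r := by
    apply mul_left_cancel₀ hXt
    rw [← hr, ← heq, hp, hq]
    ring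
  have hp0 := pade_unique hp' hq' hr' heq'
  have hq0 : q = 0 := by
    have h2 : X ^ (2 * k) * (q.comp (1 - X)) + (1 - X) ^ (2 * k) * (p.comp (1 - X)) =
        r.comp (1 - X) := by
      rw [← heq']
      simp only [add_comp, mul_comp, pow_comp, sub_comp, one_comp, X_comp]
      ring
    have hcomp : ∀ {f : ℂ[X]}, f.natDegree < k → (f.comp (1 - X)).natDegree < k := by
      intro f hf
      refine lt_of_le_of_lt natDegree_comp_le ?_
      have : (1 - X : ℂ[X]).natDegree ≤ 1 := by
        refine (natDegree_sub_le _ _).trans ?_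
        simp
      nlinarith
    have h3 := pade_unique (hcomp hq') (hcomp hp') (hcomp hr') h2
    have h4 : (q.comp (1 - X)).comp (1 - X) = q := by
      rw [comp_assoc]
      simp
    rw [← h4, h3, zero_comp]
  have hr0 : r = 0 := by rw [← heq', hp0, hq0]; simp
  apply hne
  have e1 : a = 0 := pol_inj k (by rw [hp, hp0, mul_zero])
  have e2 : b = 0 := pol_inj k (by rw [hq, hq0, mul_zero])
  have e3 : c = 0 := pol_inj k (by rw [hr, hr0, mul_zero])
  rw [e1, e2, e3]
  rfl

end Pool.Agent.L5helper22
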