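import Mathlib

/-! Packing. -/

set_option autoImplicit false

open Metric Set MeasureTheory Module Function
open scoped ENNReal

namespace Pool.Agent.L5helper22

section

variable {E : Type*} [NormedAddCommGroup E] [NormedSpace ℝ E] [FiniteDimensional ℝ E]

theorem pack_card (s : Finset E) (hs : ∀ c ∈ s, ‖c‖ ≤ 64)
    (h : ∀ c ∈ s, ∀ d ∈ s, c ≠ d → 1 ≤ ‖c - d‖) : s.card ≤ 129 ^ finrank ℝ E := by
  borelize E
  let μ : Measure E := Measure.addHaar
  let δ : ℝ := (1 : ℝ) / 2
  let ρ : ℝ := (129 : ℝ) / 2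
  have ρpos : 0 < ρ := by norm_num [ρ]
  set A := ⋃ c ∈ s, ball (c : E) δ with hA
  have D : Set.Pairwise (s : Set E) (Disjoint on fun c => ball (c : E) δ) := by
    rintro c hc d hd hcd
    apply ball_disjoint_ball
    rw [dist_eq_norm]
    convert! h c hc d hd hcd
    norm_num [δ]
  have A_subset : A ⊆ ball (0 : E) ρ := by
    refine iUnion₂_subset fun x hx => ?_
    apply ball_subset_ball'
    calc
      δ + dist x 0 ≤ δ + 64 := by rw [dist_zero_right]; exact add_le_add le_rfl (hs x hx)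
      _ = 129 / 2 := by norm_num [δ]
  have I :
    (s.card : ℝ≥0∞) * ENNReal.ofReal (δ ^ finrank ℝ E) * μ (ball 0 1) ≤
      ENNReal.ofReal (ρ ^ finrank ℝ E) * μ (ball 0 1) :=
    calc
      (s.card : ℝ≥0∞) * ENNReal.ofReal (δ ^ finrank ℝ E) * μ (ball 0 1) = μ A := by
        rw [hA, measure_biUnion_finset D fun c _ => measurableSet_ball]
        have I : 0 < δ := by norm_num [δ]
        simp only [μ.addHaar_ball_of_pos _ I]
        simp only [Finset.sum_const, nsmul_eq_mul, mul_assoc]
      _ ≤ μ (ball (0 : E) ρ) := measure_mono A_subset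
      _ = ENNReal.ofReal (ρ ^ finrank ℝ E) * μ (ball 0 1) := by
        simp only [μ.addHaar_ball_of_pos _ ρpos]
  have J : (s.card : ℝ≥0∞) * ENNReal.ofReal (δ ^ finrank ℝ E) ≤
      ENNReal.ofReal (ρ ^ finrank ℝ E) :=
    (ENNReal.mul_le_mul_iff_left (measure_ball_pos _ _ zero_lt_one).ne' measure_ball_lt_top.ne).1 I
  have K : (s.card : ℝ) ≤ (129 : ℝ) ^ finrank ℝ E := by
    have := ENNReal.toReal_le_of_le_ofReal (pow_nonneg ρpos.le _) J
    simpa [ρ, δ, div_eq_mul_inv, mul_pow] using this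
  exact mod_cast K

/-- classes of nearby points -/
theorem cone_card {ι : Type*} [Fintype ι] (e : ι → E) (he : ∀ i, ‖e i‖ ≤ 4)
    (hcone : ∀ T : Finset ι, (∀ i ∈ T, ∀ j ∈ T, ‖e i - e j‖ ≤ 1 / 8) → T.card ≤ 2) :
    Fintype.card ι ≤ 2 * 129 ^ finrank ℝ E := by
  classical
  let 𝒮 : Finset (Finset ι) := Finset.univ.filter
    (fun T => ∀ i ∈ T, ∀ j ∈ T, i ≠ j → 1 / 16 < ‖e i - e j‖)
  have hne : 𝒮.Nonempty := ⟨∅, by simp [𝒮]⟩
  obtain ⟨T, hT, hmax⟩ := Finset.exists_max_image 𝒮 Finset.card hne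
  have hTs : ∀ i ∈ T, ∀ j ∈ T, i ≠ j → 1 / 16 < ‖e i - e j‖ := (Finset.mem_filter.mp hT).2
  have hnear : ∀ i, ∃ d ∈ T, ‖e i - e d‖ ≤ 1 / 16 := by
    intro i
    by_contra hcon
    push Not at hcon
    have hiT : i ∉ T := by
      intro hi
      have := hcon i hi
      rw [sub_self, norm_zero] at this
      linarith
    have h1 : insert i T ∈ 𝒮 := by
      refine Finset.mem_filter.mpr ⟨Finset.mem_univ _, fun a ha b hb hab => ?_⟩
      rcases Finset.mem_insert.mp ha with ha' | ha'
      · rcases Finset.mem_insert.mp hb with hb' | hb'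
        · exact absurd (ha'.trans hb'.symm) hab
        · rw [ha']
          exact hcon b hb'
      · rcases Finset.mem_insert.mp hb with hb' | hb'
        · rw [norm_sub_rev, hb']
          exact hcon a ha'
        · exact hTs a ha' b hb' hab
    have h2 := hmax _ h1
    rw [Finset.card_insert_of_notMem hiT] at h2
    omega
  choose r hr hr' using hnear
  have hT2 : T.card ≤ 129 ^ finrank ℝ E := by
    have hinj : Set.InjOn (fun i => (16 : ℝ) • e i) T := by
      intro i hi j hj hij
      by_contra hne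
      have h1 := hTs i hi j hj hne
      have h2 : e i = e j := smul_right_injective E (by norm_num : (16 : ℝ) ≠ 0) hij
      rw [h2, sub_self, norm_zero] at h1
      linarith
    rw [← Finset.card_image_of_injOn hinj]
    refine pack_card _ (fun c hc => ?_) (fun c hc d hd hcd => ?_)
    · obtain ⟨i, -, rfl⟩ := Finset.mem_image.mp hc
      rw [norm_smul, Real.norm_eq_abs, abs_of_pos (by norm_num)]
      have := he i
      linarith
    · obtain ⟨i, hi, rfl⟩ := Finset.mem_image.mp hc
      obtain ⟨j, hj, rfl⟩ := Finset.mem_image.mp hd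
      have hij : i ≠ j := fun h => hcd (by rw [h])
      have h1 := hTs i hi j hj hij
      rw [← smul_sub, norm_smul, Real.norm_eq_abs, abs_of_pos (by norm_num)]
      linarith
  have hfib : ∀ d ∈ T, (Finset.univ.filter (fun i => r i = d)).card ≤ 2 := by
    intro d _
    refine hcone _ (fun i hi j hj => ?_)
    have h1 := hr' i
    have h2 := hr' j
    rw [(Finset.mem_filter.mp hi).2] at h1
    rw [(Finset.mem_filter.mp hj).2] at h2
    have h3 : ‖e i - e j‖ ≤ ‖e i - e d‖ + ‖e j - e d‖ := by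
      calc ‖e i - e j‖ = ‖(e i - e d) - (e j - e d)‖ := by congr 1; abel
        _ ≤ _ := norm_sub_le _ _
    linarith
  have h4 := Finset.card_eq_sum_card_fiberwise (f := r) (s := Finset.univ) (t := T)
    (fun i _ => hr i)
  rw [← Finset.card_univ, h4]
  calc ∑ d ∈ T, (Finset.univ.filter (fun i => r i = d)).card ≤ ∑ _d ∈ T, 2 :=
        Finset.sum_le_sum hfib
    _ = 2 * T.card := by rw [Finset.sum_const, smul_eq_mul, mul_comm]
    _ ≤ _ := Nat.mul_le_mul_left 2 hT2

/-- the abstract counting of the solutions of the unit equation -/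
theorem unit_count {ι : Type*} [Fintype ι] (H : E → ℝ) (h1 : ∀ x y, H (x + y) ≤ H x + H y)
    (h2 : ∀ (t : ℝ) (x : E), 0 ≤ t → H (t • x) = t * H x) (h3 : ∀ x, H x ≤ ‖x‖)
    (h4 : ∀ x, ‖x‖ ≤ 4 * H x) (h5 : ∀ x, H (-x) ≤ 2 * H x) (s : ι → E) (g0 : ∀ i, 0 < H (s i))
    (g1 : ∀ i j, i ≠ j → H (s i) ≤ H (s j - s i))
    (g2 : ∀ i j, i ≠ j → ∀ k : ℕ, 1 ≤ k → k * H (s i) ≤ H (s j - (2 * k : ℝ) • s i)) :
    Fintype.card ι ≤ 2 * 129 ^ finrank ℝ E := by
  classical
  -- the pairs
  have pair : ∀ i j, i ≠ j → H (s i) ≤ H (s j) →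
      ‖(H (s i))⁻¹ • s i - (H (s j))⁻¹ • s j‖ ≤ 1 / 8 →
      8 / 3 * H (s i) ≤ H (s j) ∧ H (s j) < 6 * H (s i) := by
    intro i j hij hle hcl
    obtain ⟨t, ht⟩ : ∃ t, t = H (s j) / H (s i) := ⟨_, rfl⟩
    have hi := g0 i
    have hj := g0 j
    have htj : H (s j) = t * H (s i) := by rw [ht, div_mul_cancel₀ _ hi.ne']
    have ht1 : 1 ≤ t := by rw [ht, one_le_div hi]; exact hle
    obtain ⟨r, hr⟩ : ∃ r, r = H (s j) • ((H (s j))⁻¹ • s j - (H (s i))⁻¹ • s i) := ⟨_, rfl⟩
    have hrn : ‖r‖ ≤ t / 8 * H (s i) := by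
      rw [hr, norm_smul, Real.norm_eq_abs, abs_of_pos hj, norm_sub_rev]
      have e1 := mul_le_mul_of_nonneg_left hcl hj.le
      have e2 : H (s j) * (1 / 8) = t / 8 * H (s i) := by rw [htj]; ring
      linarith
    have hsj : s j = t • s i + r := by
      rw [hr, smul_sub, smul_smul, smul_smul, mul_inv_cancel₀ hj.ne', one_smul, ht,
        div_eq_mul_inv]
      abel
    have hbound : ∀ c : ℝ, c ≤ t → H (s j - c • s i) ≤ (t - c) * H (s i) + t / 8 * H (s i) := by
      intro c hc
      have e : s j - c • s i = (t - c) • s i + r := by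
        rw [hsj, sub_smul]; abel
      rw [e]
      refine (h1 _ _).trans (add_le_add ?_ ((h3 r).trans hrn))
      rw [h2 _ _ (by linarith)]
    have hbound' : ∀ c : ℝ, t ≤ c →
        H (s j - c • s i) ≤ (c - t) * (2 * H (s i)) + t / 8 * H (s i) := by
      intro c hc
      have e : s j - c • s i = (c - t) • (-s i) + r := by
        rw [hsj, sub_smul, smul_neg, smul_neg]; abel
      rw [e]
      refine (h1 _ _).trans (add_le_add ?_ ((h3 r).trans hrn))
      rw [h2 _ _ (by linarith)]
      exact mul_le_mul_of_nonneg_left (h5 _) (by linarith)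
    -- the gap principle
    have hgap : 1 ≤ (t - 1) + t / 8 := by
      have e1 := g1 i j hij
      have e2 := hbound 1 ht1
      rw [one_smul] at e2
      have e3 : 1 * H (s i) ≤ ((t - 1) + t / 8) * H (s i) := by linarith
      exact le_of_mul_le_mul_right e3 hi
    -- the polynomials of degree one
    have ht2 : 2 ≤ t := by
      by_contra hlt
      push Not at hlt
      have e1 := g2 i j hij 1 le_rfl
      have e2 := hbound' 2 hlt.le
      rw [Nat.cast_one, mul_one] at e1
      have e3 : 1 * H (s i) ≤ ((2 - t) * 2 + t / 8) * H (s i) := by linarith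
      have e4 := le_of_mul_le_mul_right e3 hi
      linarith
    have ht3 : 8 / 3 ≤ t := by
      have e1 := g2 i j hij 1 le_rfl
      have e2 := hbound 2 ht2
      rw [Nat.cast_one, mul_one] at e1
      have e3 : 1 * H (s i) ≤ ((t - 2) + t / 8) * H (s i) := by linarith
      have e4 := le_of_mul_le_mul_right e3 hi
      linarith
    have ht6 : t < 6 := by
      obtain ⟨k, hk⟩ : ∃ k : ℕ, k = ⌊t / 2⌋₊ := ⟨_, rfl⟩
      have hk1 : (k : ℝ) ≤ t / 2 := by rw [hk]; exact Nat.floor_le (by linarith)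
      have hk2 : t / 2 < k + 1 := by rw [hk]; exact Nat.lt_floor_add_one _
      have hk3 : 1 ≤ k := by
        rw [hk]
        exact (Nat.one_le_floor_iff _).mpr (by linarith)
      have e1 := g2 i j hij k hk3
      have e2 := hbound (2 * k) (by linarith)
      have e3 : (k : ℝ) * H (s i) ≤ ((t - 2 * k) + t / 8) * H (s i) := by linarith
      have e4 := le_of_mul_le_mul_right e3 hi
      have e5 : (k : ℝ) < 3 := by linarith
      have e6 : k < 3 := by exact_mod_cast e5
      have e7 : k ≤ 2 := by omega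
      have e8 : (k : ℝ) ≤ 2 := by exact_mod_cast e7
      linarith
    rw [htj]
    exact ⟨mul_le_mul_of_nonneg_right ht3 hi.le, mul_lt_mul_of_pos_right ht6 hi⟩
  refine cone_card (fun i => (H (s i))⁻¹ • s i) (fun i => ?_) (fun T hT => ?_)
  · rw [norm_smul, norm_inv, Real.norm_eq_abs, abs_of_pos (g0 i)]
    have := h4 (s i)
    rw [inv_mul_le_iff₀ (g0 i)]
    linarith
  · by_contra hcon
    push Not at hcon
    obtain ⟨a, b, c, ha, hb, hc, hab, hac, hbc⟩ := Finset.two_lt_card_iff.mp hcon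
    have tri : ∀ a b c, a ∈ T → b ∈ T → c ∈ T → a ≠ b → a ≠ c → b ≠ c → H (s a) ≤ H (s b) →
        H (s b) ≤ H (s c) → False := by
      intro a b c ha hb hc hab hac hbc hle1 hle2
      have e1 := (pair a b hab hle1 (hT a ha b hb)).1
      have e2 := (pair b c hbc hle2 (hT b hb c hc)).1
      have e3 := (pair a c hac (hle1.trans hle2) (hT a ha c hc)).2
      have := g0 a
      linarith
    rcases le_total (H (s a)) (H (s b)) with h | h <;>
      rcases le_total (H (s b)) (H (s c)) with h' | h' <;>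
      rcases le_total (H (s a)) (H (s c)) with h'' | h''
    · exact tri a b c ha hb hc hab hac hbc h h'
    · exact tri a b c ha hb hc hab hac hbc h h'
    · exact tri a c b ha hc hb hac hab hbc.symm h'' h'
    · exact tri c a b hc ha hb hac.symm hbc.symm hab h'' h
    · exact tri b a c hb ha hc hab.symm hbc hac h h''
    · exact tri b c a hb hc ha hbc hab.symm hac.symm h' h''
    · exact tri c b a hc hb ha hbc.symm hac.symm hab.symm h' h
    · exact tri c b a hc hb ha hbc.symm hac.symm hab.symm h' h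

end

end Pool.Agent.L5helper22
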