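import Mathlib
import Pool.Agent.L5helper22.Pack

/-! Counting integral vectors with the gap principles. -/

set_option autoImplicit false

open Module Submodule

namespace Pool.Agent.L5helper22

section

variable {D : ℕ}

/-- the space of the vectors -/
abbrev Vec (D : ℕ) : Type := PiLp 1 (fun _ : Fin D => ℝ)

/-- a vector -/
noncomputable def vec (a : Fin D → ℤ) : Vec D := WithLp.toLp 1 (fun j => (a j : ℝ))

theorem vec_apply (a : Fin D → ℤ) (j : Fin D) : vec a j = a j := rfl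

variable (S : Submodule ℝ (Vec D))

/-- the height -/
noncomputable def Hgt (x : WithLp 1 (S × S)) : ℝ :=
  ∑ j, max (max ((x.fst : Vec D) j) ((x.snd : Vec D) j)) 0

theorem Hgt_add (x y : WithLp 1 (S × S)) : Hgt S (x + y) ≤ Hgt S x + Hgt S y := by
  unfold Hgt
  rw [← Finset.sum_add_distrib]
  refine Finset.sum_le_sum (fun j _ => ?_)
  show max (max ((x.fst : Vec D) j + (y.fst : Vec D) j) ((x.snd : Vec D) j + (y.snd : Vec D) j)) 0
    ≤ _
  refine max_le (max_le ?_ ?_) ?_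
  · exact add_le_add ((le_max_left _ _).trans (le_max_left _ _))
      ((le_max_left _ _).trans (le_max_left _ _))
  · exact add_le_add ((le_max_right _ _).trans (le_max_left _ _))
      ((le_max_right _ _).trans (le_max_left _ _))
  · exact add_nonneg (le_max_right _ _) (le_max_right _ _)

theorem Hgt_smul (t : ℝ) (x : WithLp 1 (S × S)) (ht : 0 ≤ t) : Hgt S (t • x) = t * Hgt S x := by
  unfold Hgt
  rw [Finset.mul_sum]
  refine Finset.sum_congr rfl (fun j _ => ?_)
  show max (max (t * (x.fst : Vec D) j) (t * (x.snd : Vec D) j)) 0 = _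
  rw [← mul_max_of_nonneg _ _ ht]
  nth_rewrite 1 [← mul_zero t]
  rw [← mul_max_of_nonneg _ _ ht]

theorem norm_eq (x : WithLp 1 (S × S)) :
    ‖x‖ = ∑ j, |(x.fst : Vec D) j| + ∑ j, |(x.snd : Vec D) j| := by
  rw [WithLp.prod_norm_eq_of_L1, Submodule.coe_norm, Submodule.coe_norm, PiLp.norm_eq_of_L1,
    PiLp.norm_eq_of_L1]
  simp only [Real.norm_eq_abs]

theorem Hgt_le (x : WithLp 1 (S × S)) : Hgt S x ≤ ‖x‖ := by
  rw [norm_eq, ← Finset.sum_add_distrib]
  refine Finset.sum_le_sum (fun j _ => ?_)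
  have h1 := abs_nonneg ((x.fst : Vec D) j)
  have h2 := abs_nonneg ((x.snd : Vec D) j)
  have h3 := le_abs_self ((x.fst : Vec D) j)
  have h4 := le_abs_self ((x.snd : Vec D) j)
  exact max_le (max_le (by linarith) (by linarith)) (by linarith)

variable {S}

theorem le_Hgt (hS : ∀ v ∈ S, ∑ j, (v : Vec D) j = 0) (x : WithLp 1 (S × S)) :
    ‖x‖ ≤ 4 * Hgt S x := by
  have h1 := hS _ x.fst.2
  have h2 := hS _ x.snd.2
  have e : ‖x‖ = ∑ j, (|(x.fst : Vec D) j| + |(x.snd : Vec D) j| + (x.fst : Vec D) j +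
      (x.snd : Vec D) j) := by
    rw [norm_eq, Finset.sum_add_distrib, Finset.sum_add_distrib, Finset.sum_add_distrib, h1, h2]
    ring
  rw [e, Hgt, Finset.mul_sum]
  refine Finset.sum_le_sum (fun j _ => ?_)
  have h3 : (x.fst : Vec D) j ≤ max (max ((x.fst : Vec D) j) ((x.snd : Vec D) j)) 0 :=
    (le_max_left _ _).trans (le_max_left _ _)
  have h4 : (x.snd : Vec D) j ≤ max (max ((x.fst : Vec D) j) ((x.snd : Vec D) j)) 0 :=
    (le_max_right _ _).trans (le_max_left _ _)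
  have h5 : 0 ≤ max (max ((x.fst : Vec D) j) ((x.snd : Vec D) j)) 0 := le_max_right _ _
  rcases abs_cases ((x.fst : Vec D) j) with h6 | h6 <;>
    rcases abs_cases ((x.snd : Vec D) j) with h7 | h7 <;> linarith

theorem Hgt_neg (hS : ∀ v ∈ S, ∑ j, (v : Vec D) j = 0) (x : WithLp 1 (S × S)) :
    Hgt S (-x) ≤ 2 * Hgt S x := by
  have h1 := hS _ x.fst.2
  have h2 := hS _ x.snd.2
  have e : 2 * Hgt S x = ∑ j, (2 * max (max ((x.fst : Vec D) j) ((x.snd : Vec D) j)) 0 -
      (x.fst : Vec D) j - (x.snd : Vec D) j) := by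
    rw [Finset.sum_sub_distrib, Finset.sum_sub_distrib, h1, h2, ← Finset.mul_sum, Hgt]
    ring
  rw [e]
  refine Finset.sum_le_sum (fun j _ => ?_)
  show max (max (-(x.fst : Vec D) j) (-(x.snd : Vec D) j)) 0 ≤ _
  have h3 : (x.fst : Vec D) j ≤ max (max ((x.fst : Vec D) j) ((x.snd : Vec D) j)) 0 :=
    (le_max_left _ _).trans (le_max_left _ _)
  have h4 : (x.snd : Vec D) j ≤ max (max ((x.fst : Vec D) j) ((x.snd : Vec D) j)) 0 :=
    (le_max_right _ _).trans (le_max_left _ _)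
  have h5 : 0 ≤ max (max ((x.fst : Vec D) j) ((x.snd : Vec D) j)) 0 := le_max_right _ _
  exact max_le (max_le (by linarith) (by linarith)) (by linarith)

theorem span_rank {N : ℕ} {Vs : Set (Vec D)}
    (h : ∀ f : Fin N → Vec D, (∀ k, f k ∈ Vs) → ∃ a : Fin N → ℤ, a ≠ 0 ∧
      ∑ k, (a k : ℝ) • f k = 0) : finrank ℝ (span ℝ Vs) ≤ N := by
  by_contra hcon
  push Not at hcon
  obtain ⟨f, hf, -, hli⟩ := exists_fun_fin_finrank_span_eq ℝ Vs
  obtain ⟨a, ha, hrel⟩ := h (fun k => f (Fin.castLE hcon.le k)) (fun k => hf _)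
  have hli' : LinearIndependent ℝ (fun k => f (Fin.castLE hcon.le k)) :=
    hli.comp _ (Fin.castLE_injective hcon.le)
  apply ha
  funext k
  have := Fintype.linearIndependent_iff.mp hli' (fun k => (a k : ℝ)) hrel k
  exact_mod_cast this

/-- the counting of integral vectors -/
theorem abs_count {N : ℕ} {ι : Type*} [Fintype ι] (A B : ι → Fin D → ℤ)
    (hA : ∀ i, ∑ j, A i j = 0) (hB : ∀ i, ∑ j, B i j = 0)
    (hrank : ∀ f : Fin N → Fin D → ℤ, (∀ k, (∃ i, f k = A i) ∨ ∃ i, f k = B i) →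
      ∃ a : Fin N → ℤ, a ≠ 0 ∧ ∀ j, ∑ k, a k * f k j = 0)
    (g0 : ∀ i, 0 < ∑ j, max (max (A i j) (B i j)) 0)
    (g1 : ∀ i i', i ≠ i' → ∑ j, max (max (A i j) (B i j)) 0 ≤
      ∑ j, max (max (A i' j - A i j) (B i' j - B i j)) 0)
    (g2 : ∀ i i', i ≠ i' → ∀ k : ℕ, 1 ≤ k → k * ∑ j, max (max (A i j) (B i j)) 0 ≤
      ∑ j, max (max (A i' j - 2 * k * A i j) (B i' j - 2 * k * B i j)) 0) :
    Fintype.card ι ≤ 2 * 129 ^ (2 * N) := by
  let Vs : Set (Vec D) := Set.range (fun i => vec (A i)) ∪ Set.range (fun i => vec (B i))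
  let S : Submodule ℝ (Vec D) := span ℝ Vs
  have hS : ∀ v ∈ S, ∑ j, (v : Vec D) j = 0 := by
    intro v hv
    induction hv using Submodule.span_induction with
    | mem x hx =>
      rcases hx with ⟨i, rfl⟩ | ⟨i, rfl⟩
      · simp only [vec_apply]
        have := hA i
        exact_mod_cast this
      · simp only [vec_apply]
        have := hB i
        exact_mod_cast this
    | zero => simp
    | add x y _ _ hx hy =>
      simp only [PiLp.add_apply, Finset.sum_add_distrib, hx, hy, add_zero]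
    | smul c x _ hx =>
      simp only [PiLp.smul_apply, smul_eq_mul, ← Finset.mul_sum, hx, mul_zero]
  have hrk : finrank ℝ S ≤ N := by
    refine span_rank (fun f hf => ?_)
    have h1 : ∀ k, ∃ g : Fin D → ℤ, ((∃ i, g = A i) ∨ ∃ i, g = B i) ∧ f k = vec g := by
      intro k
      rcases hf k with ⟨i, hi⟩ | ⟨i, hi⟩
      · exact ⟨A i, Or.inl ⟨i, rfl⟩, hi.symm⟩
      · exact ⟨B i, Or.inr ⟨i, rfl⟩, hi.symm⟩
    choose g hg hfg using h1
    obtain ⟨a, ha, hrel⟩ := hrank g hg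
    refine ⟨a, ha, ?_⟩
    ext j
    have h2 : (∑ k, (a k : ℝ) • f k : Vec D) j = ∑ k, (a k : ℝ) * (f k j) := by
      rw [WithLp.ofLp_sum, Finset.sum_apply]
      rfl
    rw [h2]
    have h3 := hrel j
    have h4 : ∑ k, (a k : ℝ) * (f k j) = ((∑ k, a k * g k j : ℤ) : ℝ) := by
      push_cast
      refine Finset.sum_congr rfl (fun k _ => ?_)
      rw [hfg k, vec_apply]
    rw [h4, h3]
    simp
  have hmemA : ∀ i, vec (A i) ∈ S := fun i => subset_span (Or.inl ⟨i, rfl⟩)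
  have hmemB : ∀ i, vec (B i) ∈ S := fun i => subset_span (Or.inr ⟨i, rfl⟩)
  let s : ι → WithLp 1 (S × S) := fun i => WithLp.toLp 1 (⟨vec (A i), hmemA i⟩, ⟨vec (B i), hmemB i⟩)
  have hH : ∀ i, Hgt S (s i) = ((∑ j, max (max (A i j) (B i j)) 0 : ℤ) : ℝ) := by
    intro i
    show ∑ j, max (max ((A i j : ℤ) : ℝ) ((B i j : ℤ) : ℝ)) 0 = _
    push_cast
    rfl
  have hH2 : ∀ i i' (c : ℤ), Hgt S (s i' - (c : ℝ) • s i) =
      ((∑ j, max (max (A i' j - c * A i j) (B i' j - c * B i j)) 0 : ℤ) : ℝ) := by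
    intro i i' c
    show ∑ j, max (max (((A i' j : ℤ) : ℝ) - c * ((A i j : ℤ) : ℝ))
      (((B i' j : ℤ) : ℝ) - c * ((B i j : ℤ) : ℝ))) 0 = _
    push_cast
    rfl
  have hfin := unit_count (Hgt S) (Hgt_add S) (Hgt_smul S) (Hgt_le S) (le_Hgt hS) (Hgt_neg hS) s
    (fun i => by rw [hH]; exact_mod_cast g0 i)
    (fun i i' hii => by
      have h1 := hH2 i i' 1
      rw [Int.cast_one, one_smul] at h1
      rw [hH, h1]
      have := g1 i i' hii
      simp only [one_mul]
      exact_mod_cast this)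
    (fun i i' hii k hk => by
      have h1 := hH2 i i' (2 * k)
      have h2 : ((2 * k : ℤ) : ℝ) = 2 * (k : ℝ) := by push_cast; rfl
      rw [h2] at h1
      rw [hH, h1]
      have := g2 i i' hii k hk
      exact_mod_cast this)
  refine hfin.trans (Nat.mul_le_mul_left 2 (Nat.pow_le_pow_right (by norm_num) ?_))
  have h5 : finrank ℝ (WithLp 1 (S × S)) = finrank ℝ (S × S) :=
    LinearEquiv.finrank_eq (WithLp.linearEquiv 1 ℝ (S × S))
  rw [h5, Module.finrank_prod]
  omega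

end

end Pool.Agent.L5helper22
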