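import Mathlib
import Pool.Agent.L5helper22.OrdB
import Pool.Agent.L5helper22.Pade
import Pool.Agent.L5helper22.Space

/-! The number of holomorphic maps to the plane without two points. -/

set_option autoImplicit false

open Topology Set Polynomial Filter

namespace Pool.Agent.L5helper22

theorem main_count {m : ℕ} {Y : Set (Fin m → ℂ)} (hY : IsAlg Y) (hs : IsSmooth Y)
    (hc : IsConnected Y) {N : ℕ} (hN : LogDep Y N) {ι : Type} [Fintype ι]
    (x : ι → (Fin m → ℂ) → ℂ) (hx : ∀ i, Hol Y (x i))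
    (h01 : ∀ i, ∀ y ∈ Y, x i y ≠ 0 ∧ x i y ≠ 1) (hnc : ∀ i, ∃ a ∈ Y, ∃ b ∈ Y, x i a ≠ x i b)
    (hne : ∀ i i', i ≠ i' → ∃ y ∈ Y, x i y ≠ x i' y) :
    Fintype.card ι ≤ 2 * 129 ^ (2 * N) := by
  classical
  rcases isEmpty_or_nonempty ι with hι | hι
  · simp
  obtain ⟨s, ⟨M⟩⟩ := exists_Model hY hs hc
  obtain ⟨y₀, hy₀⟩ := hc.nonempty
  have hpade : ∀ (i : ι) (k : ℕ), ∃ P Q R : ℂ[X], 1 ≤ k → (P.natDegree ≤ k ∧ Q.natDegree ≤ k ∧
      R.natDegree ≤ k ∧ X ^ (2 * k) * P + (1 - X) ^ (2 * k) * Q = R ∧ R.eval (x i y₀) = 0 ∧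
      P.eval (x i y₀) ≠ 0) := by
    intro i k
    by_cases hk : 1 ≤ k
    · obtain ⟨P, Q, R, h⟩ := pade hk (t := x i y₀) (h01 i y₀ hy₀).2
      exact ⟨P, Q, R, fun _ => h⟩
    · exact ⟨0, 0, 0, fun h => absurd h hk⟩
  choose P Q R hPQR using hpade
  -- the first family
  let F : Option ({p : ι × ι // p.1 ≠ p.2} × ℕ) → (Fin m → ℂ) → ℂ := fun c =>
    match c with
    | none => fun _ => 1
    | some (p, 0) => fun y => x p.1.1 y - x p.1.2 y
    | some (p, k + 1) => fun y => x p.1.2 y * (R p.1.1 (k + 1)).eval (x p.1.1 y) -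
        x p.1.1 y ^ (2 * (k + 1)) * (P p.1.1 (k + 1)).eval (x p.1.1 y)
  have hF : ∀ c, Hol Y (F c) := by
    rintro (_ | ⟨p, _ | k⟩)
    · exact Hol.const 1
    · exact (hx _).sub (hx _)
    · exact ((hx _).mul ((hx _).poly _)).sub (((hx _).pow _).mul ((hx _).poly _))
  have hFne : ∀ c, ∃ y ∈ Y, F c y ≠ 0 := by
    rintro (_ | ⟨p, _ | k⟩)
    · exact ⟨y₀, hy₀, one_ne_zero⟩
    · obtain ⟨y, hy, h⟩ := hne p.1.1 p.1.2 p.2
      exact ⟨y, hy, sub_ne_zero.mpr h⟩
    · obtain ⟨-, -, -, -, h1, h2⟩ := hPQR p.1.1 (k + 1) (by omega)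
      refine ⟨y₀, hy₀, ?_⟩
      show x p.1.2 y₀ * (R p.1.1 (k + 1)).eval (x p.1.1 y₀) -
        x p.1.1 y₀ ^ (2 * (k + 1)) * (P p.1.1 (k + 1)).eval (x p.1.1 y₀) ≠ 0
      rw [h1, mul_zero, zero_sub]
      exact neg_ne_zero.mpr (mul_ne_zero (pow_ne_zero _ (h01 _ _ hy₀).1) h2)
  obtain ⟨w₀, hw₀⟩ := M.exists_generic hs hc.isPreconnected hF hFne
  have h₀ : MvPolynomial.eval w₀ M.δ ≠ 0 := (hw₀ none).1
  -- a point of the fibre
  have hdeg : 0 < M.Q.natDegree := by
    rw [Nat.pos_iff_ne_zero]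
    intro h
    obtain ⟨y, hy, -⟩ := M.nz
    have h1 := M.Q_root y hy
    rw [M.Q_monic.natDegree_eq_zero.mp h, sp, Polynomial.map_one, eval_one] at h1
    exact one_ne_zero h1
  obtain ⟨z₀, hz₀⟩ : ∃ z, (sp w₀ M.Q).eval z = 0 := by
    refine IsAlgClosed.exists_root _ ?_
    rw [degree_eq_natDegree (M.Q_monic.map _).ne_zero, M.Q_monic.natDegree_map]
    exact_mod_cast hdeg.ne'
  have hy₁ : M.pt w₀ z₀ ∈ Y := M.q_mem _ _ h₀ hz₀
  obtain ⟨w₁, hw₁⟩ := M.exists_generic hs hc.isPreconnected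
    (G := fun i y => x i y - x i (M.pt w₀ z₀)) (fun i => (hx i).sub (Hol.const _)) (fun i => by
      obtain ⟨a, ha, b, hb, hab⟩ := hnc i
      by_cases h : x i a = x i (M.pt w₀ z₀)
      · exact ⟨b, hb, fun h' => hab (h.trans (sub_eq_zero.mp h').symm)⟩
      · exact ⟨a, ha, sub_ne_zero.mpr h⟩)
  have h₁ : MvPolynomial.eval w₁ M.δ ≠ 0 := (hw₁ hι.some).1
  obtain ⟨E, PF, NC⟩ := M.exists_ends hY.isClosed h₀ h₁
  have mx : ∀ i, E.Mer (x i) := fun i => E.mer_omit (hx i) (h01 i)
  have mx' : ∀ i, E.Mer (fun y => 1 - x i y) := fun i => (E.mer_const 1).sub (mx i)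
  have n1 : ∀ i, ∀ y ∈ Y, x i y ≠ 0 := fun i y hy => (h01 i y hy).1
  have n2 : ∀ i, ∀ y ∈ Y, 1 - x i y ≠ 0 := fun i y hy =>
    sub_ne_zero.mpr (fun h => (h01 i y hy).2 h.symm)
  have hv : ∀ i j, ∃ v : ℤ, E.ord j (x i) = v := fun i j => by
    obtain ⟨v, hv⟩ := WithTop.ne_top_iff_exists.mp (Ends.ord_ne_top j (mx i) (n1 i))
    exact ⟨v, hv.symm⟩
  have hu : ∀ i j, ∃ v : ℤ, E.ord j (fun y => 1 - x i y) = v := fun i j => by
    obtain ⟨v, hv⟩ := WithTop.ne_top_iff_exists.mp (Ends.ord_ne_top j (mx' i) (n2 i))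
    exact ⟨v, hv.symm⟩
  choose v hv using hv
  choose u hu using hu
  have gd : ∀ G : (Fin m → ℂ) → ℂ, (∀ y ∈ Y, G y ≠ 0) → w₀ ∈ M.Gd G := fun G h =>
    ⟨h₀, fun z hz => h _ (M.q_mem _ _ h₀ hz)⟩
  have hsum : ∀ (G : (Fin m → ℂ) → ℂ) (_ : E.Mer G) (_ : ∀ y ∈ Y, G y ≠ 0) (v : _ → ℤ)
      (_ : ∀ j, E.ord j G = v j), ∑ j, v j = 0 := by
    intro G hG hG0 v hv
    have h1 := Ends.sum_le (E := E) (l := v) (fun j => (hv j).ge) (PF G hG (gd G hG0))
    have h2 := Ends.sum_le (E := E) (G := fun y => (G y)⁻¹) (l := fun j => - v j) (fun j => by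
      rw [Ends.ord_inv, hv]
      exact le_of_eq rfl) (PF _ (hG.inv hG0) (gd _ (fun y hy => inv_ne_zero (hG0 y hy))))
    rw [Finset.sum_neg_distrib] at h2
    omega
  have hloc : ∀ i j, min (v i j) (u i j) ≤ 0 := by
    intro i j
    have h1 := Ends.ord_add j (mx i) (mx' i)
    have h2 : E.ord j (fun y => x i y + (1 - x i y)) = 0 := by
      rw [Ends.ord_congr (E := E) (G' := fun _ => 1) (fun y _ => by ring) j]
      exact Ends.ord_const_ne j one_ne_zero
    rw [h2, hv, hu] at h1
    exact_mod_cast h1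
  have hsv : ∀ i, ∑ j, v i j = 0 := fun i => hsum _ (mx i) (n1 i) _ (hv i)
  have hsu : ∀ i, ∑ j, u i j = 0 := fun i => hsum _ (mx' i) (n2 i) _ (hu i)
  refine abs_count (N := N) (fun i j => - v i j) (fun i j => - u i j) (fun i => ?_) (fun i => ?_)
    ?_ (fun i => ?_) (fun i i' hii => ?_) (fun i i' hii k hk => ?_)
  · rw [Finset.sum_neg_distrib, hsv, neg_zero]
  · rw [Finset.sum_neg_distrib, hsu, neg_zero]
  · -- the rank
    intro f hf
    have h1 : ∀ k, ∃ Φ : (Fin m → ℂ) → ℂ, E.Mer Φ ∧ (∀ y ∈ Y, Φ y ≠ 0) ∧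
        ∀ j, E.ord j Φ = ((-f k j : ℤ) : WithTop ℤ) := by
      intro k
      rcases hf k with ⟨i, hi⟩ | ⟨i, hi⟩
      · exact ⟨x i, mx i, n1 i, fun j => by rw [hv, hi, neg_neg]⟩
      · exact ⟨_, mx' i, n2 i, fun j => by rw [hu, hi, neg_neg]⟩
    choose Φ hΦm hΦ0 hΦo using h1
    obtain ⟨a, ha, hlog⟩ := hN (fun k (y : Y) => Φ k y)
      (fun k => ⟨((hΦm k).1.continuousOn).domRestrict, fun y => hΦ0 k y y.2⟩)
    refine ⟨a, ha, fun j => ?_⟩
    have hz : ∀ k ∈ (Finset.univ : Finset (Fin N)), E.Mer (fun y => Φ k y ^ a k) := fun k _ =>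
      (hΦm k).zpow (hΦ0 k) (a k)
    have h2 := Ends.ord_prod (E := E) j Finset.univ hz
      (v := fun k => a k * (-f k j)) (fun k _ => Ends.ord_zpow j (hΦm k) (a k) (hΦo k j))
    have h3 : E.ord j (fun y => ∏ k, Φ k y ^ a k) = 0 :=
      Ends.ord_log j (Ends.Mer.prod _ hz)
        (fun y hy => Finset.prod_ne_zero_iff.mpr (fun k _ => zpow_ne_zero _ (hΦ0 k y hy))) hlog
    rw [h3] at h2
    have h4 : ∑ k, a k * (-f k j) = 0 := by exact_mod_cast h2.symm
    simp only [mul_neg, Finset.sum_neg_distrib, neg_eq_zero] at h4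
    exact h4
  · -- the vectors do not vanish
    have h1 : ∃ j, v i j < 0 := by
      by_contra hcon
      push Not at hcon
      have h2 := NC (fun y => x i y - x i (M.pt w₀ z₀)) ((mx i).sub (E.mer_const _))
        (fun j => by
          refine le_trans ?_ (Ends.ord_sub j (mx i) (E.mer_const _))
          refine le_min ?_ (Ends.ord_const j _)
          rw [hv]
          exact_mod_cast hcon j) (hw₁ i)
      exact h2.2 z₀ hz₀ (sub_self _)
    obtain ⟨j, hj⟩ := h1
    refine Finset.sum_pos' (fun j _ => le_max_right _ _) ⟨j, Finset.mem_univ j, ?_⟩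
    exact lt_of_lt_of_le (neg_pos.mpr hj) ((le_max_left _ _).trans (le_max_left _ _))
  · -- the gap principle
    have hG := hw₀ (some (⟨(i, i'), hii⟩, 0))
    have h1 := Ends.sum_le (E := E) (G := fun y => x i y - x i' y)
      (l := fun j => v i j + u i j + max (max (-v i j) (-u i j)) 0 +
        min (min (v i' j - v i j) (u i' j - u i j)) 0) (fun j => ?_)
      (PF _ ((mx i).sub (mx i')) hG)
    · have e : ∀ j, max (max (-v i' j - -v i j) (-u i' j - -u i j)) 0 =
          -(min (min (v i' j - v i j) (u i' j - u i j)) 0) := fun j => by omega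
      rw [Finset.sum_add_distrib, Finset.sum_add_distrib, Finset.sum_add_distrib, hsv, hsu] at h1
      rw [Finset.sum_congr rfl (fun j _ => e j), Finset.sum_neg_distrib]
      omega
    · have hl := hloc i j
      rcases le_total (u i j) (v i j) with h | h
      · have h2 := Ends.ord_sub j (mx i) (mx i')
        rw [hv, hv] at h2
        refine le_trans ?_ h2
        have h3 : v i j + u i j + max (max (-v i j) (-u i j)) 0 +
          min (min (v i' j - v i j) (u i' j - u i j)) 0 ≤ min (v i j) (v i' j) := by omega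
        exact_mod_cast h3
      · have h2 := Ends.ord_sub j (mx' i') (mx' i)
        rw [hu, hu] at h2
        rw [Ends.ord_congr (E := E) (G := fun y => x i y - x i' y)
          (G' := fun y => (1 - x i' y) - (1 - x i y)) (fun y _ => by ring) j]
        refine le_trans ?_ h2
        have h3 : v i j + u i j + max (max (-v i j) (-u i j)) 0 +
          min (min (v i' j - v i j) (u i' j - u i j)) 0 ≤ min (u i' j) (u i j) := by omega
        exact_mod_cast h3
  · -- the polynomials
    obtain ⟨k', rfl⟩ : ∃ k', k = k' + 1 := ⟨k - 1, by omega⟩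
    have hG := hw₀ (some (⟨(i, i'), hii⟩, k' + 1))
    obtain ⟨hP, hQ, hR, hid, -, -⟩ := hPQR i (k' + 1) hk
    obtain ⟨k, hkk⟩ : ∃ k, k = k' + 1 := ⟨_, rfl⟩
    rw [← hkk] at hP hQ hR hid hk ⊢
    have hG' : w₀ ∈ M.Gd (fun y => x i' y * (R i k).eval (x i y) -
        x i y ^ (2 * k) * (P i k).eval (x i y)) := by
      rw [hkk]; exact hG
    have mP : ∀ T : ℂ[X], E.Mer (fun y => T.eval (x i y)) := fun T => (mx i).poly T
    have m1 : E.Mer (fun y => x i' y * (R i k).eval (x i y)) := (mx i').mul (mP _)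
    have m2 : E.Mer (fun y => x i y ^ (2 * k) * (P i k).eval (x i y)) :=
      ((mx i).pow _).mul (mP _)
    have m3 : E.Mer (fun y => (1 - x i y) ^ (2 * k) * (Q i k).eval (x i y)) :=
      ((mx' i).pow _).mul (mP _)
    have m4 : E.Mer (fun y => (1 - x i' y) * (R i k).eval (x i y)) := (mx' i').mul (mP _)
    have h1 := Ends.sum_le (E := E)
      (l := fun j => 2 * (k * v i j) + 2 * (k * u i j) + k * max (max (-v i j) (-u i j)) 0 +
        min (min (v i' j - 2 * (k * v i j)) (u i' j - 2 * (k * u i j))) 0) (fun j => ?_)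
      (PF _ (m1.sub m2) hG')
    · have e : ∀ j, max (max (-v i' j - 2 * k * -v i j) (-u i' j - 2 * k * -u i j)) 0 =
          -(min (min (v i' j - 2 * (k * v i j)) (u i' j - 2 * (k * u i j))) 0) := fun j => by
        have e1 : 2 * (k : ℤ) * -v i j = -(2 * (k * v i j)) := by ring
        have e2 : 2 * (k : ℤ) * -u i j = -(2 * (k * u i j)) := by ring
        rw [e1, e2]
        generalize 2 * ((k : ℤ) * v i j) = α
        generalize 2 * ((k : ℤ) * u i j) = β
        omega
      rw [Finset.sum_add_distrib, Finset.sum_add_distrib, Finset.sum_add_distrib,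
        ← Finset.mul_sum, ← Finset.mul_sum, ← Finset.mul_sum, ← Finset.mul_sum,
        ← Finset.mul_sum, hsv, hsu] at h1
      rw [Finset.sum_congr rfl (fun j _ => e j), Finset.sum_neg_distrib]
      simp only [mul_zero, zero_add] at h1
      linarith
    · have hl := hloc i j
      have hk0 : (0 : ℤ) ≤ k := by positivity
      have hPo := Ends.le_ord_poly j (mx i) (hv i j) hP
      have hQo := Ends.le_ord_poly j (mx i) (hv i j) hQ
      have hRo := Ends.le_ord_poly j (mx i) (hv i j) hR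
      rcases le_total (u i j) (v i j) with h | h
      · have o1 := Ends.le_ord_mul j (mx i') (mP (R i k)) (hv i' j).ge hRo
        have o2 := Ends.le_ord_mul j ((mx i).pow (2 * k)) (mP (P i k))
          (Ends.le_ord_pow j (mx i) (2 * k) (hv i j)) hPo
        refine le_trans ?_ ((min_le_min o1 o2).trans (Ends.ord_sub j m1 m2))
        have hu0 : u i j ≤ 0 := by omega
        have h2 : max (max (-v i j) (-u i j)) 0 = -u i j := by omega
        have h3 : u i j ≤ min (v i j) 0 := by omega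
        have h4 : (k : ℤ) * u i j ≤ k * min (v i j) 0 := mul_le_mul_of_nonneg_left h3 hk0
        have h5 : 2 * (k * v i j) + 2 * (k * u i j) + k * max (max (-v i j) (-u i j)) 0 +
            min (min (v i' j - 2 * (k * v i j)) (u i' j - 2 * (k * u i j))) 0 ≤
            min (v i' j + k * min (v i j) 0)
              (((2 * k : ℕ) : ℤ) * v i j + k * min (v i j) 0) := by
          rw [h2]
          have e1 : (k : ℤ) * -u i j = -(k * u i j) := by ring
          have e2 : ((2 * k : ℕ) : ℤ) * v i j = 2 * (k * v i j) := by push_cast; ring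
          rw [e1, e2]
          generalize (k : ℤ) * v i j = α at *
          generalize (k : ℤ) * u i j = β at *
          generalize (k : ℤ) * min (v i j) 0 = γ at *
          omega
        exact_mod_cast h5
      · have o1 := Ends.le_ord_mul j ((mx' i).pow (2 * k)) (mP (Q i k))
          (Ends.le_ord_pow j (mx' i) (2 * k) (hu i j)) hQo
        have o2 := Ends.le_ord_mul j (mx' i') (mP (R i k)) (hu i' j).ge hRo
        have hcongr : ∀ y ∈ Y, x i' y * (R i k).eval (x i y) -
            x i y ^ (2 * k) * (P i k).eval (x i y) =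
            (1 - x i y) ^ (2 * k) * (Q i k).eval (x i y) -
              (1 - x i' y) * (R i k).eval (x i y) := by
          intro y _
          have h6 := congrArg (fun T => T.eval (x i y)) hid
          simp only [eval_add, eval_mul, eval_pow, eval_X, eval_sub, eval_one] at h6
          linear_combination -h6
        rw [Ends.ord_congr (E := E) hcongr j]
        refine le_trans ?_ ((min_le_min o1 o2).trans (Ends.ord_sub j m3 m4))
        have hv0 : v i j ≤ 0 := by omega
        have h2 : max (max (-v i j) (-u i j)) 0 = -v i j := by omega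
        have h3 : min (v i j) 0 = v i j := by omega
        have h5 : 2 * (k * v i j) + 2 * (k * u i j) + k * max (max (-v i j) (-u i j)) 0 +
            min (min (v i' j - 2 * (k * v i j)) (u i' j - 2 * (k * u i j))) 0 ≤
            min (((2 * k : ℕ) : ℤ) * u i j + k * min (v i j) 0)
              (u i' j + k * min (v i j) 0) := by
          rw [h2, h3]
          have e1 : (k : ℤ) * -v i j = -(k * v i j) := by ring
          have e2 : ((2 * k : ℕ) : ℤ) * u i j = 2 * (k * u i j) := by push_cast; ring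
          rw [e1, e2]
          generalize (k : ℤ) * v i j = α at *
          generalize (k : ℤ) * u i j = β at *
          omega
        exact_mod_cast h5

end Pool.Agent.L5helper22
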